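import Mathlib

set_option autoImplicit false

/-!
# H54E, chunk A1 (S, pure linear algebra)
-/

namespace Pool.Agent.Lib.H54E

/-- **A1.** `T : (Fin n → ℝ) × Y → W` linear and surjective, `dim W = dim Y`. Then there is a linear
`q : (Fin n → ℝ) × Y → (Fin n → ℝ)` such that `(T, q)` is a linear isomorphism onto
`W × (Fin n → ℝ)`.

PROOF. `ker T` has dimension `n + dim Y - dim W = n`
(`LinearMap.finrank_range_add_finrank_ker`), so there is a linear isomorphism
`κ : ker T ≃ (Fin n → ℝ)`. Let `q₀` be a linear projection of the whole space onto `ker T`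
(`Submodule.exists_isCompl`, `Submodule.linearProjOfIsCompl`, or
`LinearMap.exists_leftInverse_of_injective` for the inclusion), `q = κ ∘ q₀`. If `T z = 0` and
`q z = 0` then `z ∈ ker T`, so `q₀ z = z` and `z = 0`: `(T, q)` is injective, and the dimensions of
both sides are equal, so it is bijective (`LinearEquiv.ofInjectiveEndo` style /
`LinearEquiv.ofFinrankEq` / `LinearMap.linearEquivOfInjective`). Everything is continuous in finite
dimension (`LinearMap.toContinuousLinearMap`, `LinearEquiv.toContinuousLinearEquiv`). -/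
theorem a1 {n : ℕ} {Y W : Type*} [NormedAddCommGroup Y] [NormedSpace ℝ Y]
    [FiniteDimensional ℝ Y] [NormedAddCommGroup W] [NormedSpace ℝ W] [FiniteDimensional ℝ W]
    (hd : Module.finrank ℝ W = Module.finrank ℝ Y)
    (T : ((Fin n → ℝ) × Y) →L[ℝ] W) (hT : Function.Surjective T) :
    ∃ (q : ((Fin n → ℝ) × Y) →L[ℝ] (Fin n → ℝ))
      (e : ((Fin n → ℝ) × Y) ≃L[ℝ] (W × (Fin n → ℝ))), ∀ z, e z = (T z, q z) := by
  classical
  let T' : ((Fin n → ℝ) × Y) →ₗ[ℝ] W := T
  have hfr : Module.finrank ℝ (LinearMap.ker T') = n := by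
    have h1 := LinearMap.finrank_range_add_finrank_ker T'
    have h2 : LinearMap.range T' = ⊤ := LinearMap.range_eq_top.2 hT
    rw [h2, finrank_top, Module.finrank_prod] at h1
    simp only [Module.finrank_fin_fun] at h1
    omega
  let κ : LinearMap.ker T' ≃ₗ[ℝ] (Fin n → ℝ) :=
    LinearEquiv.ofFinrankEq _ _ (by rw [hfr, Module.finrank_fin_fun])
  obtain ⟨q₀, hq₀⟩ := LinearMap.exists_leftInverse_of_injective (LinearMap.ker T').subtype
    (LinearMap.ker_eq_bot.2 (Submodule.injective_subtype _))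
  let q' : ((Fin n → ℝ) × Y) →ₗ[ℝ] (Fin n → ℝ) := κ.toLinearMap.comp q₀
  let F : ((Fin n → ℝ) × Y) →ₗ[ℝ] (W × (Fin n → ℝ)) := T'.prod q'
  have hF : Function.Injective F := by
    rw [← LinearMap.ker_eq_bot, LinearMap.ker_eq_bot']
    intro z hz
    have h1 : T' z = 0 := congrArg Prod.fst hz
    have h2 : q' z = 0 := congrArg Prod.snd hz
    have h3 : q₀ z = 0 := by
      have : κ (q₀ z) = 0 := h2
      exact (LinearEquiv.map_eq_zero_iff κ).1 this
    have h4 : q₀ ((LinearMap.ker T').subtype ⟨z, h1⟩) = ⟨z, h1⟩ :=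
      congrArg (fun f => f ⟨z, h1⟩) hq₀
    have h5 : (⟨z, h1⟩ : LinearMap.ker T') = 0 := by
      rw [← h4]; exact h3
    exact congrArg Subtype.val h5
  have hfr2 : Module.finrank ℝ ((Fin n → ℝ) × Y) = Module.finrank ℝ (W × (Fin n → ℝ)) := by
    rw [Module.finrank_prod, Module.finrank_prod, hd, add_comm]
  let e' : ((Fin n → ℝ) × Y) ≃ₗ[ℝ] (W × (Fin n → ℝ)) :=
    LinearEquiv.ofInjectiveOfFinrankEq F hF hfr2
  refine ⟨LinearMap.toContinuousLinearMap q', e'.toContinuousLinearEquiv, fun z => ?_⟩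
  rfl

end Pool.Agent.Lib.H54E
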