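import Pool.Agent.Lib.H54E.A1

set_option autoImplicit false

/-!
# H54E, chunk A2 (M, pure analysis)
-/

namespace Pool.Agent.Lib.H54E

/-- **A2.** Local Sard statement. `g : (Fin n → ℝ) × Y → W` is `C¹` near `p₀`, `dim W = dim Y`, and
`Dg(p₀)` is surjective. Then some open neighbourhood `N` of `p₀` is such that the set of all first
coordinates of points `p ∈ N` with `g p = 0` at which `Dg(p)` kills some `(0, v)`, `v ≠ 0`, is
Lebesgue null.

PROOF. Let `T = Dg(p₀)` and take `q`, `e` from `a1`. `Φ(p) = (g p, q p)` is `C¹` near `p₀` with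
derivative `e` at `p₀`. By the inverse function theorem
(`ContDiffAt.toOpenPartialHomeomorph` / `HasStrictFDerivAt.toOpenPartialHomeomorph`; alternatively
`ContDiffAt.to_localInverse`) there are an open `N ∋ p₀` and an open `N' ⊆ W × (Fin n → ℝ)` and
`Ψ : N' → N` inverse to `Φ`, with `Φ` of class `C¹` on `N` and `DΦ(p)` invertible for all `p ∈ N`
(invertible operators form an open set; shrink `N`), and `Ψ` differentiable on `N'`, more precisely
`HasFDerivAt Ψ (DΦ(p))⁻¹ (Φ p)` for `p ∈ N` (`OpenPartialHomeomorph.hasFDerivAt_symm` or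
`HasFDerivAt.of_local_left_inverse`).
Let `s = {q p | p ∈ N, g p = 0, ∃ v ≠ 0, Dg(p)(0, v) = 0} ⊆ (Fin n → ℝ)` and
`ψ(k) = (Ψ(0, k)).1`. For `p` in this set and `k = q p` we have `Φ p = (0, k)`, so `Ψ(0, k) = p` and
`ψ k = p.1`; so the set in question is `ψ '' s`. `ψ` has at `k` the derivative
`k' ↦ ((DΦ(p))⁻¹ (0, k')).1`. With `k' = q (0, v)`: `DΦ(p)(0, v) = (Dg(p)(0, v), q (0, v)) = (0, k')`,
so `(DΦ(p))⁻¹ (0, k') = (0, v)` and `Dψ(k) k' = 0`; and `k' ≠ 0`, since otherwise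
`DΦ(p)(0, v) = 0` and `v = 0`. So `Dψ(k)` is not injective and its determinant is `0`
(`LinearMap.det_eq_zero_iff_ker_ne_bot` or similar). Conclude with
`MeasureTheory.addHaar_image_eq_zero_of_det_fderiv_eq_zero` (which needs `HasFDerivWithinAt` on `s`
and det zero on `s`). -/
theorem a2 {n : ℕ} {Y W : Type*} [NormedAddCommGroup Y] [NormedSpace ℝ Y]
    [FiniteDimensional ℝ Y] [NormedAddCommGroup W] [NormedSpace ℝ W] [FiniteDimensional ℝ W]
    (hd : Module.finrank ℝ W = Module.finrank ℝ Y)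
    (g : (Fin n → ℝ) × Y → W) (p₀ : (Fin n → ℝ) × Y)
    (hg : ContDiffAt ℝ 1 g p₀) (hT : Function.Surjective (fderiv ℝ g p₀)) :
    ∃ N : Set ((Fin n → ℝ) × Y), IsOpen N ∧ p₀ ∈ N ∧
      MeasureTheory.volume (Prod.fst '' {p : (Fin n → ℝ) × Y | p ∈ N ∧ g p = 0 ∧
        ∃ v : Y, v ≠ 0 ∧ fderiv ℝ g p (0, v) = 0}) = 0 := by
  classical
  have : CompleteSpace ((Fin n → ℝ) × Y) := FiniteDimensional.complete ℝ _
  obtain ⟨q, e, he⟩ := a1 hd (fderiv ℝ g p₀) hT
  have hone : (1 : WithTop ℕ∞) ≠ 0 := one_ne_zero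
  let Φ : ((Fin n → ℝ) × Y) → W × (Fin n → ℝ) := fun p => (g p, q p)
  have hΦ : ContDiffAt ℝ 1 Φ p₀ := hg.prodMk q.contDiff.contDiffAt
  have hder : ∀ p, DifferentiableAt ℝ g p → HasFDerivAt Φ ((fderiv ℝ g p).prod q) p :=
    fun p hp => hp.hasFDerivAt.prodMk q.hasFDerivAt
  have hΦ' : HasFDerivAt Φ (e : ((Fin n → ℝ) × Y) →L[ℝ] (W × (Fin n → ℝ))) p₀ := by
    have h1 := hder p₀ (hg.differentiableAt hone)
    have h2 : (fderiv ℝ g p₀).prod q = (e : ((Fin n → ℝ) × Y) →L[ℝ] (W × (Fin n → ℝ))) :=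
      ContinuousLinearMap.ext fun z => (he z).symm
    rwa [h2] at h1
  let P : OpenPartialHomeomorph ((Fin n → ℝ) × Y) (W × (Fin n → ℝ)) :=
    hΦ.toOpenPartialHomeomorph Φ hΦ' hone
  have hP : ∀ p, P p = Φ p := fun p => rfl
  have hp₀ : p₀ ∈ P.source := hΦ.mem_toOpenPartialHomeomorph_source hΦ' hone
  -- good points
  have hgood : ∀ᶠ p in nhds p₀, DifferentiableAt ℝ g p ∧
      ∃ E : ((Fin n → ℝ) × Y) ≃L[ℝ] (W × (Fin n → ℝ)),
        (E : ((Fin n → ℝ) × Y) →L[ℝ] (W × (Fin n → ℝ))) = (fderiv ℝ g p).prod q := by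
    have h1 : ∀ᶠ p in nhds p₀, ContDiffAt ℝ 1 g p := hg.eventually (by simp)
    have h2 : ContinuousAt (fderiv ℝ g) p₀ :=
      (hg.fderiv_right (m := 0) (by simp)).continuousAt
    have h3 : ContinuousAt (fun p => (fderiv ℝ g p).prod q) p₀ := by
      have h4 : Continuous (fun A : ((Fin n → ℝ) × Y) →L[ℝ] W => A.prod q) := by
        have h41 : (fun A : ((Fin n → ℝ) × Y) →L[ℝ] W => A.prod q) =
            fun A : ((Fin n → ℝ) × Y) →L[ℝ] W =>
              (ContinuousLinearMap.inl ℝ W (Fin n → ℝ)).comp A +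
                (ContinuousLinearMap.inr ℝ W (Fin n → ℝ)).comp q := by
          funext A
          ext z <;> simp
        rw [h41]
        exact (continuous_const.clm_comp continuous_id).add continuous_const
      exact h4.continuousAt.comp h2
    have h5 : (fderiv ℝ g p₀).prod q = (e : ((Fin n → ℝ) × Y) →L[ℝ] (W × (Fin n → ℝ))) :=
      ContinuousLinearMap.ext fun z => (he z).symm
    have h6 : Set.range ((↑) : (((Fin n → ℝ) × Y) ≃L[ℝ] (W × (Fin n → ℝ))) →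
        ((Fin n → ℝ) × Y) →L[ℝ] (W × (Fin n → ℝ))) ∈ nhds ((fderiv ℝ g p₀).prod q) := by
      rw [h5]; exact ContinuousLinearEquiv.nhds e
    filter_upwards [h1, h3 h6] with p hp1 hp2
    exact ⟨hp1.differentiableAt hone, hp2⟩
  obtain ⟨N₀, hN₀, hN₀o, hpN₀⟩ := eventually_nhds_iff.1 hgood
  refine ⟨P.source ∩ N₀, P.open_source.inter hN₀o, ⟨hp₀, hpN₀⟩, ?_⟩
  let ψ : (Fin n → ℝ) → (Fin n → ℝ) := fun k => (P.symm ((0 : W), k)).1
  let s : Set (Fin n → ℝ) := q '' {p : (Fin n → ℝ) × Y | p ∈ P.source ∩ N₀ ∧ g p = 0 ∧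
        ∃ v : Y, v ≠ 0 ∧ fderiv ℝ g p (0, v) = 0}
  have hψ : ∀ p ∈ P.source, g p = 0 → P.symm ((0 : W), q p) = p := by
    intro p hp hgp
    have h1 : ((0 : W), q p) = P p := by rw [hP]; exact Prod.ext hgp.symm rfl
    rw [h1]; exact P.left_inv hp
  have hkey : ∀ k ∈ s, ∃ L : (Fin n → ℝ) →L[ℝ] (Fin n → ℝ), HasFDerivAt ψ L k ∧ L.det = 0 := by
    rintro k ⟨p, ⟨⟨hps, hpN⟩, hgp, v, hv, hgv⟩, rfl⟩
    obtain ⟨hdp, E, hE⟩ := hN₀ p hpN
    have hmem : ((0 : W), q p) ∈ P.target := by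
      have h1 : ((0 : W), q p) = P p := by rw [hP]; exact Prod.ext hgp.symm rfl
      rw [h1]; exact P.map_source hps
    have hsy := hψ p hps hgp
    have h2 : HasFDerivAt P.symm (E.symm : (W × (Fin n → ℝ)) →L[ℝ] ((Fin n → ℝ) × Y))
        ((0 : W), q p) := by
      refine P.hasFDerivAt_symm hmem ?_
      rw [hsy, hE]
      exact hder p hdp
    have h3 : HasFDerivAt (fun k : Fin n → ℝ => ((0 : W), k))
        (ContinuousLinearMap.inr ℝ W (Fin n → ℝ)) (q p) :=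
      (ContinuousLinearMap.inr ℝ W (Fin n → ℝ)).hasFDerivAt
    have h4 : HasFDerivAt ψ ((ContinuousLinearMap.fst ℝ (Fin n → ℝ) Y).comp
        ((E.symm : (W × (Fin n → ℝ)) →L[ℝ] ((Fin n → ℝ) × Y)).comp
          (ContinuousLinearMap.inr ℝ W (Fin n → ℝ)))) (q p) :=
      (ContinuousLinearMap.fst ℝ (Fin n → ℝ) Y).hasFDerivAt.comp (q p)
        (HasFDerivAt.comp (q p) h2 h3)
    refine ⟨_, h4, ?_⟩
    have h5 : E (0, v) = ((0 : W), q (0, v)) := by
      have h6 : E (0, v) = ((fderiv ℝ g p).prod q) (0, v) :=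
        congrArg (fun A : ((Fin n → ℝ) × Y) →L[ℝ] (W × (Fin n → ℝ)) => A (0, v)) hE
      rw [h6]; exact Prod.ext hgv rfl
    have h7 : E.symm ((0 : W), q (0, v)) = (0, v) := by
      rw [← h5]; exact E.symm_apply_apply _
    have h8 : q (0, v) ≠ 0 := by
      intro h9
      rw [h9] at h7
      have h10 : E.symm ((0 : W), (0 : Fin n → ℝ)) = 0 := map_zero E.symm
      rw [h10] at h7
      exact hv (congrArg Prod.snd h7).symm
    rw [ContinuousLinearMap.det, LinearMap.det_eq_zero_iff_ker_ne_bot]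
    intro hker
    apply h8
    rw [LinearMap.ker_eq_bot'] at hker
    apply hker
    exact congrArg Prod.fst h7
  choose! L hL using hkey
  have hfin := MeasureTheory.addHaar_image_eq_zero_of_det_fderivWithin_eq_zero
    (MeasureTheory.volume : MeasureTheory.Measure (Fin n → ℝ))
    (s := s) (f := ψ) (f' := L)
    (fun k hk => (hL k hk).1.hasFDerivWithinAt) (fun k hk => (hL k hk).2)
  refine MeasureTheory.measure_mono_null ?_ hfin
  rintro _ ⟨p, hp, rfl⟩
  refine ⟨q p, ⟨p, hp, rfl⟩, ?_⟩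
  exact congrArg Prod.fst (hψ p hp.1.1 hp.2.1)

end Pool.Agent.Lib.H54E
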