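import Mathlib

set_option autoImplicit false

/-!
# H54E, chunk A3 (S, pure topology and measure)
-/

namespace Pool.Agent.Lib.H54E

/-- **A3.** If every point of `Z` has an open neighbourhood `N` such that the image of `N ∩ Z`
under `f` is null, then the image of `Z` is null (second countability).

PROOF. `TopologicalSpace.countable_cover_nhdsWithin` (or Lindelöf property of subsets of a second
countable space) gives countably many of the neighbourhoods covering `Z`; the image of `Z` is then
contained in a countable union of null sets (`MeasureTheory.measure_biUnion_null_iff`). -/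
theorem a3 {n : ℕ} {E : Type*} [TopologicalSpace E] [SecondCountableTopology E]
    (f : E → (Fin n → ℝ)) (Z : Set E)
    (h : ∀ p ∈ Z, ∃ N : Set E, IsOpen N ∧ p ∈ N ∧
      MeasureTheory.volume (f '' {p : E | p ∈ N ∧ p ∈ Z}) = 0) :
    MeasureTheory.volume (f '' Z) = 0 := by
  classical
  choose! N hNo hpN hN0 using h
  obtain ⟨t, htZ, htc, hcov⟩ := TopologicalSpace.countable_cover_nhdsWithin
    (f := N) (s := Z) (fun p hp => mem_nhdsWithin_of_mem_nhds ((hNo p hp).mem_nhds (hpN p hp)))
  have h1 : MeasureTheory.volume (⋃ p ∈ t, f '' {q : E | q ∈ N p ∧ q ∈ Z}) = 0 :=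
    (MeasureTheory.measure_biUnion_null_iff htc).2 (fun p hp => hN0 p (htZ hp))
  refine MeasureTheory.measure_mono_null ?_ h1
  rintro _ ⟨q, hq, rfl⟩
  obtain ⟨p, hp, hqp⟩ := Set.mem_iUnion₂.1 (hcov hq)
  exact Set.mem_iUnion₂.2 ⟨p, hp, ⟨q, ⟨hqp, hq⟩, rfl⟩⟩

end Pool.Agent.Lib.H54E
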