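import Mathlib

set_option autoImplicit false

/-!
# H54E, chunk A4 (M, pure)
-/

namespace Pool.Agent.Lib.H54E

/-- **A4.** The vertical derivative `g(p) = Df(p)(0, ·)` of a `C³` (`C²` is enough) function `f` of
two variables: `g` is `C¹`, its derivative is `Dg(p)(b)(w) = D²f(p)(b)(0, w)`, and `Dg(p)` is
surjective onto the dual of `Y` if `D²f(p)(0, v) ≠ 0` for all `v ≠ 0`.

PROOF. `g p = (fderiv ℝ f p).comp (ContinuousLinearMap.inr ℝ P Y)`, and composition with a fixed
operator is continuous linear (`ContinuousLinearMap.compL`, or `precomp`), `fderiv ℝ f` is `C¹` at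
`p` (`ContDiffAt.fderiv_right`). This gives the first two statements.
Surjectivity: if the range `R` of `Dg(p)` were not everything, there would be a nonzero functional
on `Y →L[ℝ] ℝ` vanishing on `R` (`Submodule.exists_le_ker_of_lt_top` or
`Subspace.dualAnnihilator...`), and by finite dimension (reflexivity: every linear functional on
the dual of `Y` is the evaluation at some `v : Y`; `Module.evalEquiv`) there is `v ≠ 0` in `Y` with
`Dg(p)(b)(v) = 0` for all `b`, i.e. `D²f(p)(b)(0, v) = 0` for all `b`. By symmetry of the second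
derivative (`ContDiffAt.isSymmSndFDerivAt`, with `minSmoothness ℝ 2 ≤ 3`) `D²f(p)(0, v)(b) = 0` for
all `b`, i.e. `D²f(p)(0, v) = 0`: contradiction. -/
theorem a4 {P Y : Type*} [NormedAddCommGroup P] [NormedSpace ℝ P]
    [NormedAddCommGroup Y] [NormedSpace ℝ Y] [FiniteDimensional ℝ Y]
    (f : P × Y → ℝ) (p : P × Y) (hf : ContDiffAt ℝ 3 f p) :
    ContDiffAt ℝ 1 (fun z => (fderiv ℝ f z).comp (ContinuousLinearMap.inr ℝ P Y)) p ∧
    (∀ (b : P × Y) (w : Y),
      fderiv ℝ (fun z => (fderiv ℝ f z).comp (ContinuousLinearMap.inr ℝ P Y)) p b w =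
        fderiv ℝ (fderiv ℝ f) p b (0, w)) ∧
    ((∀ v : Y, v ≠ 0 → fderiv ℝ (fderiv ℝ f) p (0, v) ≠ 0) →
      Function.Surjective
        (fderiv ℝ (fun z => (fderiv ℝ f z).comp (ContinuousLinearMap.inr ℝ P Y)) p)) := by
  classical
  have hd2 : ContDiffAt ℝ 2 (fderiv ℝ f) p := hf.fderiv_right (by norm_num)
  have hd1 : ContDiffAt ℝ 1 (fderiv ℝ f) p := hd2.of_le (by norm_num)
  have hdiff : DifferentiableAt ℝ (fderiv ℝ f) p := hd1.differentiableAt one_ne_zero
  let C : ((P × Y) →L[ℝ] ℝ) →L[ℝ] (Y →L[ℝ] ℝ) :=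
    (ContinuousLinearMap.compL ℝ Y (P × Y) ℝ).flip (ContinuousLinearMap.inr ℝ P Y)
  have hC : ∀ A : (P × Y) →L[ℝ] ℝ, C A = A.comp (ContinuousLinearMap.inr ℝ P Y) := fun A => rfl
  have hfun : (fun z => (fderiv ℝ f z).comp (ContinuousLinearMap.inr ℝ P Y)) =
      fun z => C (fderiv ℝ f z) := rfl
  have hder : HasFDerivAt (fun z => (fderiv ℝ f z).comp (ContinuousLinearMap.inr ℝ P Y))
      (C.comp (fderiv ℝ (fderiv ℝ f) p)) p := by
    rw [hfun]
    exact C.hasFDerivAt.comp p hdiff.hasFDerivAt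
  have hform : ∀ (b : P × Y) (w : Y),
      fderiv ℝ (fun z => (fderiv ℝ f z).comp (ContinuousLinearMap.inr ℝ P Y)) p b w =
        fderiv ℝ (fderiv ℝ f) p b (0, w) := by
    intro b w
    rw [hder.fderiv]
    rfl
  refine ⟨?_, hform, ?_⟩
  · rw [hfun]
    exact C.contDiff.contDiffAt.comp p hd1
  · intro hnd
    set T := fderiv ℝ (fun z => (fderiv ℝ f z).comp (ContinuousLinearMap.inr ℝ P Y)) p with hT
    let T' : (P × Y) →ₗ[ℝ] (Y →L[ℝ] ℝ) := T
    have hsymm : ∀ b c : P × Y,
        fderiv ℝ (fderiv ℝ f) p b c = fderiv ℝ (fderiv ℝ f) p c b := by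
      have h1 : IsSymmSndFDerivAt ℝ f p := hf.isSymmSndFDerivAt (by
        rw [minSmoothness_of_isRCLikeNormedField]; norm_num)
      exact fun b c => h1.eq b c
    by_contra hns
    have hlt : LinearMap.range T' < ⊤ := by
      rw [lt_top_iff_ne_top]
      intro h1
      exact hns (LinearMap.range_eq_top.1 h1)
    obtain ⟨φ, hφ0, hφ⟩ := Submodule.exists_le_ker_of_lt_top _ hlt
    let eD : Module.Dual ℝ Y ≃ₗ[ℝ] (Y →L[ℝ] ℝ) := LinearMap.toContinuousLinearMap
    let φ' : Module.Dual ℝ (Module.Dual ℝ Y) := φ.comp eD.toLinearMap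
    obtain ⟨v, hv⟩ := (Module.evalEquiv ℝ Y).surjective φ'
    have hval : ∀ l : Y →L[ℝ] ℝ, φ l = l v := by
      intro l
      have h1 : φ' (eD.symm l) = (Module.evalEquiv ℝ Y v) (eD.symm l) := by rw [hv]
      have h2 : φ' (eD.symm l) = φ l := by
        show φ (eD (eD.symm l)) = φ l
        rw [LinearEquiv.apply_symm_apply]
      rw [← h2, h1]
      rfl
    have hv0 : v ≠ 0 := by
      rintro rfl
      apply hφ0
      apply LinearMap.ext
      intro l
      rw [hval l]
      simp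
    apply hnd v hv0
    apply ContinuousLinearMap.ext
    intro b
    rw [hsymm, ← hform b v, ← hval]
    have h3 : T' b ∈ LinearMap.range T' := ⟨b, rfl⟩
    exact hφ h3

end Pool.Agent.Lib.H54E
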