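import Pool.Agent.Lib.H54E.A2
import Pool.Agent.Lib.H54E.A3
import Pool.Agent.Lib.H54E.A4

set_option autoImplicit false

/-!
# H54E, chunk A5 (S/M, from A2, A3, A4)
-/

namespace Pool.Agent.Lib.H54E

/-- **A5.** Parametric Sard statement for degenerate critical points. Parameters `p.1` in
`Fin n → ℝ`, variables `p.2` in a finite dimensional space `Y`; `f` is `C³` at all points of the
open set `O`. The set of the parameters `m` for which some `(m, y) ∈ O` is a degenerate vertical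
critical point of `f` at which no `(0, v)`, `v ≠ 0`, is in the kernel of the full Hessian, is null.

PROOF. Let `Z` be the set in the statement, `g z = (fderiv ℝ f z).comp (inr)`. Use `a3` with
`f = Prod.fst`: for `p ∈ Z`, by `a4` `g` is `C¹` at `p` and `Dg(p)` is surjective onto
`Y →L[ℝ] ℝ`, whose dimension is `dim Y` (`Subspace.dual_finrank_eq` and
`LinearMap.toContinuousLinearMap` as linear equivalence); `a2` gives `N`; `N ∩ Z` is contained
in the set of `a2`: for `z ∈ Z`, `g z = 0` since `Df(z)(0, w) = 0` for all `w`, and for the `v ≠ 0`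
with `D²f(z)(0, v)(0, w) = 0` for all `w` we get `Dg(z)(0, v) = 0` by the formula of `a4`. -/
theorem a5 {n : ℕ} {Y : Type*} [NormedAddCommGroup Y] [NormedSpace ℝ Y]
    [FiniteDimensional ℝ Y] (f : (Fin n → ℝ) × Y → ℝ) (O : Set ((Fin n → ℝ) × Y))
    (hf : ∀ p ∈ O, ContDiffAt ℝ 3 f p) :
    MeasureTheory.volume (Prod.fst '' {p : (Fin n → ℝ) × Y | p ∈ O ∧
      (∀ w : Y, fderiv ℝ f p (0, w) = 0) ∧
      (∃ v : Y, v ≠ 0 ∧ ∀ w : Y, fderiv ℝ (fderiv ℝ f) p (0, v) (0, w) = 0) ∧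
      (∀ v : Y, v ≠ 0 → fderiv ℝ (fderiv ℝ f) p (0, v) ≠ 0)}) = 0 := by
  classical
  refine a3 Prod.fst _ ?_
  rintro p ⟨hpO, hcrit, ⟨v, hv, hvw⟩, hnd⟩
  obtain ⟨hg1, hg2, hg3⟩ := a4 f p (hf p hpO)
  have hfr : Module.finrank ℝ (Y →L[ℝ] ℝ) = Module.finrank ℝ Y := by
    rw [← LinearEquiv.finrank_eq (LinearMap.toContinuousLinearMap : (Y →ₗ[ℝ] ℝ) ≃ₗ[ℝ] (Y →L[ℝ] ℝ))]
    exact Subspace.dual_finrank_eq
  obtain ⟨N, hN, hpN, hN0⟩ := a2 hfr
    (fun z => (fderiv ℝ f z).comp (ContinuousLinearMap.inr ℝ (Fin n → ℝ) Y)) p hg1 (hg3 hnd)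
  refine ⟨N, hN, hpN, MeasureTheory.measure_mono_null ?_ hN0⟩
  refine Set.image_mono ?_
  rintro z ⟨hzN, hzO, hzc, ⟨u, hu, huw⟩, -⟩
  refine ⟨hzN, ?_, u, hu, ?_⟩
  · apply ContinuousLinearMap.ext
    intro w
    exact hzc w
  · apply ContinuousLinearMap.ext
    intro w
    rw [(a4 f z (hf z hzO)).2.1 (0, u) w]
    exact huw w

end Pool.Agent.Lib.H54E
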