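import Pool.Agent.Lib.H54E.Defs

set_option autoImplicit false

/-!
# H54E, chunk B1 (S)
-/

namespace Pool.Agent.Lib.H54E

open Filter Topology

private theorem b1_nsq (z : Pl) : ‖z‖ ^ 2 = z 0 ^ 2 + z 1 ^ 2 := by
  rw [EuclideanSpace.norm_sq_eq, Fin.sum_univ_two, Real.norm_eq_abs, Real.norm_eq_abs, sq_abs,
    sq_abs]

private theorem b1_in (z w : Pl) : inner ℝ z w = z 0 * w 0 + z 1 * w 1 := by
  rw [PiLp.inner_apply, Fin.sum_univ_two]
  simp
  ring

private theorem b1_ext {z w : Pl} (h0 : z 0 = w 0) (h1 : z 1 = w 1) : z = w := by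
  ext i
  fin_cases i
  · exact h0
  · exact h1

/-- **B1.** Facts on `rot` and similarities of the plane.

PROOF. Coordinates: `EuclideanSpace.norm_eq`, `EuclideanSpace.inner_eq_star_dotProduct` or
`PiLp.inner_apply`, `Fin.sum_univ_two`, `rot_zero`, `rot_one`. (1) `|a z + b rot z|² =
(a z0 - b z1)² + (a z1 + b z0)² = (a² + b²)|z|²`. (2), (3) in coordinates. (4) If `z ≠ 0` then
`z, rot z` is an orthogonal basis: `w = (⟪z,w⟫/|z|²) z + (⟪rot z,w⟫/|z|²) rot z`; in coordinates.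
(5) `a z + b rot z = 0` with `z ≠ 0` gives `(a² + b²)|z|² = 0` by (1). -/
theorem b1_norm (a b : ℝ) (z : Pl) :
    ‖a • z + b • rot z‖ = Real.sqrt (a ^ 2 + b ^ 2) * ‖z‖ := by
  have h : ‖a • z + b • rot z‖ ^ 2 = (a ^ 2 + b ^ 2) * ‖z‖ ^ 2 := by
    rw [b1_nsq, b1_nsq]
    simp only [PiLp.add_apply, PiLp.smul_apply, rot_zero, rot_one, smul_eq_mul]
    ring
  rw [← Real.sqrt_sq (norm_nonneg (a • z + b • rot z)), h, Real.sqrt_mul (by positivity),
    Real.sqrt_sq (norm_nonneg z)]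

theorem b1_inner (z : Pl) : inner ℝ z (rot z) = 0 ∧ inner ℝ (rot z) z = 0 ∧
    inner ℝ (rot z) (rot z) = ‖z‖ ^ 2 ∧ rot (rot z) = -z := by
  refine ⟨?_, ?_, ?_, ?_⟩
  · rw [b1_in, rot_zero, rot_one]; ring
  · rw [b1_in, rot_zero, rot_one]; ring
  · rw [b1_in, rot_zero, rot_one, b1_nsq]; ring
  · apply b1_ext
    · rw [rot_zero, rot_one]; rfl
    · rw [rot_one, rot_zero]; rfl

theorem b1_swap (z w : Pl) : inner ℝ z (rot w) = - inner ℝ (rot z) w := by
  rw [b1_in, b1_in, rot_zero, rot_one, rot_zero, rot_one]; ring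

theorem b1_basis (z w : Pl) (hz : z ≠ 0) :
    w = (inner ℝ z w / ‖z‖ ^ 2) • z + (inner ℝ (rot z) w / ‖z‖ ^ 2) • rot z := by
  have h : ‖z‖ ^ 2 ≠ 0 := pow_ne_zero 2 (norm_ne_zero_iff.2 hz)
  rw [b1_nsq] at h
  apply b1_ext
  · simp only [PiLp.add_apply, PiLp.smul_apply, smul_eq_mul, b1_in, rot_zero, rot_one, b1_nsq]
    field_simp
    ring
  · simp only [PiLp.add_apply, PiLp.smul_apply, smul_eq_mul, b1_in, rot_zero, rot_one, b1_nsq]
    field_simp
    ring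

theorem b1_indep (a b : ℝ) (z : Pl) (hz : z ≠ 0) (h : a • z + b • rot z = 0) :
    a = 0 ∧ b = 0 := by
  have h1 := b1_norm a b z
  rw [h, norm_zero] at h1
  have h2 : Real.sqrt (a ^ 2 + b ^ 2) = 0 := by
    rcases mul_eq_zero.1 h1.symm with h3 | h3
    · exact h3
    · exact absurd (norm_eq_zero.1 h3) hz
  rw [Real.sqrt_eq_zero (by positivity)] at h2
  constructor
  · nlinarith [sq_nonneg a, sq_nonneg b]
  · nlinarith [sq_nonneg a, sq_nonneg b]

end Pool.Agent.Lib.H54E
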