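import Pool.Agent.Lib.H54E.Defs2

set_option autoImplicit false

/-!
# H54E, chunk B3 (M)
-/

namespace Pool.Agent.Lib.H54E

open Filter Topology

/-- **B3.** The domain is open, the three functions are positive and smooth on it.

PROOF. (1) Finite intersection of open conditions. (2) `newton > 0`: all terms are nonnegative and
the term `i = 0, j = 1` is positive. (3) `inertia > 0`: all terms are nonnegative; if all were zero,
all `y_i` would be equal to the centre of mass, but `y_0 ≠ y_1`. (4) `kin > 0` as (2).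
(5)-(7): smoothness: `ContDiffAt` of finite sums and products (`ContDiffAt.sum`, `fun_prop`);
`‖y i - y j‖` is smooth at points with `y i ≠ y j` (`ContDiffAt.norm ℝ`), division by a nonzero
function, `‖·‖ ^ 2` smooth (`ContDiffAt.norm_sq ℝ`), `(∑ m)⁻¹` smooth since `∑ m > 0`, `Real.sqrt`
smooth at positive numbers (`ContDiffAt.sqrt`). -/
theorem b3_open (n : ℕ) : IsOpen (dom n) := by
  have e : dom n = (⋂ i, {p : (Fin n → ℝ) × Conf n | 0 < p.1 i}) ∩
      (⋂ i, ⋂ j, {p : (Fin n → ℝ) × Conf n | i ≠ j → p.2 i ≠ p.2 j}) := by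
    ext p
    simp [dom]
  rw [e]
  refine IsOpen.inter ?_ ?_
  · refine isOpen_iInter_of_finite fun i => ?_
    exact isOpen_lt continuous_const (by fun_prop)
  · refine isOpen_iInter_of_finite fun i => isOpen_iInter_of_finite fun j => ?_
    by_cases hij : i = j
    · simp [hij]
    · have : {p : (Fin n → ℝ) × Conf n | i ≠ j → p.2 i ≠ p.2 j} =
          {p : (Fin n → ℝ) × Conf n | p.2 i ≠ p.2 j} := by
        ext p; simp [hij]
      rw [this]
      exact isOpen_ne_fun (by fun_prop) (by fun_prop)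

theorem b3_newton_pos {n : ℕ} (hn : 2 ≤ n) (p : (Fin n → ℝ) × Conf n) (hp : p ∈ dom n) :
    0 < newton p.1 p.2 := by
  unfold newton
  have h0 : ∀ i j, 0 ≤ p.1 i * p.1 j / ‖p.2 i - p.2 j‖ := fun i j =>
    div_nonneg (mul_nonneg (hp.1 i).le (hp.1 j).le) (norm_nonneg _)
  refine Finset.sum_pos' (fun i _ => Finset.sum_nonneg fun j _ => h0 i j)
    ⟨⟨0, by omega⟩, Finset.mem_univ _, ?_⟩
  refine Finset.sum_pos' (fun j _ => h0 _ j) ⟨⟨1, by omega⟩, ?_, ?_⟩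
  · simp
  · refine div_pos (mul_pos (hp.1 _) (hp.1 _)) (norm_pos_iff.2 (sub_ne_zero.2 (hp.2 _ _ ?_)))
    simp

theorem b3_inertia_pos {n : ℕ} (hn : 2 ≤ n) (p : (Fin n → ℝ) × Conf n) (hp : p ∈ dom n) :
    0 < inertia p.1 p.2 := by
  unfold inertia
  set g := (∑ k, p.1 k)⁻¹ • ∑ k, p.1 k • p.2 k
  have h0 : ∀ i, 0 ≤ p.1 i * ‖p.2 i - g‖ ^ 2 := fun i =>
    mul_nonneg (hp.1 i).le (by positivity)
  by_contra hc
  push Not at hc
  have hz : ∑ i, p.1 i * ‖p.2 i - g‖ ^ 2 = 0 :=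
    le_antisymm hc (Finset.sum_nonneg fun i _ => h0 i)
  rw [Finset.sum_eq_zero_iff_of_nonneg (fun i _ => h0 i)] at hz
  have h1 : ∀ i, p.2 i = g := by
    intro i
    have := hz i (Finset.mem_univ i)
    rcases mul_eq_zero.1 this with h | h
    · exact absurd h (hp.1 i).ne'
    · exact sub_eq_zero.1 (norm_eq_zero.1 (pow_eq_zero_iff (two_ne_zero) |>.1 h))
  refine hp.2 ⟨0, by omega⟩ ⟨1, by omega⟩ (by simp) ?_
  rw [h1, h1]

theorem b3_kin_pos {n : ℕ} (hn : 2 ≤ n) (p : (Fin n → ℝ) × Conf n) (hp : p ∈ dom n) :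
    0 < kin p.1 p.2 := by
  unfold kin
  have h0 : ∀ i j, 0 ≤ p.1 i * p.1 j * ‖p.2 i - p.2 j‖ ^ 2 := fun i j =>
    mul_nonneg (mul_nonneg (hp.1 i).le (hp.1 j).le) (by positivity)
  refine Finset.sum_pos' (fun i _ => Finset.sum_nonneg fun j _ => h0 i j)
    ⟨⟨0, by omega⟩, Finset.mem_univ _, ?_⟩
  refine Finset.sum_pos' (fun j _ => h0 _ j) ⟨⟨1, by omega⟩, ?_, ?_⟩
  · simp
  · have h1 := norm_pos_iff.2 (sub_ne_zero.2 (hp.2 (⟨0, by omega⟩ : Fin n) ⟨1, by omega⟩ (by simp)))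
    have h2 := hp.1 (⟨0, by omega⟩ : Fin n)
    have h3 := hp.1 (⟨1, by omega⟩ : Fin n)
    positivity

private theorem b3_m {n : ℕ} (i : Fin n) (p : (Fin n → ℝ) × Conf n) :
    ContDiffAt ℝ 3 (fun z : (Fin n → ℝ) × Conf n => z.1 i) p := by
  exact ((ContinuousLinearMap.proj (R := ℝ) (φ := fun _ : Fin n => ℝ) i).comp
    (ContinuousLinearMap.fst ℝ (Fin n → ℝ) (Conf n))).contDiff.contDiffAt

private theorem b3_x {n : ℕ} (i : Fin n) (p : (Fin n → ℝ) × Conf n) :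
    ContDiffAt ℝ 3 (fun z : (Fin n → ℝ) × Conf n => z.2 i) p := by
  exact ((ContinuousLinearMap.proj (R := ℝ) (φ := fun _ : Fin n => Pl) i).comp
    (ContinuousLinearMap.snd ℝ (Fin n → ℝ) (Conf n))).contDiff.contDiffAt

theorem b3_newton {n : ℕ} (p : (Fin n → ℝ) × Conf n) (hp : p ∈ dom n) :
    ContDiffAt ℝ 3 (fun z : (Fin n → ℝ) × Conf n => newton z.1 z.2) p := by
  unfold newton
  refine ContDiffAt.sum fun i _ => ContDiffAt.sum fun j hj => ?_
  have hij : i ≠ j := (Finset.mem_Ioi.1 hj).ne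
  have h1 : ContDiffAt ℝ 3 (fun z : (Fin n → ℝ) × Conf n => ‖z.2 i - z.2 j‖) p :=
    ((b3_x i p).sub (b3_x j p)).norm ℝ (sub_ne_zero.2 (hp.2 i j hij))
  exact ((b3_m i p).mul (b3_m j p)).div h1 (norm_ne_zero_iff.2 (sub_ne_zero.2 (hp.2 i j hij)))

theorem b3_kin {n : ℕ} (p : (Fin n → ℝ) × Conf n) :
    ContDiffAt ℝ 3 (fun z : (Fin n → ℝ) × Conf n => kin z.1 z.2) p := by
  unfold kin
  refine ContDiffAt.sum fun i _ => ContDiffAt.sum fun j hj => ?_
  exact ((b3_m i p).mul (b3_m j p)).mul (((b3_x i p).sub (b3_x j p)).norm_sq ℝ)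

theorem b3_pot {n : ℕ} (hn : 2 ≤ n) (p : (Fin n → ℝ) × Conf n) (hp : p ∈ dom n) :
    ContDiffAt ℝ 3 pot p := by
  unfold pot
  refine (b3_newton p hp).mul (ContDiffAt.sqrt ?_ (b3_inertia_pos hn p hp).ne')
  unfold inertia
  have hM : ContDiffAt ℝ 3 (fun z : (Fin n → ℝ) × Conf n => (∑ k, z.1 k)⁻¹) p := by
    refine ContDiffAt.inv (ContDiffAt.sum fun i _ => b3_m i p) ?_
    have : 0 < ∑ k, p.1 k := Finset.sum_pos (fun i _ => hp.1 i) ⟨⟨0, by omega⟩, Finset.mem_univ _⟩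
    exact this.ne'
  refine ContDiffAt.sum fun i _ => ?_
  refine (b3_m i p).mul (ContDiffAt.norm_sq ℝ ?_)
  exact (b3_x i p).sub (hM.smul (ContDiffAt.sum fun k _ => (b3_m k p).smul (b3_x k p)))

end Pool.Agent.Lib.H54E
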