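import Mathlib

set_option autoImplicit false

/-!
# H54E, chunk B6 (S/M, pure)
-/

namespace Pool.Agent.Lib.H54E

open Filter Topology

/-- **B6.** First and second derivative of `y ↦ f (c + L y)`.

PROOF. `f` is differentiable near `c + L x`, so near `x` the derivative of `y ↦ f (c + L y)` is
`(fderiv ℝ f (c + L y)).comp L` (chain rule); this is an equality of functions of `y` near `x`
(`Filter.EventuallyEq.fderiv_eq`), and its right side has derivative
`u ↦ (fderiv ℝ (fderiv ℝ f) (c + L x) (L u)).comp L` at `x` (`HasFDerivAt.clm_comp`, or composition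
with the continuous linear map `ContinuousLinearMap.compL`/`precomp`). `fderiv ℝ f` is
differentiable at `c + L x` by `ContDiffAt.fderiv_right`. -/
theorem b6 {E F : Type*} [NormedAddCommGroup E] [NormedSpace ℝ E] [NormedAddCommGroup F]
    [NormedSpace ℝ F] (f : F → ℝ) (c : F) (L : E →L[ℝ] F) (x : E)
    (hf : ContDiffAt ℝ 2 f (c + L x)) :
    (∀ u : E, fderiv ℝ (fun y => f (c + L y)) x u = fderiv ℝ f (c + L x) (L u)) ∧
    (∀ u w : E, fderiv ℝ (fderiv ℝ (fun y => f (c + L y))) x u w =
      fderiv ℝ (fderiv ℝ f) (c + L x) (L u) (L w)) := by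
  have hA : ∀ y : E, HasFDerivAt (fun y : E => c + L y) L y := fun y =>
    L.hasFDerivAt.const_add c
  have hcont : ContinuousAt (fun y : E => c + L y) x := (hA x).continuousAt
  have hnear : ∀ᶠ z in 𝓝 (c + L x), DifferentiableAt ℝ f z := by
    have h1 := hf.eventually (by simp)
    filter_upwards [h1] with z hz
    exact hz.differentiableAt (by simp)
  have hnear' : ∀ᶠ y in 𝓝 x, DifferentiableAt ℝ f (c + L y) := hcont.eventually hnear
  have hfd : ∀ y : E, DifferentiableAt ℝ f (c + L y) →
      fderiv ℝ (fun y => f (c + L y)) y = (fderiv ℝ f (c + L y)).comp L := by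
    intro y hy
    exact (hy.hasFDerivAt.comp y (hA y)).fderiv
  have heq : fderiv ℝ (fun y => f (c + L y)) =ᶠ[𝓝 x]
      fun y => (fderiv ℝ f (c + L y)).comp L := by
    filter_upwards [hnear'] with y hy
    exact hfd y hy
  have hdf : DifferentiableAt ℝ (fderiv ℝ f) (c + L x) :=
    (hf.fderiv_right (m := 1) (by norm_num)).differentiableAt (by simp)
  have h2 : HasFDerivAt (fun y => fderiv ℝ f (c + L y))
      ((fderiv ℝ (fderiv ℝ f) (c + L x)).comp L) x :=
    hdf.hasFDerivAt.comp x (hA x)
  refine ⟨fun u => ?_, fun u w => ?_⟩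
  · rw [hfd x hnear'.self_of_nhds]
    rfl
  · rw [heq.fderiv_eq]
    have h3 : HasFDerivAt (fun y => (fderiv ℝ f (c + L y)).comp L)
        (((ContinuousLinearMap.compL ℝ E F ℝ).flip L).comp
          ((fderiv ℝ (fderiv ℝ f) (c + L x)).comp L)) x :=
      ((ContinuousLinearMap.compL ℝ E F ℝ).flip L).hasFDerivAt.comp x h2
    rw [h3.fderiv]
    rfl

end Pool.Agent.Lib.H54E
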