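import Pool.Agent.Lib.H54E.B2
import Pool.Agent.Lib.H54E.B3
import Pool.Agent.Lib.H54E.B6

set_option autoImplicit false

/-!
# H54E, chunk B10 (M)
-/

namespace Pool.Agent.Lib.H54E

open Filter Topology

private theorem b10_map {n : ℕ} (a b : ℝ) (c : Pl) (z : (Fin n → ℝ) × Conf n) :
    ((0 : Fin n → ℝ), (fun _ => c : Conf n)) +
      (ContinuousLinearMap.prodMap (ContinuousLinearMap.id ℝ (Fin n → ℝ)) (simLin a b)) z =
    (z.1, simMap a b c z.2) := by
  refine Prod.ext ?_ ?_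
  · simp
  · funext i
    show c + simLin a b z.2 i = simMap a b c z.2 i
    rw [simLin_apply]
    simp only [simMap]
    abel

private theorem b10_dom {n : ℕ} (p : (Fin n → ℝ) × Conf n) (hp : p ∈ dom n) (a b : ℝ) (c : Pl)
    (hab : a ^ 2 + b ^ 2 ≠ 0) : (p.1, simMap a b c p.2) ∈ dom n := by
  refine ⟨hp.1, fun i j hij h => ?_⟩
  simp only [simMap] at h
  have hne : p.2 i - p.2 j ≠ 0 := sub_ne_zero.2 (hp.2 i j hij)
  have h1 : a • (p.2 i - p.2 j) + b • rot (p.2 i - p.2 j) = 0 := by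
    rw [map_sub, smul_sub, smul_sub]
    have h2 := add_right_cancel h
    have h3 : a • p.2 i - a • p.2 j + (b • rot (p.2 i) - b • rot (p.2 j)) =
        (a • p.2 i + b • rot (p.2 i)) - (a • p.2 j + b • rot (p.2 j)) := by abel
    rw [h3, h2, sub_self]
  obtain ⟨ha, hb⟩ := b1_indep a b _ hne h1
  exact hab (by rw [ha, hb]; norm_num)

private theorem b10_inv (a b : ℝ) (hab : a ^ 2 + b ^ 2 ≠ 0) (w : Pl) :
    a • ((a / (a ^ 2 + b ^ 2)) • w + (-b / (a ^ 2 + b ^ 2)) • rot w) +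
      b • rot ((a / (a ^ 2 + b ^ 2)) • w + (-b / (a ^ 2 + b ^ 2)) • rot w) = w := by
  rw [map_add, map_smul, map_smul, (b1_inner w).2.2.2]
  have e : a • ((a / (a ^ 2 + b ^ 2)) • w + (-b / (a ^ 2 + b ^ 2)) • rot w) +
      b • ((a / (a ^ 2 + b ^ 2)) • rot w + (-b / (a ^ 2 + b ^ 2)) • -w) =
      (a * (a / (a ^ 2 + b ^ 2)) + b * (b / (a ^ 2 + b ^ 2))) • w +
      (a * (-b / (a ^ 2 + b ^ 2)) + b * (a / (a ^ 2 + b ^ 2))) • rot w := by
    module
  rw [e]
  have e1 : a * (a / (a ^ 2 + b ^ 2)) + b * (b / (a ^ 2 + b ^ 2)) = 1 := by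
    field_simp
  have e2 : a * (-b / (a ^ 2 + b ^ 2)) + b * (a / (a ^ 2 + b ^ 2)) = 0 := by
    ring
  rw [e1, e2]
  simp

private theorem b10_inj (a b : ℝ) (hab : a ^ 2 + b ^ 2 ≠ 0) (z w : Pl)
    (h : a • z + b • rot z = a • w + b • rot w) : z = w := by
  by_contra hne
  have h0 : z - w ≠ 0 := sub_ne_zero.2 hne
  have h1 : a • (z - w) + b • rot (z - w) = 0 := by
    rw [map_sub, smul_sub, smul_sub]
    have h3 : a • z - a • w + (b • rot z - b • rot w) =
        (a • z + b • rot z) - (a • w + b • rot w) := by abel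
    rw [h3, h, sub_self]
  obtain ⟨ha, hb⟩ := b1_indep a b _ h0 h1
  exact hab (by rw [ha, hb]; norm_num)

/-- **B10a.** Transport of the first and second derivatives by a similarity.

PROOF. On the neighbourhood `dom n` of `p` (`b3_open`) we have `pot (z.1, simMap a b c z.2) = pot z`
(`b2`, `∑ m > 0`), and `(z.1, simMap a b c z.2) = C + L z` with `C = (0, fun _ => c)` and
`L z = (z.1, simLin a b z.2)` a continuous linear map (`ContinuousLinearMap.prodMap`). Apply `b6` to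
`f = pot` (`b3_pot` at the image point, which is in `dom n` by `b10b`), and use that functions which
agree near `p` have the same first and second derivatives (`Filter.EventuallyEq.fderiv_eq`,
`Filter.EventuallyEq.fderiv`). -/
theorem b10a {n : ℕ} (hn : 2 ≤ n) (p : (Fin n → ℝ) × Conf n) (hp : p ∈ dom n) (a b : ℝ) (c : Pl)
    (hab : a ^ 2 + b ^ 2 ≠ 0) :
    (∀ u : (Fin n → ℝ) × Conf n, fderiv ℝ pot p u =
      fderiv ℝ pot (p.1, simMap a b c p.2) (u.1, simLin a b u.2)) ∧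
    (∀ u w : (Fin n → ℝ) × Conf n, fderiv ℝ (fderiv ℝ pot) p u w =
      fderiv ℝ (fderiv ℝ pot) (p.1, simMap a b c p.2) (u.1, simLin a b u.2)
        (w.1, simLin a b w.2)) := by
  have hdom := b10_dom p hp a b c hab
  set L : ((Fin n → ℝ) × Conf n) →L[ℝ] ((Fin n → ℝ) × Conf n) :=
    ContinuousLinearMap.prodMap (ContinuousLinearMap.id ℝ (Fin n → ℝ)) (simLin a b) with hL
  have hmap : ∀ z : (Fin n → ℝ) × Conf n,
      ((0 : Fin n → ℝ), (fun _ => c : Conf n)) + L z = (z.1, simMap a b c z.2) :=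
    fun z => b10_map a b c z
  have hLap : ∀ u : (Fin n → ℝ) × Conf n, L u = (u.1, simLin a b u.2) := fun u => rfl
  have hev : (pot : (Fin n → ℝ) × Conf n → ℝ) =ᶠ[𝓝 p]
      fun y => pot (((0 : Fin n → ℝ), (fun _ => c : Conf n)) + L y) := by
    filter_upwards [(b3_open n).mem_nhds hp] with z hz
    rw [hmap z]
    refine (b2 z ?_ a b c hab).symm
    have hpos : 0 < ∑ i, z.1 i := by
      have : Nonempty (Fin n) := ⟨⟨0, by omega⟩⟩
      exact Finset.sum_pos (fun i _ => hz.1 i) Finset.univ_nonempty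
    exact hpos.ne'
  have hcd : ContDiffAt ℝ 2 pot (((0 : Fin n → ℝ), (fun _ => c : Conf n)) + L p) := by
    rw [hmap p]
    exact (b3_pot hn _ hdom).of_le (by norm_num)
  obtain ⟨h1, h2⟩ := b6 (pot : (Fin n → ℝ) × Conf n → ℝ)
    ((0 : Fin n → ℝ), (fun _ => c : Conf n)) L p hcd
  refine ⟨fun u => ?_, fun u w => ?_⟩
  · rw [hev.fderiv_eq, h1 u, hmap p, hLap]
  · rw [hev.fderiv.fderiv_eq, h2 u w, hmap p, hLap, hLap]

/-- **B10b.** PROOF. `simMap a b c x i - simMap a b c x j = a • (x i - x j) + b • rot (x i - x j)`,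
which is not `0` by `b1_norm`. -/
theorem b10b {n : ℕ} (p : (Fin n → ℝ) × Conf n) (hp : p ∈ dom n) (a b : ℝ) (c : Pl)
    (hab : a ^ 2 + b ^ 2 ≠ 0) : (p.1, simMap a b c p.2) ∈ dom n := by
  exact b10_dom p hp a b c hab

/-- **B10c.** PROOF. The operators `z ↦ a z + b rot z` form a field (complex numbers:
`rot (rot z) = -z`), the inverse is given by `a/(a²+b²)`, `-b/(a²+b²)`. So `simLin` is surjective. -/
theorem b10c {n : ℕ} (a b : ℝ) (hab : a ^ 2 + b ^ 2 ≠ 0) (w : Conf n) :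
    ∃ v : Conf n, simLin a b v = w := by
  refine ⟨fun i => (a / (a ^ 2 + b ^ 2)) • w i + (-b / (a ^ 2 + b ^ 2)) • rot (w i), ?_⟩
  funext i
  rw [simLin_apply]
  exact b10_inv a b hab (w i)

/-- **B10d.** PROOF. If `simLin a b v i = a' • y i + b' • rot (y i) + c'` with `y = simMap a b c x`,
apply the inverse operator (see `b10c`; it commutes with `rot`): `v i` is a combination of `x i`,
`rot (x i)` and a constant. Explicitly, with `A⁻¹` the inverse operator,
`v i = A⁻¹ (a' y_i + b' rot y_i + c') = a' x_i + b' rot x_i + (a' A⁻¹ c + b' rot A⁻¹ c + A⁻¹ c')`. -/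
theorem b10d {n : ℕ} (a b : ℝ) (c : Pl) (hab : a ^ 2 + b ^ 2 ≠ 0) (x v : Conf n)
    (h : IsSym (simMap a b c x) (simLin a b v)) : IsSym x v := by
  obtain ⟨a', b', c', h⟩ := h
  refine ⟨a', b', (a / (a ^ 2 + b ^ 2)) • (a' • c + b' • rot c + c') +
    (-b / (a ^ 2 + b ^ 2)) • rot (a' • c + b' • rot c + c'), fun i => ?_⟩
  apply b10_inj a b hab
  have h1 := h i
  rw [simLin_apply] at h1
  have h2 := b10_inv a b hab (a' • c + b' • rot c + c')
  set C := (a / (a ^ 2 + b ^ 2)) • (a' • c + b' • rot c + c') +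
    (-b / (a ^ 2 + b ^ 2)) • rot (a' • c + b' • rot c + c') with hC
  rw [h1]
  simp only [simMap, map_add, map_smul, (b1_inner (x i)).2.2.2]
  have e : a • (a' • x i + b' • rot (x i) + C) + b • (a' • rot (x i) + b' • -x i + rot C) =
      a' • (a • x i + b • rot (x i)) + b' • (a • rot (x i) + b • -x i) +
      (a • C + b • rot C) := by
    module
  rw [e, h2]
  module

end Pool.Agent.Lib.H54E
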