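import Pool.Agent.Lib.H54E.Defs

set_option autoImplicit false

/-!
# H54E, chunk B9 (S)
-/

namespace Pool.Agent.Lib.H54E

open Filter Topology

/-- **B9.** Among five linearly independent vectors one is not an infinitesimal symmetry.

PROOF. The linear map `(a, b, c) ↦ (i ↦ a • x i + b • rot (x i) + c)` from `ℝ × ℝ × Pl` (dimension
4) to `Conf n` has range of dimension at most `4` (`LinearMap.finrank_range_le`), and if all `v k`
were in its range, five linearly independent vectors would lie in a space of dimension at most `4`
(`LinearIndependent.fintype_card_le_finrank` in the range, after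
`LinearIndependent.of_comp` / `linearIndependent_from_subtype`; or
`finrank_span_eq_card` and `Submodule.finrank_mono`). -/
theorem b9 {n : ℕ} (x : Conf n) (v : Fin 5 → Conf n) (hv : LinearIndependent ℝ v) :
    ∃ k, ¬ IsSym x (v k) := by
  classical
  by_contra hcon
  push Not at hcon
  let L : (ℝ × ℝ × Pl) →ₗ[ℝ] Conf n :=
    { toFun := fun p => fun i => p.1 • x i + p.2.1 • rot (x i) + p.2.2
      map_add' := by
        intro p q
        funext i
        simp only [Prod.fst_add, Prod.snd_add, Pi.add_apply, add_smul]
        abel
      map_smul' := by
        intro r p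
        funext i
        simp only [Prod.smul_fst, Prod.smul_snd, Pi.smul_apply, RingHom.id_apply, smul_add,
          smul_smul, smul_eq_mul] }
  have hmem : ∀ k, v k ∈ LinearMap.range L := by
    intro k
    obtain ⟨a, b, c, h⟩ := hcon k
    exact ⟨(a, b, c), by funext i; exact (h i).symm⟩
  have hli : LinearIndependent ℝ (fun k => (⟨v k, hmem k⟩ : LinearMap.range L)) := by
    apply LinearIndependent.of_comp (LinearMap.range L).subtype
    exact hv
  have h1 := hli.fintype_card_le_finrank
  have h2 := LinearMap.finrank_range_le L
  have h3 : Module.finrank ℝ (ℝ × ℝ × Pl) = 4 := by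
    simp
  rw [h3] at h2
  simp at h1
  omega

end Pool.Agent.Lib.H54E
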