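import Pool.Agent.Lib.H54E.B3
import Pool.Agent.Lib.H54E.B6
import Pool.Agent.Lib.H54E.B9

set_option autoImplicit false

/-!
# H54E, chunk B11 (S/M)
-/

namespace Pool.Agent.Lib.H54E

open Filter Topology

theorem b11_eq {n : ℕ} (m : Fin n → ℝ) :
    (fun y : Conf n => pot (m, y)) = fun y : Conf n =>
      pot ((m, (0 : Conf n)) + ContinuousLinearMap.inr ℝ (Fin n → ℝ) (Conf n) y) := by
  funext y
  simp

theorem b11_derivs {n : ℕ} (hn : 2 ≤ n) (m : Fin n → ℝ) (x : Conf n) (hx : (m, x) ∈ dom n) :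
    (∀ u : Conf n, fderiv ℝ (fun y : Conf n => pot (m, y)) x u = fderiv ℝ pot (m, x) (0, u)) ∧
    (∀ u w : Conf n, fderiv ℝ (fderiv ℝ (fun y : Conf n => pot (m, y))) x u w =
      fderiv ℝ (fderiv ℝ pot) (m, x) (0, u) (0, w)) := by
  have hp : ContDiffAt ℝ 2 pot ((m, (0 : Conf n)) +
      ContinuousLinearMap.inr ℝ (Fin n → ℝ) (Conf n) x) := by
    have h1 : (m, (0 : Conf n)) + ContinuousLinearMap.inr ℝ (Fin n → ℝ) (Conf n) x = (m, x) := by
      simp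
    rw [h1]
    exact (b3_pot hn (m, x) hx).of_le (by norm_num)
  have h := b6 pot (m, (0 : Conf n)) (ContinuousLinearMap.inr ℝ (Fin n → ℝ) (Conf n)) x hp
  rw [b11_eq m]
  have h1 : (m, (0 : Conf n)) + ContinuousLinearMap.inr ℝ (Fin n → ℝ) (Conf n) x = (m, x) := by
    simp
  rw [h1] at h
  refine ⟨fun u => ?_, fun u w => ?_⟩
  · rw [h.1 u]
    rfl
  · rw [h.2 u w]
    rfl

/-- **B11.** From the frozen definition to the Hessian of `pot`.

PROOF. Unfold `Critical`: `F = fun y => pot (m, y)` by `funext` (`pot`, `newton`, `inertia`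
unfold to the formula). `fun y => pot (m, y) = fun y => pot ((m, 0) + L y)` with
`L = ContinuousLinearMap.inr ℝ (Fin n → ℝ) (Conf n)`, `L y = (0, y)`. By `b6` (with `b3_pot`, whose
`ContDiffAt ℝ 3` gives `ContDiffAt ℝ 2` by `.of_le`) the first derivative at `x` in the direction
`w` is `fderiv ℝ pot (m, x) (0, w)` and the second derivative is
`fderiv ℝ (fderiv ℝ pot) (m, x) (0, u) (0, w)`. `v` is one of the five vectors, by `b9`. -/
theorem b11 {n : ℕ} (hn : 2 ≤ n) (m : Fin n → ℝ) (hm : m ∈ Critical n) :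
    ∃ x : Conf n, (m, x) ∈ dom n ∧ (∀ w : Conf n, fderiv ℝ pot (m, x) (0, w) = 0) ∧
      ∃ v : Conf n, ¬ IsSym x v ∧
        ∀ w : Conf n, fderiv ℝ (fderiv ℝ pot) (m, x) (0, v) (0, w) = 0 := by
  obtain ⟨hm0, F, hF, x, hx, hc, v, hv, hk⟩ := hm
  have hFe : F = fun y : Conf n => pot (m, y) := by
    funext y
    exact hF y
  subst hFe
  have hd : (m, x) ∈ dom n := ⟨hm0, hx⟩
  obtain ⟨h1, h2⟩ := b11_derivs hn m x hd
  obtain ⟨k, hk'⟩ := b9 x v hv
  refine ⟨x, hd, fun w => ?_, v k, hk', fun w => ?_⟩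
  · rw [← h1 w, hc]
    rfl
  · rw [← h2 (v k) w, hk k]
    rfl

/-- **B11b.** The same for `StronglyCritical` (equivalence of the two forms).

PROOF. As `b11`: `fderiv ℝ (fun y => pot (m, y)) x = 0` if and only if
`fderiv ℝ pot (m, x) (0, w) = 0` for all `w`. -/
theorem b11b {n : ℕ} (hn : 2 ≤ n) (m : Fin n → ℝ) :
    m ∈ StronglyCritical n ↔ ∃ x : Conf n, (m, x) ∈ dom n ∧
      (∀ w : Conf n, fderiv ℝ pot (m, x) (0, w) = 0) ∧
      ∃ v : Conf n, ¬ IsSym x v ∧ fderiv ℝ (fderiv ℝ pot) (m, x) (0, v) = 0 := by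
  constructor
  · rintro ⟨hm0, x, hx, hc, v, hv, hk⟩
    have hd : (m, x) ∈ dom n := ⟨hm0, hx⟩
    obtain ⟨h1, _⟩ := b11_derivs hn m x hd
    refine ⟨x, hd, fun w => ?_, v, hv, hk⟩
    rw [← h1 w, hc]
    rfl
  · rintro ⟨x, hd, hc, v, hv, hk⟩
    obtain ⟨h1, _⟩ := b11_derivs hn m x hd
    refine ⟨hd.1, x, hd.2, ?_, v, hv, hk⟩
    ext1 w
    rw [h1 w, hc w]
    rfl

end Pool.Agent.Lib.H54E
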