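import Pool.Agent.Lib.H54E.B7
import Pool.Agent.Lib.H54E.B10
import Pool.Agent.Lib.H54E.B11

set_option autoImplicit false

/-!
# H54E, chunk B12 (M)
-/

namespace Pool.Agent.Lib.H54E

open Filter Topology

/-- **B12.** Gauge fixing.

PROOF. Take `x`, `v` from `b11` and `a, b, c` from `b7` for `z₀ = x 0 ≠ z₁ = x 1`. Let
`x' = simMap a b c x`, `v' = simLin a b v`. Then `x' 0 = 0`, `x' 1 = e1`, `(m, x') ∈ dom` (`b10b`).
For every `w'` there is `w` with `simLin a b w = w'` (`b10c`), so `b10a` gives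
`fderiv ℝ pot (m, x') (0, w') = fderiv ℝ pot (m, x) (0, w) = 0` (note `simLin a b` is linear, and
the first components are `0`), and the same for the second derivative. `¬ IsSym x' v'` by
`b10d`. -/
theorem b12 {N : ℕ} (m : Fin (N + 2) → ℝ) (hm : m ∈ Critical (N + 2)) :
    ∃ x : Conf (N + 2), x 0 = 0 ∧ x 1 = e1 ∧ (m, x) ∈ dom (N + 2) ∧
      (∀ w : Conf (N + 2), fderiv ℝ pot (m, x) (0, w) = 0) ∧
      ∃ v : Conf (N + 2), ¬ IsSym x v ∧
        ∀ w : Conf (N + 2), fderiv ℝ (fderiv ℝ pot) (m, x) (0, v) (0, w) = 0 := by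
  obtain ⟨x, hx, h1, v, hv, h2⟩ := b11 (by omega) m hm
  have h01 : x 0 ≠ x 1 := hx.2 0 1 (by
    intro h
    have := congrArg Fin.val h
    simp at this)
  obtain ⟨a, b, c, hab, hz0, hz1⟩ := b7 (x 0) (x 1) h01
  have hT := b10a (by omega) (m, x) hx a b c hab
  refine ⟨simMap a b c x, hz0, hz1, b10b (m, x) hx a b c hab, ?_, simLin a b v, ?_, ?_⟩
  · intro w'
    obtain ⟨w, hw⟩ := b10c a b hab w'
    have := hT.1 (0, w)
    rw [h1 w] at this
    rw [← hw]
    exact this.symm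
  · intro hs
    exact hv (b10d a b c hab x v hs)
  · intro w'
    obtain ⟨w, hw⟩ := b10c a b hab w'
    have := hT.2 (0, v) (0, w)
    rw [h2 w] at this
    rw [← hw]
    exact this.symm

end Pool.Agent.Lib.H54E
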