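import Pool.Agent.Lib.H54E.Defs

set_option autoImplicit false

/-!
# H54E: more definitions (similarities, the slice, the explicit system)
-/

namespace Pool.Agent.Lib.H54E

/-- The linear part of a similarity: `z ↦ a z + b rot z` applied to every point. -/
noncomputable def simLin {n : ℕ} (a b : ℝ) : Conf n →L[ℝ] Conf n :=
  ContinuousLinearMap.pi (fun i => a • (ContinuousLinearMap.proj i : Conf n →L[ℝ] Pl) +
    b • (rot.comp (ContinuousLinearMap.proj i : Conf n →L[ℝ] Pl)))

theorem simLin_apply {n : ℕ} (a b : ℝ) (v : Conf n) (i : Fin n) :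
    simLin a b v i = a • v i + b • rot (v i) := by
  simp [simLin]

/-- A similarity applied to every point: `z ↦ a z + b rot z + c`. -/
noncomputable def simMap {n : ℕ} (a b : ℝ) (c : Pl) (x : Conf n) : Conf n :=
  fun i => a • x i + b • rot (x i) + c

/-- The first unit vector. -/
noncomputable def e1 : Pl := !₂[1, 0]

/-- The inclusion of `Conf N` into `Conf (N + 2)` as the last `N` coordinates. -/
noncomputable def iota (N : ℕ) : Conf N →L[ℝ] Conf (N + 2) :=
  ContinuousLinearMap.pi (fun i : Fin (N + 2) =>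
    (Fin.cases (0 : Conf N →L[ℝ] Pl)
      (fun j : Fin (N + 1) => Fin.cases (0 : Conf N →L[ℝ] Pl)
        (fun k : Fin N => ContinuousLinearMap.proj k) j) i))

theorem iota_zero {N : ℕ} (y : Conf N) : iota N y 0 = 0 := rfl

theorem iota_one {N : ℕ} (y : Conf N) : iota N y 1 = 0 := rfl

theorem iota_succ {N : ℕ} (y : Conf N) (k : Fin N) : iota N y k.succ.succ = y k := rfl

/-- The base point of the slice `x_0 = 0`, `x_1 = e1`. -/
noncomputable def base (N : ℕ) : Conf (N + 2) := fun i => if i = 1 then e1 else 0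

/-- The potential on the slice, as a function of the masses and the other points. -/
noncomputable def potS (N : ℕ) (q : (Fin (N + 2) → ℝ) × Conf N) : ℝ :=
  pot (q.1, base N + iota N q.2)

/-- `K = ∑_{i<j} m_i m_j |y_i - y_j|^2` (this is `M` times the moment of inertia). -/
noncomputable def kin {n : ℕ} (m : Fin n → ℝ) (y : Conf n) : ℝ :=
  ∑ i : Fin n, ∑ j ∈ Finset.Ioi i, m i * m j * ‖y i - y j‖ ^ 2

/-- The explicit equations satisfied by a (normalised) strongly degenerate pair. -/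
structure SDSys {n : ℕ} (m : Fin n → ℝ) (x v : Conf n) (lam : ℝ) : Prop where
  pos : ∀ i, 0 < m i
  ne : ∀ i j, i ≠ j → x i ≠ x j
  lam_pos : 0 < lam
  cc : ∀ i, ∑ j, (m j * ((‖x i - x j‖ ^ 3)⁻¹ - lam)) • (x i - x j) = 0
  lin : ∀ i, ∑ j, ((m j * ((‖x i - x j‖ ^ 3)⁻¹ - lam)) • (v i - v j)
    - (3 * m j * inner ℝ (x i - x j) (v i - v j) * (‖x i - x j‖ ^ 5)⁻¹) • (x i - x j)) = 0
  mix : ∀ i, ∑ j, m j * ((‖x i - x j‖ ^ 3)⁻¹ - lam) * inner ℝ (x i - x j) (v i - v j) = 0

/-- All points on one line. -/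
def OnLine {n : ℕ} (x : Conf n) : Prop := ∃ (z e : Pl) (ξ : Fin n → ℝ), ∀ i, x i = z + ξ i • e

/-- `Δ` spans the space of affine dependencies of `x`. -/
structure IsDep {n : ℕ} (x : Conf n) (Δ : Fin n → ℝ) : Prop where
  ne : Δ ≠ 0
  sum : ∑ i, Δ i = 0
  sumx : ∑ i, Δ i • x i = 0
  uniq : ∀ b : Fin n → ℝ, ∑ i, b i = 0 → ∑ i, b i • x i = 0 → ∃ t : ℝ, ∀ i, b i = t * Δ i

end Pool.Agent.Lib.H54E
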