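import Pool.Agent.Lib.H54E.B1
import Pool.Agent.Lib.H54E.Defs2

set_option autoImplicit false

/-!
# H54E, chunk B8 (S/M)
-/

namespace Pool.Agent.Lib.H54E

open Filter Topology

/-- **B8a.** Decomposition along the slice `x_0 = 0`, `x_1 = e1`.

PROOF. `c = v 0`, `d = v 1 - v 0`, `a = d 0`, `b = d 1`: `a • e1 + b • rot e1 = d`
(coordinates). `s i = a • x i + b • rot (x i) + c` has `s 0 = v 0`, `s 1 = v 1`, so `v - s` vanishes
at `0` and `1` and is `iota N u` with `u k = (v - s) k.succ.succ` (check at `0`, `1`,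
`k.succ.succ` with `iota_zero`, `iota_one`, `iota_succ` and `Fin.cases`). -/
theorem b8a {N : ℕ} (x v : Conf (N + 2)) (h0 : x 0 = 0) (h1 : x 1 = e1) :
    ∃ (u : Conf N) (s : Conf (N + 2)), IsSym x s ∧ v = iota N u + s := by
  have hs : (v 1 - v 0) 0 • e1 + (v 1 - v 0) 1 • rot e1 = v 1 - v 0 := by
    ext i
    fin_cases i
    · simp [rot_zero, e1]
    · simp [rot_one, e1]
  refine ⟨fun k => v k.succ.succ - ((v 1 - v 0) 0 • x k.succ.succ +
      (v 1 - v 0) 1 • rot (x k.succ.succ) + v 0),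
    fun i => (v 1 - v 0) 0 • x i + (v 1 - v 0) 1 • rot (x i) + v 0,
    ⟨(v 1 - v 0) 0, (v 1 - v 0) 1, v 0, fun i => rfl⟩, ?_⟩
  funext i
  refine Fin.cases ?_ (fun j => ?_) i
  · show v 0 = iota N _ 0 + ((v 1 - v 0) 0 • x 0 + (v 1 - v 0) 1 • rot (x 0) + v 0)
    rw [iota_zero, h0]
    simp
  · refine Fin.cases ?_ (fun k => ?_) j
    · show v 1 = iota N _ 1 + ((v 1 - v 0) 0 • x 1 + (v 1 - v 0) 1 • rot (x 1) + v 0)
      rw [iota_one, h1, hs]
      abel
    · show v k.succ.succ = iota N _ k.succ.succ + ((v 1 - v 0) 0 • x k.succ.succ +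
        (v 1 - v 0) 1 • rot (x k.succ.succ) + v 0)
      rw [iota_succ]
      exact (sub_add_cancel _ _).symm

/-- **B8b.** PROOF. `(iota N u) 0 = 0` gives `c = 0` (as `x 0 = 0`, `rot 0 = 0`), `(iota N u) 1 = 0`
gives `a • e1 + b • rot e1 = 0`, so `a = b = 0` by `b1_indep` (`e1 ≠ 0`), so `iota N u = 0` and
`u = 0` by `iota_succ`. -/
theorem b8b {N : ℕ} (x : Conf (N + 2)) (h0 : x 0 = 0) (h1 : x 1 = e1) (u : Conf N)
    (hu : IsSym x (iota N u)) : u = 0 := by
  obtain ⟨a, b, c, h⟩ := hu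
  have hc : c = 0 := by
    have := h 0
    rw [iota_zero, h0] at this
    simpa using this.symm
  have he : (e1 : Pl) ≠ 0 := by
    intro h
    have := congrArg (fun z : Pl => z 0) h
    simp [e1] at this
  have hab : a • e1 + b • rot e1 = 0 := by
    have := h 1
    rw [iota_one, h1, hc] at this
    simpa using this.symm
  obtain ⟨ha, hb⟩ := b1_indep a b e1 he hab
  funext k
  have := h k.succ.succ
  rw [iota_succ, ha, hb, hc] at this
  simpa using this

/-- **B8c.** PROOF. `y k = x k.succ.succ`; `base N` is `0` at `0`, `e1` at `1` and `0` at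
`k.succ.succ`. -/
theorem b8c {N : ℕ} (x : Conf (N + 2)) (h0 : x 0 = 0) (h1 : x 1 = e1) :
    ∃ y : Conf N, x = base N + iota N y := by
  refine ⟨fun k => x k.succ.succ, ?_⟩
  funext i
  refine Fin.cases ?_ (fun j => ?_) i
  · show x 0 = base N 0 + iota N _ 0
    rw [iota_zero, h0]
    simp [base]
  · refine Fin.cases ?_ (fun k => ?_) j
    · show x 1 = base N 1 + iota N _ 1
      rw [iota_one, h1]
      simp [base]
    · show x k.succ.succ = base N k.succ.succ + iota N _ k.succ.succ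
      rw [iota_succ]
      have hk : (k.succ.succ : Fin (N + 2)) ≠ 1 := by
        intro hh
        have := congrArg Fin.val hh
        simp at this
      simp [base, hk]

end Pool.Agent.Lib.H54E
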