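import Pool.Agent.Lib.H54E.B5
import Pool.Agent.Lib.H54E.B6
import Pool.Agent.Lib.H54E.B8
import Pool.Agent.Lib.H54E.B12

set_option autoImplicit false

/-!
# H54E, chunk B13 (M)
-/

namespace Pool.Agent.Lib.H54E

open Filter Topology

theorem b13_derivs {N : ℕ} (m : Fin (N + 2) → ℝ) (y : Conf N)
    (hx : (m, base N + iota N y) ∈ dom (N + 2)) :
    (∀ u : (Fin (N + 2) → ℝ) × Conf N, fderiv ℝ (potS N) (m, y) u =
      fderiv ℝ pot (m, base N + iota N y) (u.1, iota N u.2)) ∧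
    (∀ u w : (Fin (N + 2) → ℝ) × Conf N, fderiv ℝ (fderiv ℝ (potS N)) (m, y) u w =
      fderiv ℝ (fderiv ℝ pot) (m, base N + iota N y) (u.1, iota N u.2) (w.1, iota N w.2)) := by
  have hfun : potS N = fun q : (Fin (N + 2) → ℝ) × Conf N =>
      pot (((0 : Fin (N + 2) → ℝ), base N) +
        ((ContinuousLinearMap.id ℝ (Fin (N + 2) → ℝ)).prodMap (iota N)) q) := by
    funext q
    obtain ⟨a, b⟩ := q
    simp [potS]
  have h1 : ((0 : Fin (N + 2) → ℝ), base N) +
        ((ContinuousLinearMap.id ℝ (Fin (N + 2) → ℝ)).prodMap (iota N)) (m, y) =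
        (m, base N + iota N y) := by
    simp
  have hp : ContDiffAt ℝ 2 pot (((0 : Fin (N + 2) → ℝ), base N) +
        ((ContinuousLinearMap.id ℝ (Fin (N + 2) → ℝ)).prodMap (iota N)) (m, y)) := by
    rw [h1]
    exact (b3_pot (by omega) _ hx).of_le (by norm_num)
  have h := b6 pot ((0 : Fin (N + 2) → ℝ), base N)
    ((ContinuousLinearMap.id ℝ (Fin (N + 2) → ℝ)).prodMap (iota N)) (m, y) hp
  rw [h1] at h
  rw [hfun]
  refine ⟨fun u => ?_, fun u w => ?_⟩
  · rw [h.1 u]
    rfl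
  · rw [h.2 u w]
    rfl

/-- **B13.** On the slice.

PROOF. Take `x`, `v` from `b12`, `y` from `b8c`, so `x = base N + iota N y`. `potS N q` is
`pot (C + L q)` with `C = (0, base N)` and `L = ContinuousLinearMap.prodMap (id) (iota N)`, so by
`b6` (with `b3_pot`) `fderiv ℝ (potS N) (m, y) u = fderiv ℝ pot (m, x) (u.1, iota N u.2)` and
`fderiv ℝ (fderiv ℝ (potS N)) (m, y) u w = fderiv ℝ (fderiv ℝ pot) (m, x) (u.1, iota N u.2)
(w.1, iota N w.2)`.
(i) The first derivative in the directions `(0, w)` is `0`.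
(ii) `v = iota N u + s` with `s` a symmetry (`b8a`); `u ≠ 0` since otherwise `v = s` would be a
symmetry (`iota N 0 = 0`); `D²pot(m,x)(0, s) = 0` by `b5`, so
`D²pot(m,x)(0, iota N u)(0, w) = D²pot(m,x)(0, v)(0, w) - 0 = 0` for all `w`.
(iii) Let `v' ≠ 0` with `D²(potS)(m,y)(0, v') = 0`. We show that `m ∈ StronglyCritical`
(contradiction), by `b11b`, with `x` and `iota N v'`, which is not a symmetry by `b8b`. For all
`(α, w)`: write `w = iota N w₁ + s₁` (`b8a`); `D²pot(m,x)(0, iota N v')(α, iota N w₁) = 0` by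
assumption, and `D²pot(m,x)(0, iota N v')(0, s₁) = D²pot(m,x)(0, s₁)(0, iota N v') = 0` by symmetry
of the second derivative and `b5`. Sum: `D²pot(m,x)(0, iota N v')(α, w) = 0`. -/
theorem b13 {N : ℕ} (m : Fin (N + 2) → ℝ) (hm : m ∈ Critical (N + 2))
    (hs : m ∉ StronglyCritical (N + 2)) :
    ∃ y : Conf N, (m, base N + iota N y) ∈ dom (N + 2) ∧
      (∀ w : Conf N, fderiv ℝ (potS N) (m, y) (0, w) = 0) ∧
      (∃ v : Conf N, v ≠ 0 ∧
        ∀ w : Conf N, fderiv ℝ (fderiv ℝ (potS N)) (m, y) (0, v) (0, w) = 0) ∧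
      (∀ v : Conf N, v ≠ 0 → fderiv ℝ (fderiv ℝ (potS N)) (m, y) (0, v) ≠ 0) := by
  obtain ⟨x, h0, h1, hd, hc, v, hv, hk⟩ := b12 m hm
  obtain ⟨y, rfl⟩ := b8c x h0 h1
  obtain ⟨hD1, hD2⟩ := b13_derivs m y hd
  have hsym : IsSymmSndFDerivAt ℝ pot (m, base N + iota N y) :=
    (b3_pot (by omega) _ hd).isSymmSndFDerivAt (by simp; norm_num)
  have hb5 : ∀ s : Conf (N + 2), IsSym (base N + iota N y) s →
      fderiv ℝ (fderiv ℝ pot) (m, base N + iota N y) (0, s) = 0 := fun s hs =>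
    b5 (by omega) (m, base N + iota N y) hd hc s hs
  refine ⟨y, hd, fun w => ?_, ?_, fun v' hv' hzero => ?_⟩
  · rw [hD1]
    exact hc _
  · obtain ⟨u, s, hs, hus⟩ := b8a (base N + iota N y) v h0 h1
    refine ⟨u, ?_, fun w => ?_⟩
    · rintro rfl
      apply hv
      rw [hus, map_zero, zero_add]
      exact hs
    · rw [hD2]
      have h2 := hk (iota N w)
      have h3 : ((0 : Fin (N + 2) → ℝ), v) = (0, iota N u) + (0, s) := by
        rw [hus]
        simp
      rw [h3, map_add, hb5 s hs, add_zero] at h2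
      exact h2
  · apply hs
    rw [b11b (by omega)]
    refine ⟨base N + iota N y, hd, hc, iota N v', ?_, ?_⟩
    · intro h2
      exact hv' (b8b _ h0 h1 v' h2)
    · refine ContinuousLinearMap.ext (fun aw => ?_)
      obtain ⟨a, w⟩ := aw
      obtain ⟨w₁, s₁, hs₁, hw⟩ := b8a (base N + iota N y) w h0 h1
      have h3 : (a, w) = (a, iota N w₁) + ((0 : Fin (N + 2) → ℝ), s₁) := by
        rw [hw]
        simp
      have h4 : fderiv ℝ (fderiv ℝ pot) (m, base N + iota N y) (0, iota N v')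
          (a, iota N w₁) = 0 := by
        have h5 := hD2 (0, v') (a, w₁)
        rw [hzero] at h5
        exact h5.symm
      have h5 : fderiv ℝ (fderiv ℝ pot) (m, base N + iota N y) (0, iota N v')
          ((0 : Fin (N + 2) → ℝ), s₁) = 0 := by
        rw [hsym.eq, hb5 s₁ hs₁]
        rfl
      rw [h3, map_add, h4, h5]
      simp

end Pool.Agent.Lib.H54E
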