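import Pool.Agent.Lib.H54E.A5
import Pool.Agent.Lib.H54E.B13

set_option autoImplicit false

/-!
# H54E, chunk B14 (S/M)
-/

namespace Pool.Agent.Lib.H54E

open Filter Topology

/-- **B14.** For every `n ≥ 2` the critical masses without strongly degenerate pair are null.

PROOF. `n = N + 2` (`obtain ⟨N, rfl⟩`). Apply `a5` with `f = potS N`,
`O = {q | (q.1, base N + iota N q.2) ∈ dom (N + 2)}`; `potS N` is `C³` at the points of `O`
(composition of `pot`, `b3_pot`, with an affine map). By `b13` every element of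
`Critical \ StronglyCritical` is the first coordinate of a point of the set of `a5`
(`MeasureTheory.measure_mono_null`). -/
theorem b14 (n : ℕ) (hn : 2 ≤ n) :
    MeasureTheory.volume (Critical n \ StronglyCritical n) = 0 := by
  obtain ⟨N, rfl⟩ : ∃ N, n = N + 2 := ⟨n - 2, by omega⟩
  refine MeasureTheory.measure_mono_null ?_
    (a5 (potS N) {q | (q.1, base N + iota N q.2) ∈ dom (N + 2)} ?_)
  · intro m hm
    obtain ⟨y, h1, h2, h3, h4⟩ := b13 m hm.1 hm.2
    exact ⟨(m, y), ⟨h1, h2, h3, h4⟩, rfl⟩
  · intro p hp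
    have h := b3_pot (n := N + 2) (by omega) _ hp
    have h2 : ContDiffAt ℝ 3
        (fun q : (Fin (N + 2) → ℝ) × Conf N => (q.1, base N + iota N q.2)) p := by
      fun_prop
    exact ContDiffAt.comp (g := pot)
      (f := fun q : (Fin (N + 2) → ℝ) × Conf N => (q.1, base N + iota N q.2)) p h h2

end Pool.Agent.Lib.H54E
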