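import Pool.Agent.Lib.H54E.B1
import Pool.Agent.Lib.H54E.Defs2

set_option autoImplicit false

/-!
# H54E, chunk B2 (S/M)
-/

namespace Pool.Agent.Lib.H54E

open Filter Topology

/-- **B2.** The potential is invariant under similarities.

PROOF. With `ρ = √(a² + b²) > 0`: `|y'_i - y'_j| = ρ |y_i - y_j|` (`b1_norm`, linearity of `rot`), so
`newton` is divided by `ρ` (also when `y_i = y_j`). The centre of mass of `y'` is the image of the
centre of mass of `y` (this uses `∑ m ≠ 0` for the translation), so `inertia` is multiplied by `ρ²`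
and its square root by `ρ` (`Real.sqrt_mul_self`, `Real.sqrt_mul`, note `ρ ^ 2 * s` with `ρ ≥ 0`). -/
theorem b2 {n : ℕ} (p : (Fin n → ℝ) × Conf n) (hp : ∑ i, p.1 i ≠ 0) (a b : ℝ) (c : Pl)
    (hab : a ^ 2 + b ^ 2 ≠ 0) : pot (p.1, simMap a b c p.2) = pot p := by
  obtain ⟨m, x⟩ := p
  simp only at hp
  set ρ := Real.sqrt (a ^ 2 + b ^ 2) with hρ
  have hρ0 : 0 < ρ := Real.sqrt_pos.2 (lt_of_le_of_ne (by positivity) (Ne.symm hab))
  have hd : ∀ i j, ‖simMap a b c x i - simMap a b c x j‖ = ρ * ‖x i - x j‖ := by
    intro i j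
    rw [← b1_norm]
    congr 1
    simp only [simMap, map_sub, smul_sub]
    abel
  have hN : newton m (simMap a b c x) = ρ⁻¹ * newton m x := by
    unfold newton
    rw [Finset.mul_sum]
    refine Finset.sum_congr rfl fun i _ => ?_
    rw [Finset.mul_sum]
    refine Finset.sum_congr rfl fun j _ => ?_
    rw [hd]
    rw [div_eq_mul_inv, mul_inv, div_eq_mul_inv]
    ring
  have hI : inertia m (simMap a b c x) = ρ ^ 2 * inertia m x := by
    unfold inertia
    rw [Finset.mul_sum]
    refine Finset.sum_congr rfl fun i _ => ?_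
    have e : simMap a b c x i - (∑ k, m k)⁻¹ • ∑ k, m k • simMap a b c x k =
        a • (x i - (∑ k, m k)⁻¹ • ∑ k, m k • x k) +
          b • rot (x i - (∑ k, m k)⁻¹ • ∑ k, m k • x k) := by
      have e1 : ∑ k, m k • simMap a b c x k = a • ∑ k, m k • x k + b • rot (∑ k, m k • x k) +
          (∑ k, m k) • c := by
        simp only [simMap, smul_add, Finset.sum_add_distrib, map_sum, Finset.smul_sum,
          Finset.sum_smul, map_smul]
        congr 2
        · refine Finset.sum_congr rfl fun k _ => ?_
          rw [smul_comm]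
        · refine Finset.sum_congr rfl fun k _ => ?_
          rw [smul_comm]
      rw [e1]
      simp only [simMap, smul_add, map_sub, map_smul, smul_sub]
      rw [inv_smul_smul₀ hp, smul_comm _ a, smul_comm _ b]
      abel
    rw [e, b1_norm, mul_pow]
    ring
  show newton m (simMap a b c x) * Real.sqrt (inertia m (simMap a b c x)) =
    newton m x * Real.sqrt (inertia m x)
  rw [hN, hI, Real.sqrt_mul (by positivity), Real.sqrt_sq hρ0.le]
  field_simp

end Pool.Agent.Lib.H54E
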