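import Pool.Agent.Lib.H54E.B2
import Pool.Agent.Lib.H54E.B3

set_option autoImplicit false

/-!
# H54E, chunk B4 (S/M)
-/

namespace Pool.Agent.Lib.H54E

open Filter Topology

/-- **B4.** The derivative of the potential vanishes in the symmetry directions (at every point of
the domain).

PROOF. Let `v i = a • x i + b • rot (x i) + c` (`x = p.2`). The curve
`γ t = (p.1, x + t • v)` is `(p.1, simMap (1 + t a) (t b) (t c) x)`, so by `b2` the function
`t ↦ pot (γ t)` is equal to `pot p` for `t` near `0` (`(1 + t a)² + (t b)² ≠ 0` near `0`,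
`∑ m > 0`). Its derivative at `0` is `fderiv ℝ pot p (0, v)` (chain rule,
`HasFDerivAt.comp_hasDerivAt`, `b3_pot`), hence this is `0`. -/
theorem b4 {n : ℕ} (hn : 2 ≤ n) (p : (Fin n → ℝ) × Conf n) (hp : p ∈ dom n) (v : Conf n)
    (hv : IsSym p.2 v) : fderiv ℝ pot p (0, v) = 0 := by
  obtain ⟨a, b, c, hv⟩ := hv
  have hdiff : HasFDerivAt pot (fderiv ℝ pot p) p :=
    ((b3_pot hn p hp).differentiableAt (by norm_num)).hasFDerivAt
  have hM : ∑ i, p.1 i ≠ 0 :=
    (Finset.sum_pos (fun i _ => hp.1 i) ⟨⟨0, by omega⟩, Finset.mem_univ _⟩).ne'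
  have hγ : HasDerivAt (fun t : ℝ => p + t • ((0, v) : (Fin n → ℝ) × Conf n)) (0, v) 0 := by
    have h := ((hasDerivAt_id (0 : ℝ)).smul_const ((0, v) : (Fin n → ℝ) × Conf n)).const_add p
    simpa using h
  have hγ0 : HasFDerivAt pot (fderiv ℝ pot p)
      ((fun t : ℝ => p + t • ((0, v) : (Fin n → ℝ) × Conf n)) 0) := by
    simpa using hdiff
  have h1 := hγ0.comp_hasDerivAt 0 hγ
  have h2 : (pot ∘ fun t : ℝ => p + t • ((0, v) : (Fin n → ℝ) × Conf n)) =ᶠ[𝓝 0]
      fun _ => pot p := by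
    have hc : ContinuousAt (fun t : ℝ => (1 + t * a) ^ 2 + (t * b) ^ 2) 0 := by fun_prop
    have h3 : ∀ᶠ t in 𝓝 (0 : ℝ), (1 + t * a) ^ 2 + (t * b) ^ 2 ≠ 0 := by
      refine hc.eventually_ne ?_
      norm_num
    filter_upwards [h3] with t ht
    have e : p + t • ((0, v) : (Fin n → ℝ) × Conf n) =
        (p.1, simMap (1 + t * a) (t * b) (t • c) p.2) := by
      refine Prod.ext ?_ ?_
      · simp
      · funext i
        show p.2 i + t • v i = (1 + t * a) • p.2 i + (t * b) • rot (p.2 i) + t • c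
        rw [hv i]
        simp only [smul_add, add_smul, one_smul, mul_smul]
        abel
    show pot (p + t • ((0, v) : (Fin n → ℝ) × Conf n)) = pot p
    rw [e, b2 p hM _ _ _ ht]
  have h3 : HasDerivAt (pot ∘ fun t : ℝ => p + t • ((0, v) : (Fin n → ℝ) × Conf n)) 0 0 :=
    (hasDerivAt_const (0 : ℝ) (pot p)).congr_of_eventuallyEq h2
  exact h1.unique h3

end Pool.Agent.Lib.H54E
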