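import Pool.Agent.Lib.H54E.B4

set_option autoImplicit false

/-!
# H54E, chunk B5 (M)
-/

namespace Pool.Agent.Lib.H54E

open Filter Topology

/-- **B5.** At a critical point the symmetry directions are in the kernel of the FULL Hessian.

PROOF. Let `v i = a • x i + b • rot (x i) + c` with `x = p.2`, and
`S z = (0, fun i => a • z.2 i + b • rot (z.2 i) + c)`, an affine map of the product space, with
linear part `S₁ b' = (0, simLin a b b'.2)`. By `b4`, `fderiv ℝ pot z (S z) = 0` for all `z` in the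
open set `dom n`. Differentiate at `p` in the direction `b'` (`HasFDerivAt.clm_apply`;
`fderiv ℝ pot` is differentiable at `p` by `b3_pot`):
`D²pot(p)(b')(S p) + Dpot(p)(S₁ b') = 0`, and the second term is `0` by `hc`; `S p = (0, v)`. So
`D²pot(p)(b')(0, v) = 0` for all `b'`, and by symmetry of the second derivative
(`ContDiffAt.isSymmSndFDerivAt`) `D²pot(p)(0, v) = 0`. -/
theorem b5 {n : ℕ} (hn : 2 ≤ n) (p : (Fin n → ℝ) × Conf n) (hp : p ∈ dom n)
    (hc : ∀ w : Conf n, fderiv ℝ pot p (0, w) = 0) (v : Conf n)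
    (hv : IsSym p.2 v) : fderiv ℝ (fderiv ℝ pot) p (0, v) = 0 := by
  obtain ⟨a, b, c, hv⟩ := hv
  have hs : ContDiffAt ℝ 3 pot p := b3_pot hn p hp
  have hd : DifferentiableAt ℝ (fderiv ℝ pot) p := by
    have h : ContDiffAt ℝ 1 (fderiv ℝ pot) p := hs.fderiv_right (by norm_num)
    exact h.differentiableAt (by norm_num)
  have hsym := hs.isSymmSndFDerivAt (by
    simp only [minSmoothness_of_isRCLikeNormedField]
    norm_num)
  -- the affine map
  set S₁ : ((Fin n → ℝ) × Conf n) →L[ℝ] ((Fin n → ℝ) × Conf n) :=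
    (ContinuousLinearMap.inr ℝ (Fin n → ℝ) (Conf n)).comp
      ((simLin a b).comp (ContinuousLinearMap.snd ℝ (Fin n → ℝ) (Conf n))) with hS₁
  set C : (Fin n → ℝ) × Conf n := (0, fun _ => c) with hC
  have hS : HasFDerivAt (fun z : (Fin n → ℝ) × Conf n => S₁ z + C) S₁ p :=
    S₁.hasFDerivAt.add_const C
  have hSp : ∀ z : (Fin n → ℝ) × Conf n, IsSym z.2 (S₁ z + C).2 ∧ (S₁ z + C).1 = 0 := by
    intro z
    refine ⟨⟨a, b, c, fun i => ?_⟩, ?_⟩
    · simp [hS₁, hC, simLin_apply]
    · simp [hS₁, hC]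
  have hSv : S₁ p + C = (0, v) := by
    refine Prod.ext (hSp p).2 ?_
    funext i
    show (S₁ p + C).2 i = v i
    rw [hv i]
    simp [hS₁, hC, simLin_apply]
  have h1 : HasFDerivAt (fun z => fderiv ℝ pot z (S₁ z + C)) _ p := hd.hasFDerivAt.clm_apply hS
  have h2 : (fun z => fderiv ℝ pot z (S₁ z + C)) =ᶠ[𝓝 p] fun _ => 0 := by
    filter_upwards [(b3_open n).mem_nhds hp] with z hz
    have h := b4 hn z hz _ (hSp z).1
    have e : S₁ z + C = (0, (S₁ z + C).2) := Prod.ext (hSp z).2 rfl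
    rw [e]
    exact h
  have h3 : HasFDerivAt (fun z => fderiv ℝ pot z (S₁ z + C))
      (0 : ((Fin n → ℝ) × Conf n) →L[ℝ] ℝ) p :=
    (hasFDerivAt_const (𝕜 := ℝ) (0 : ℝ) p).congr_of_eventuallyEq h2
  have h4 := h1.unique h3
  refine ContinuousLinearMap.ext fun b' => ?_
  have h5 := DFunLike.congr_fun h4 b'
  rw [hsym.eq (0, v) b']
  have e : S₁ b' = (0, simLin a b b'.2) := by
    simp [hS₁]
  simp only [ContinuousLinearMap.add_apply, ContinuousLinearMap.comp_apply,
    ContinuousLinearMap.flip_apply, ContinuousLinearMap.zero_apply, hSv, e, hc] at h5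
  simpa using h5

end Pool.Agent.Lib.H54E
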