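import Pool.Agent.Lib.H54E.B1
import Pool.Agent.Lib.H54E.Defs2

set_option autoImplicit false

/-!
# H54E, chunk B7 (S)
-/

namespace Pool.Agent.Lib.H54E

open Filter Topology

theorem b7_e1_zero : e1 0 = 1 := by
  simp [e1]

theorem b7_e1_one : e1 1 = 0 := by
  simp [e1]

/-- **B7.** A similarity takes two distinct points to `0` and `e1`.

PROOF. Let `d = z₁ - z₀ ≠ 0`, `a = d 0 / |d|²`, `b = - d 1 / |d|²`: then `a d + b rot d = e1`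
(coordinates: `a d0 - b d1 = 1`, `a d1 + b d0 = 0`), `a² + b² = 1 / |d|² ≠ 0`. Let
`c = -(a • z₀ + b • rot z₀)`. -/
theorem b7 (z₀ z₁ : Pl) (h : z₀ ≠ z₁) : ∃ (a b : ℝ) (c : Pl), a ^ 2 + b ^ 2 ≠ 0 ∧
    a • z₀ + b • rot z₀ + c = 0 ∧ a • z₁ + b • rot z₁ + c = e1 := by
  set p := z₁ 0 - z₀ 0 with hp
  set q := z₁ 1 - z₀ 1 with hq
  have hne : p ^ 2 + q ^ 2 ≠ 0 := by
    intro h0
    apply h
    have hp0 : p = 0 := by nlinarith [sq_nonneg p, sq_nonneg q]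
    have hq0 : q = 0 := by nlinarith [sq_nonneg p, sq_nonneg q]
    ext i
    fin_cases i
    · show z₀ 0 = z₁ 0
      linarith
    · show z₀ 1 = z₁ 1
      linarith
  refine ⟨p / (p ^ 2 + q ^ 2), -q / (p ^ 2 + q ^ 2),
    -((p / (p ^ 2 + q ^ 2)) • z₀ + (-q / (p ^ 2 + q ^ 2)) • rot z₀), ?_, ?_, ?_⟩
  · have h1 : (p / (p ^ 2 + q ^ 2)) ^ 2 + (-q / (p ^ 2 + q ^ 2)) ^ 2 = (p ^ 2 + q ^ 2)⁻¹ := by
      field_simp
    rw [h1]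
    exact inv_ne_zero hne
  · rw [add_neg_cancel]
  · ext i
    fin_cases i
    · show (p / (p ^ 2 + q ^ 2)) * z₁ 0 + (-q / (p ^ 2 + q ^ 2)) * rot z₁ 0 +
        -((p / (p ^ 2 + q ^ 2)) * z₀ 0 + (-q / (p ^ 2 + q ^ 2)) * rot z₀ 0) = e1 0
      rw [rot_zero, rot_zero, b7_e1_zero]
      have h2 : (p / (p ^ 2 + q ^ 2)) * z₁ 0 + (-q / (p ^ 2 + q ^ 2)) * -(z₁ 1) +
        -((p / (p ^ 2 + q ^ 2)) * z₀ 0 + (-q / (p ^ 2 + q ^ 2)) * -(z₀ 1)) =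
          (p * (z₁ 0 - z₀ 0) + q * (z₁ 1 - z₀ 1)) / (p ^ 2 + q ^ 2) := by
        ring
      rw [h2, ← hp, ← hq, div_eq_one_iff_eq hne]
      ring
    · show (p / (p ^ 2 + q ^ 2)) * z₁ 1 + (-q / (p ^ 2 + q ^ 2)) * rot z₁ 1 +
        -((p / (p ^ 2 + q ^ 2)) * z₀ 1 + (-q / (p ^ 2 + q ^ 2)) * rot z₀ 1) = e1 1
      rw [rot_one, rot_one, b7_e1_one]
      have h2 : (p / (p ^ 2 + q ^ 2)) * z₁ 1 + (-q / (p ^ 2 + q ^ 2)) * z₁ 0 +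
        -((p / (p ^ 2 + q ^ 2)) * z₀ 1 + (-q / (p ^ 2 + q ^ 2)) * z₀ 0) =
          (p * (z₁ 1 - z₀ 1) - q * (z₁ 0 - z₀ 0)) / (p ^ 2 + q ^ 2) := by
        ring
      rw [h2, ← hp, ← hq, mul_comm, sub_self, zero_div]

end Pool.Agent.Lib.H54E
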