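import Pool.Agent.Lib.H54E.Defs2

set_option autoImplicit false

/-!
# H54E, chunk C1 (S/M, algebra)
-/

namespace Pool.Agent.Lib.H54E

open Filter Topology

theorem c1_half {n : ℕ} (f : Fin n → Fin n → ℝ) (hs : ∀ i j, f i j = f j i) (h0 : ∀ i, f i i = 0) :
    2 * ∑ i : Fin n, ∑ j ∈ Finset.Ioi i, f i j = ∑ i : Fin n, ∑ j : Fin n, f i j := by
  have h1 := Finset.sum_sum_Ioi_add_eq_sum_sum_off_diag f
  have h2 : ∑ i : Fin n, ∑ j ∈ Finset.Ioi i, (f j i + f i j) =
      2 * ∑ i : Fin n, ∑ j ∈ Finset.Ioi i, f i j := by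
    rw [Finset.mul_sum]
    refine Finset.sum_congr rfl fun i _ => ?_
    rw [Finset.mul_sum]
    refine Finset.sum_congr rfl fun j _ => ?_
    rw [hs j i]; ring
  have h3 : ∑ i : Fin n, ∑ j ∈ ({i}ᶜ : Finset (Fin n)), f j i = ∑ i : Fin n, ∑ j : Fin n, f i j := by
    refine Finset.sum_congr rfl fun i _ => ?_
    have h4 := Finset.sum_compl_add_sum ({i} : Finset (Fin n)) (fun j => f j i)
    rw [Finset.sum_singleton, h0, add_zero] at h4
    rw [h4]
    exact Finset.sum_congr rfl fun j _ => hs j i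
  rw [← h2, h1, h3]

/-- **C1.** The moment of inertia through the mutual distances (Lagrange, Leibniz).

PROOF. Let `M = ∑ m ≠ 0`, `g = M⁻¹ • ∑ m k • y k`. `∑ i, m i |y i - g|² =
∑ m i |y i|² - 2 ⟪∑ m i y i, g⟫ + M |g|² = ∑ m i |y i|² - M⁻¹ |∑ m k y k|²`. On the other side
`∑_{i<j} m i m j |y i - y j|² = (1/2) ∑_{i,j} m i m j |y i - y j|²` (the function is symmetric and
vanishes on the diagonal; split `∑_j` into `j > i`, `j = i`, `j < i`, and exchange the sums in the
last part: `Finset.sum_comm'`) `= M ∑ m i |y i|² - |∑ m k y k|²`. -/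
theorem c1 {n : ℕ} (m : Fin n → ℝ) (hm : ∑ i, m i ≠ 0) (y : Conf n) :
    inertia m y = (∑ i, m i)⁻¹ * kin m y := by
  set S := ∑ i, m i with hS
  set P : Pl := ∑ k : Fin n, m k • y k with hP
  set A : ℝ := ∑ i : Fin n, m i * ‖y i‖ ^ 2 with hA
  have hPP : ‖P‖ ^ 2 = ∑ i : Fin n, m i * inner ℝ (y i) P := by
    rw [← real_inner_self_eq_norm_sq]
    conv_lhs => rw [hP]
    rw [sum_inner]
    exact Finset.sum_congr rfl fun i _ => by rw [real_inner_smul_left]
  have hin : inertia m y = A - S⁻¹ * ‖P‖ ^ 2 := by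
    unfold inertia
    rw [← hS, ← hP]
    have h1 : ∀ i, m i * ‖y i - S⁻¹ • P‖ ^ 2 =
        m i * ‖y i‖ ^ 2 - 2 * S⁻¹ * (m i * inner ℝ (y i) P) + (S⁻¹ ^ 2 * ‖P‖ ^ 2) * m i := by
      intro i
      rw [norm_sub_sq_real, real_inner_smul_right, norm_smul, mul_pow, Real.norm_eq_abs, sq_abs]
      ring
    rw [Finset.sum_congr rfl fun i _ => h1 i, Finset.sum_add_distrib, Finset.sum_sub_distrib,
      ← Finset.mul_sum, ← Finset.mul_sum, ← hPP, ← hS]
    field_simp
    ring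
  have hkin : 2 * kin m y = 2 * (S * A - ‖P‖ ^ 2) := by
    unfold kin
    rw [c1_half (fun i j => m i * m j * ‖y i - y j‖ ^ 2)
      (fun i j => by rw [norm_sub_rev]; ring) (fun i => by simp)]
    have h1 : ∀ i, ∑ j : Fin n, m i * m j * ‖y i - y j‖ ^ 2 =
        S * (m i * ‖y i‖ ^ 2) - 2 * (m i * inner ℝ (y i) P) + m i * A := by
      intro i
      have h2 : ∀ j, m i * m j * ‖y i - y j‖ ^ 2 =
          m j * (m i * ‖y i‖ ^ 2) - 2 * m i * (m j * inner ℝ (y i) (y j)) +
            m i * (m j * ‖y j‖ ^ 2) := by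
        intro j
        rw [norm_sub_sq_real]; ring
      rw [Finset.sum_congr rfl fun j _ => h2 j, Finset.sum_add_distrib, Finset.sum_sub_distrib,
        ← Finset.sum_mul, ← Finset.mul_sum, ← Finset.mul_sum, ← hS]
      have h3 : ∑ j : Fin n, m j * inner ℝ (y i) (y j) = inner ℝ (y i) P := by
        rw [hP, inner_sum]
        exact Finset.sum_congr rfl fun j _ => by rw [real_inner_smul_right]
      rw [h3]; ring
    rw [Finset.sum_congr rfl fun i _ => h1 i, Finset.sum_add_distrib, Finset.sum_sub_distrib,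
      ← Finset.mul_sum, ← Finset.mul_sum, ← Finset.sum_mul, ← hPP, ← hS]
    ring
  have hkin' : kin m y = S * A - ‖P‖ ^ 2 := by linarith
  rw [hin, hkin']
  field_simp

end Pool.Agent.Lib.H54E
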