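import Pool.Agent.Lib.H54E.Defs2

set_option autoImplicit false

/-!
# H54E, chunk C2 (M)
-/

namespace Pool.Agent.Lib.H54E

open Filter Topology

/-- The term of a pair in the Newtonian potential. -/
noncomputable def pairN {n : ℕ} (i j : Fin n) (z : (Fin n → ℝ) × Conf n) : ℝ :=
  z.1 i * z.1 j / ‖z.2 i - z.2 j‖

private theorem c2_norm {X : ℝ → Pl} {W : Pl} {t : ℝ} (hX : HasDerivAt X W t) (h0 : X t ≠ 0) :
    HasDerivAt (fun t => ‖X t‖) (inner ℝ (X t) W * ‖X t‖⁻¹) t := by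
  have h1 := hX.norm_sq
  have hn : ‖X t‖ ^ 2 ≠ 0 := pow_ne_zero 2 (norm_ne_zero_iff.2 h0)
  have h2 := h1.sqrt hn
  have e : (fun y => Real.sqrt ((fun x => ‖X x‖ ^ 2) y)) = fun t => ‖X t‖ := by
    funext y
    exact Real.sqrt_sq (norm_nonneg _)
  have h3 : HasDerivAt (fun t => ‖X t‖) (2 * inner ℝ (X t) W / (2 * Real.sqrt (‖X t‖ ^ 2))) t := by
    rw [← e]
    exact h2
  rw [Real.sqrt_sq (norm_nonneg _)] at h3
  have e2 : 2 * inner ℝ (X t) W / (2 * ‖X t‖) = inner ℝ (X t) W * ‖X t‖⁻¹ := by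
    rw [mul_div_mul_left _ _ two_ne_zero, div_eq_mul_inv]
  rwa [e2] at h3

private theorem c2_inv {X : ℝ → Pl} {W : Pl} {t : ℝ} (hX : HasDerivAt X W t) (h0 : X t ≠ 0) :
    HasDerivAt (fun t => ‖X t‖⁻¹) (- inner ℝ (X t) W * (‖X t‖ ^ 3)⁻¹) t := by
  have h1 := (c2_norm hX h0).inv (norm_ne_zero_iff.2 h0)
  have hn : ‖X t‖ ≠ 0 := norm_ne_zero_iff.2 h0
  have e : -(inner ℝ (X t) W * ‖X t‖⁻¹) / ‖X t‖ ^ 2 = - inner ℝ (X t) W * (‖X t‖ ^ 3)⁻¹ := by
    field_simp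
  rw [e] at h1
  exact h1

private theorem c2_inv3 {X : ℝ → Pl} {W : Pl} {t : ℝ} (hX : HasDerivAt X W t) (h0 : X t ≠ 0) :
    HasDerivAt (fun t => (‖X t‖ ^ 3)⁻¹) (- 3 * inner ℝ (X t) W * (‖X t‖ ^ 5)⁻¹) t := by
  have hn : ‖X t‖ ≠ 0 := norm_ne_zero_iff.2 h0
  have h1 := ((c2_norm hX h0).pow 3).inv (pow_ne_zero 3 hn)
  have e : -(((3 : ℕ) : ℝ) * ‖X t‖ ^ (3 - 1) * (inner ℝ (X t) W * ‖X t‖⁻¹)) / (‖X t‖ ^ 3) ^ 2 =
      - 3 * inner ℝ (X t) W * (‖X t‖ ^ 5)⁻¹ := by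
    norm_num
    field_simp
  have h2 : HasDerivAt (fun t => (‖X t‖ ^ 3)⁻¹)
      (-(((3 : ℕ) : ℝ) * ‖X t‖ ^ (3 - 1) * (inner ℝ (X t) W * ‖X t‖⁻¹)) / (‖X t‖ ^ 3) ^ 2) t := h1
  rwa [e] at h2

private theorem c2_cd {n : ℕ} (i j : Fin n) (p : (Fin n → ℝ) × Conf n) (hp : p.2 i ≠ p.2 j) :
    ContDiffAt ℝ 3 (pairN i j) p := by
  have hm : ∀ i : Fin n, ContDiffAt ℝ 3 (fun z : (Fin n → ℝ) × Conf n => z.1 i) p := fun i =>
    ((ContinuousLinearMap.proj (R := ℝ) (φ := fun _ : Fin n => ℝ) i).comp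
      (ContinuousLinearMap.fst ℝ (Fin n → ℝ) (Conf n))).contDiff.contDiffAt
  have hx : ∀ i : Fin n, ContDiffAt ℝ 3 (fun z : (Fin n → ℝ) × Conf n => z.2 i) p := fun i =>
    ((ContinuousLinearMap.proj (R := ℝ) (φ := fun _ : Fin n => Pl) i).comp
      (ContinuousLinearMap.snd ℝ (Fin n → ℝ) (Conf n))).contDiff.contDiffAt
  have h1 : ContDiffAt ℝ 3 (fun z : (Fin n → ℝ) × Conf n => ‖z.2 i - z.2 j‖) p :=
    ((hx i).sub (hx j)).norm ℝ (sub_ne_zero.2 hp)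
  exact ((hm i).mul (hm j)).div h1 (norm_ne_zero_iff.2 (sub_ne_zero.2 hp))

private theorem c2_line {n : ℕ} (p u : (Fin n → ℝ) × Conf n) :
    HasDerivAt (fun t : ℝ => p + t • u) u 0 := by
  have h := ((hasDerivAt_id (0 : ℝ)).smul_const u).const_add p
  simpa using h

private theorem c2_X {n : ℕ} (i j : Fin n) (x v : Conf n) :
    HasDerivAt (fun t : ℝ => (x i - x j) + t • (v i - v j)) (v i - v j) 0 := by
  have h := ((hasDerivAt_id (0 : ℝ)).smul_const (v i - v j)).const_add (x i - x j)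
  simpa using h

/-- **C2.** First and second derivative of `m_i m_j / |x_i - x_j|` at a point with `x_i ≠ x_j`
(`s = ⟪x_i - x_j, v_i - v_j⟫`, second derivative in the directions `(0, v)` and `(a, w)`).

PROOF. `HasFDerivAt` of the norm at a nonzero vector: derivative of `‖X‖` in the direction `X'` is
`⟪X, X'⟫ / ‖X‖`; so the derivative of `‖X‖⁻¹` is `- ⟪X, X'⟫ / ‖X‖ ^ 3`. (`HasStrictFDerivAt.norm_sq`,
`fderiv_norm_sq`, `HasFDerivAt.sqrt`; or write `‖X‖⁻¹ = (‖X‖ ^ 2) ^ (-1/2)`; any way.) Product rule.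
This gives (1) for all `z` with `z.2 i ≠ z.2 j`, an open set. (2): `pairN` is `C²` there, so
`fderiv ℝ (fderiv ℝ (pairN i j)) p (0, v) (a, w)` is the derivative at `p` in the direction `(0, v)`
of the function `z ↦ fderiv ℝ (pairN i j) z (a, w)` (`fderiv_clm_apply` or evaluation is continuous
linear), which near `p` is the explicit expression (1); differentiate it along `t ↦ p + t (0, v)`:
masses are constant, `⟪X, W⟫` has derivative `⟪V, W⟫`, `‖X‖⁻¹` and `‖X‖⁻³` have the derivatives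
`-s ‖X‖⁻³` and `-3 s ‖X‖⁻⁵`. -/
theorem c2_first {n : ℕ} (i j : Fin n) (p : (Fin n → ℝ) × Conf n) (hp : p.2 i ≠ p.2 j)
    (a : Fin n → ℝ) (w : Conf n) :
    fderiv ℝ (pairN i j) p (a, w) =
      (a i * p.1 j + p.1 i * a j) / ‖p.2 i - p.2 j‖
      - p.1 i * p.1 j * inner ℝ (p.2 i - p.2 j) (w i - w j) * (‖p.2 i - p.2 j‖ ^ 3)⁻¹ := by
  have hd : HasFDerivAt (pairN i j) (fderiv ℝ (pairN i j) p)
      ((fun t : ℝ => p + t • ((a, w) : (Fin n → ℝ) × Conf n)) 0) := by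
    simpa using ((c2_cd i j p hp).differentiableAt (by norm_num)).hasFDerivAt
  have h1 := hd.comp_hasDerivAt 0 (c2_line p (a, w))
  have hX : (fun t : ℝ => (p.2 i - p.2 j) + t • (w i - w j)) 0 ≠ 0 := by
    simpa using sub_ne_zero.2 hp
  have h2 := c2_inv (c2_X i j p.2 w) hX
  have hm : ∀ i : Fin n, HasDerivAt (fun t : ℝ => p.1 i + t * a i) (a i) 0 := by
    intro i
    simpa using ((hasDerivAt_id (0 : ℝ)).mul_const (a i)).const_add (p.1 i)
  have h3 := ((hm i).mul (hm j)).mul h2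
  have e : (pairN i j ∘ fun t : ℝ => p + t • ((a, w) : (Fin n → ℝ) × Conf n)) =
      (((fun t : ℝ => p.1 i + t * a i) * (fun t : ℝ => p.1 j + t * a j)) *
        fun t : ℝ => ‖(fun t : ℝ => (p.2 i - p.2 j) + t • (w i - w j)) t‖⁻¹) := by
    funext t
    show (p.1 i + t * a i) * (p.1 j + t * a j) / ‖(p.2 i + t • w i) - (p.2 j + t • w j)‖ =
      (p.1 i + t * a i) * (p.1 j + t * a j) * ‖(p.2 i - p.2 j) + t • (w i - w j)‖⁻¹
    rw [div_eq_mul_inv]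
    congr 3
    rw [smul_sub]
    abel
  rw [e] at h1
  rw [h1.unique h3]
  simp
  ring

theorem c2_second {n : ℕ} (i j : Fin n) (p : (Fin n → ℝ) × Conf n) (hp : p.2 i ≠ p.2 j)
    (v : Conf n) (a : Fin n → ℝ) (w : Conf n) :
    fderiv ℝ (fderiv ℝ (pairN i j)) p (0, v) (a, w) =
      - (a i * p.1 j + p.1 i * a j) * inner ℝ (p.2 i - p.2 j) (v i - v j)
          * (‖p.2 i - p.2 j‖ ^ 3)⁻¹
      - p.1 i * p.1 j * inner ℝ (v i - v j) (w i - w j) * (‖p.2 i - p.2 j‖ ^ 3)⁻¹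
      + 3 * p.1 i * p.1 j * inner ℝ (p.2 i - p.2 j) (v i - v j)
          * inner ℝ (p.2 i - p.2 j) (w i - w j) * (‖p.2 i - p.2 j‖ ^ 5)⁻¹ := by
  have hd0 : DifferentiableAt ℝ (fderiv ℝ (pairN i j)) p := by
    have h : ContDiffAt ℝ 1 (fderiv ℝ (pairN i j)) p := (c2_cd i j p hp).fderiv_right (by norm_num)
    exact h.differentiableAt (by norm_num)
  have hd : HasFDerivAt (fderiv ℝ (pairN i j)) (fderiv ℝ (fderiv ℝ (pairN i j)) p)
      ((fun t : ℝ => p + t • ((0, v) : (Fin n → ℝ) × Conf n)) 0) := by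
    simpa using hd0.hasFDerivAt
  have h1 := (hd.comp_hasDerivAt 0 (c2_line p (0, v))).clm_apply
    (hasDerivAt_const (0 : ℝ) ((a, w) : (Fin n → ℝ) × Conf n))
  have hX : (fun t : ℝ => (p.2 i - p.2 j) + t • (v i - v j)) 0 ≠ 0 := by
    simpa using sub_ne_zero.2 hp
  have h2 := c2_inv (c2_X i j p.2 v) hX
  have h3 := c2_inv3 (c2_X i j p.2 v) hX
  have h4 : HasDerivAt (fun t : ℝ => inner ℝ ((p.2 i - p.2 j) + t • (v i - v j)) (w i - w j))
      (inner ℝ (v i - v j) (w i - w j)) 0 := by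
    have := (c2_X i j p.2 v).inner ℝ (hasDerivAt_const (0 : ℝ) (w i - w j))
    simpa using this
  have h5 := (h2.const_mul (a i * p.1 j + p.1 i * a j)).sub
    ((h4.const_mul (p.1 i * p.1 j)).mul h3)
  have hev : ∀ᶠ t in 𝓝 (0 : ℝ), (p.2 i - p.2 j) + t • (v i - v j) ≠ 0 := by
    have hc : ContinuousAt (fun t : ℝ => (p.2 i - p.2 j) + t • (v i - v j)) 0 := by fun_prop
    exact hc.eventually_ne hX
  have h6 : (fun t : ℝ => (fderiv ℝ (pairN i j) ∘ fun t : ℝ =>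
      p + t • ((0, v) : (Fin n → ℝ) × Conf n)) t ((a, w) : (Fin n → ℝ) × Conf n)) =ᶠ[𝓝 0]
      (fun t : ℝ => (a i * p.1 j + p.1 i * a j) * ‖(p.2 i - p.2 j) + t • (v i - v j)‖⁻¹ -
        p.1 i * p.1 j * inner ℝ ((p.2 i - p.2 j) + t • (v i - v j)) (w i - w j) *
          (‖(p.2 i - p.2 j) + t • (v i - v j)‖ ^ 3)⁻¹) := by
    filter_upwards [hev] with t ht
    have e1 : (p + t • ((0, v) : (Fin n → ℝ) × Conf n)).2 i -
        (p + t • ((0, v) : (Fin n → ℝ) × Conf n)).2 j = (p.2 i - p.2 j) + t • (v i - v j) := by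
      show (p.2 i + t • v i) - (p.2 j + t • v j) = _
      rw [smul_sub]
      abel
    have e2 : ∀ k, (p + t • ((0, v) : (Fin n → ℝ) × Conf n)).1 k = p.1 k := by
      intro k
      show p.1 k + t * 0 = p.1 k
      ring
    have hne : (p + t • ((0, v) : (Fin n → ℝ) × Conf n)).2 i ≠
        (p + t • ((0, v) : (Fin n → ℝ) × Conf n)).2 j := by
      rw [← sub_ne_zero, e1]
      exact ht
    show fderiv ℝ (pairN i j) (p + t • ((0, v) : (Fin n → ℝ) × Conf n)) (a, w) = _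
    rw [c2_first i j _ hne a w, e1, e2, e2, div_eq_mul_inv]
  have h7 := h1.congr_of_eventuallyEq h6.symm
  have h8 := h7.unique h5
  simp only [Function.comp, zero_smul, add_zero, map_zero] at h8
  rw [h8]
  ring

end Pool.Agent.Lib.H54E
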