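import Pool.Agent.Lib.H54E.Defs2

set_option autoImplicit false

/-!
# H54E, chunk C3 (S/M)
-/

namespace Pool.Agent.Lib.H54E

open Filter Topology

/-- The term of a pair in `kin`. -/
noncomputable def pairK {n : ℕ} (i j : Fin n) (z : (Fin n → ℝ) × Conf n) : ℝ :=
  z.1 i * z.1 j * ‖z.2 i - z.2 j‖ ^ 2

theorem c3_smooth {n : ℕ} (i j : Fin n) : ContDiff ℝ 2 (pairK i j) := by
  unfold pairK
  have h1 : ContDiff ℝ 2 (fun z : (Fin n → ℝ) × Conf n => z.1 i) := by fun_prop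
  have h2 : ContDiff ℝ 2 (fun z : (Fin n → ℝ) × Conf n => z.1 j) := by fun_prop
  have h3 : ContDiff ℝ 2 (fun z : (Fin n → ℝ) × Conf n => z.2 i - z.2 j) := by fun_prop
  exact (h1.mul h2).mul (h3.norm_sq ℝ)

theorem c3_poly (α β γ δ ε η θ : ℝ) :
    HasDerivAt (fun t : ℝ => (α + t * β) * (γ + t * δ) * (ε + t * η + t ^ 2 * θ))
      ((β * γ + α * δ) * ε + α * γ * η) 0 := by
  have h1 : HasDerivAt (fun t : ℝ => α + t * β) β 0 := by
    simpa using ((hasDerivAt_id (0 : ℝ)).mul_const β).const_add α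
  have h2 : HasDerivAt (fun t : ℝ => γ + t * δ) δ 0 := by
    simpa using ((hasDerivAt_id (0 : ℝ)).mul_const δ).const_add γ
  have h3 : HasDerivAt (fun t : ℝ => ε + t * η + t ^ 2 * θ) η 0 := by
    have h4 : HasDerivAt (fun t : ℝ => ε + t * η) η 0 := by
      simpa using ((hasDerivAt_id (0 : ℝ)).mul_const η).const_add ε
    have h5 : HasDerivAt (fun t : ℝ => t ^ 2 * θ) 0 0 := by
      have h6 := (hasDerivAt_pow 2 (0 : ℝ)).mul_const θ
      simpa using h6
    have h7 := h4.add h5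
    rw [add_zero] at h7
    exact h7
  have h := (h1.mul h2).mul h3
  have e : (β * γ + α * δ) * ε + α * γ * η =
      (β * (γ + 0 * δ) + (α + 0 * β) * δ) * (ε + 0 * η + 0 ^ 2 * θ) +
        ((α + 0 * β) * (γ + 0 * δ)) * η := by ring
  rw [e]
  exact h

theorem c3_norm {n : ℕ} (x w : Conf n) (i j : Fin n) (t : ℝ) :
    ‖(x + t • w) i - (x + t • w) j‖ ^ 2 =
      ‖x i - x j‖ ^ 2 + t * (2 * inner ℝ (x i - x j) (w i - w j)) + t ^ 2 * ‖w i - w j‖ ^ 2 := by
  have h1 : (x + t • w) i - (x + t • w) j = (x i - x j) + t • (w i - w j) := by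
    simp only [Pi.add_apply, Pi.smul_apply, smul_sub]
    abel
  rw [h1, norm_add_sq_real, real_inner_smul_right, norm_smul, mul_pow, Real.norm_eq_abs, sq_abs]
  ring

/-- **C3.** First and second derivative of `m_i m_j |x_i - x_j|²`.

PROOF. Product rule; the derivative of `‖X‖²` in the direction `X'` is `2 ⟪X, X'⟫`
(`HasFDerivAt.norm_sq`); the function `z ↦ fderiv ℝ (pairK i j) z (a, w)` is the explicit
expression (1) for all `z`, and its derivative in the direction `(0, v)` is (2). -/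
theorem c3_first {n : ℕ} (i j : Fin n) (p : (Fin n → ℝ) × Conf n)
    (a : Fin n → ℝ) (w : Conf n) :
    fderiv ℝ (pairK i j) p (a, w) =
      (a i * p.1 j + p.1 i * a j) * ‖p.2 i - p.2 j‖ ^ 2
      + 2 * p.1 i * p.1 j * inner ℝ (p.2 i - p.2 j) (w i - w j) := by
  have hd : DifferentiableAt ℝ (pairK i j) p := ((c3_smooth i j).differentiable (by norm_num)) p
  have h1 : HasDerivAt (fun t : ℝ => pairK i j (p + t • (a, w))) (fderiv ℝ (pairK i j) p (a, w)) 0 :=
    hd.hasFDerivAt.hasLineDerivAt (a, w)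
  have h2 : (fun t : ℝ => pairK i j (p + t • (a, w))) = fun t : ℝ =>
      (p.1 i + t * a i) * (p.1 j + t * a j) * (‖p.2 i - p.2 j‖ ^ 2 +
        t * (2 * inner ℝ (p.2 i - p.2 j) (w i - w j)) + t ^ 2 * ‖w i - w j‖ ^ 2) := by
    funext t
    unfold pairK
    rw [← c3_norm]
    rfl
  rw [h2] at h1
  rw [h1.unique (c3_poly _ _ _ _ _ _ _)]
  ring

theorem c3_second {n : ℕ} (i j : Fin n) (p : (Fin n → ℝ) × Conf n)
    (v : Conf n) (a : Fin n → ℝ) (w : Conf n) :
    fderiv ℝ (fderiv ℝ (pairK i j)) p (0, v) (a, w) =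
      2 * (a i * p.1 j + p.1 i * a j) * inner ℝ (p.2 i - p.2 j) (v i - v j)
      + 2 * p.1 i * p.1 j * inner ℝ (v i - v j) (w i - w j) := by
  have hsm : ContDiff ℝ 1 (fderiv ℝ (pairK i j)) := (c3_smooth i j).fderiv_right (by norm_num)
  have hd : DifferentiableAt ℝ (fderiv ℝ (pairK i j)) p := (hsm.differentiable (by norm_num)) p
  have h0 : HasFDerivAt (fun z => fderiv ℝ (pairK i j) z (a, w))
      ((ContinuousLinearMap.apply ℝ ℝ ((a, w) : (Fin n → ℝ) × Conf n)).comp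
        (fderiv ℝ (fderiv ℝ (pairK i j)) p)) p :=
    (ContinuousLinearMap.apply ℝ ℝ ((a, w) : (Fin n → ℝ) × Conf n)).hasFDerivAt.comp p
      hd.hasFDerivAt
  have h1 : HasDerivAt (fun t : ℝ => fderiv ℝ (pairK i j) (p + t • ((0 : Fin n → ℝ), v)) (a, w))
      (fderiv ℝ (fderiv ℝ (pairK i j)) p (0, v) (a, w)) 0 := h0.hasLineDerivAt ((0 : Fin n → ℝ), v)
  have h2 : (fun t : ℝ => fderiv ℝ (pairK i j) (p + t • ((0 : Fin n → ℝ), v)) (a, w)) = fun t : ℝ =>
      ((a i * p.1 j + p.1 i * a j) + t * 0) * (1 + t * 0) * (‖p.2 i - p.2 j‖ ^ 2 +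
        t * (2 * inner ℝ (p.2 i - p.2 j) (v i - v j)) + t ^ 2 * ‖v i - v j‖ ^ 2) +
      (2 * p.1 i * p.1 j + t * 0) * (1 + t * 0) * (inner ℝ (p.2 i - p.2 j) (w i - w j) +
        t * inner ℝ (v i - v j) (w i - w j) + t ^ 2 * 0) := by
    funext t
    rw [c3_first]
    have e1 : (p + t • ((0 : Fin n → ℝ), v)).1 = p.1 := by simp
    have e2 : (p + t • ((0 : Fin n → ℝ), v)).2 = p.2 + t • v := rfl
    have e3 : inner ℝ ((p.2 + t • v) i - (p.2 + t • v) j) (w i - w j) =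
        inner ℝ (p.2 i - p.2 j) (w i - w j) + t * inner ℝ (v i - v j) (w i - w j) := by
      have h1 : (p.2 + t • v) i - (p.2 + t • v) j = (p.2 i - p.2 j) + t • (v i - v j) := by
        simp only [Pi.add_apply, Pi.smul_apply, smul_sub]
        abel
      rw [h1, inner_add_left, real_inner_smul_left]
    rw [e1, e2, c3_norm, e3]
    ring
  rw [h2] at h1
  rw [h1.unique ((c3_poly _ _ _ _ _ _ _).add (c3_poly _ _ _ _ _ _ _))]
  ring

end Pool.Agent.Lib.H54E
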