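import Pool.Agent.Lib.H54E.B3
import Pool.Agent.Lib.H54E.C2
import Pool.Agent.Lib.H54E.C3

set_option autoImplicit false

/-!
# H54E, chunk C4 (S)
-/

namespace Pool.Agent.Lib.H54E

open Filter Topology

theorem c4_aux {E ι : Type*} [NormedAddCommGroup E] [NormedSpace ℝ E] (s : Finset ι)
    (f : ι → E → ℝ) (p : E) (h : ∀ k ∈ s, ContDiffAt ℝ 2 (f k) p) :
    ContDiffAt ℝ 2 (fun z => ∑ k ∈ s, f k z) p ∧
    fderiv ℝ (fun z => ∑ k ∈ s, f k z) p = ∑ k ∈ s, fderiv ℝ (f k) p ∧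
    fderiv ℝ (fderiv ℝ (fun z => ∑ k ∈ s, f k z)) p = ∑ k ∈ s, fderiv ℝ (fderiv ℝ (f k)) p := by
  have hd : ∀ᶠ z in 𝓝 p, ∀ k ∈ s, DifferentiableAt ℝ (f k) z := by
    rw [eventually_all_finset]
    intro k hk
    filter_upwards [(h k hk).eventually (by simp)] with z hz
    exact hz.differentiableAt (by norm_num)
  refine ⟨ContDiffAt.sum h, ?_, ?_⟩
  · exact fderiv_fun_sum fun k hk => (h k hk).differentiableAt (by norm_num)
  · have h1 : fderiv ℝ (fun z => ∑ k ∈ s, f k z) =ᶠ[𝓝 p] fun z => ∑ k ∈ s, fderiv ℝ (f k) z := by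
      filter_upwards [hd] with z hz
      exact fderiv_fun_sum fun k hk => hz k hk
    rw [h1.fderiv_eq]
    refine fderiv_fun_sum fun k hk => ?_
    exact ((h k hk).fderiv_right (m := 1) (by norm_num)).differentiableAt (by norm_num)

theorem c4_aux2 {E : Type*} [NormedAddCommGroup E] [NormedSpace ℝ E] {n : ℕ}
    (f : Fin n → Fin n → E → ℝ) (p : E) (h : ∀ i, ∀ j ∈ Finset.Ioi i, ContDiffAt ℝ 2 (f i j) p) :
    fderiv ℝ (fun z => ∑ i : Fin n, ∑ j ∈ Finset.Ioi i, f i j z) p =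
      ∑ i : Fin n, ∑ j ∈ Finset.Ioi i, fderiv ℝ (f i j) p ∧
    fderiv ℝ (fderiv ℝ (fun z => ∑ i : Fin n, ∑ j ∈ Finset.Ioi i, f i j z)) p =
      ∑ i : Fin n, ∑ j ∈ Finset.Ioi i, fderiv ℝ (fderiv ℝ (f i j)) p := by
  have h1 := fun i => c4_aux (Finset.Ioi i) (f i) p (h i)
  obtain ⟨-, h2, h3⟩ := c4_aux Finset.univ (fun (i : Fin n) z => ∑ j ∈ Finset.Ioi i, f i j z) p
    fun i _ => (h1 i).1
  refine ⟨h2.trans (Finset.sum_congr rfl fun i _ => (h1 i).2.1),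
    h3.trans (Finset.sum_congr rfl fun i _ => (h1 i).2.2)⟩

/-- **C4.** Sums over the pairs.

PROOF. `newton` and `kin` are the sums of `pairN i j`, `pairK i j` over `i` and `j ∈ Ioi i`
(`j ≠ i` since `i < j`), finite sums of functions which are `C²` at `p`; the first derivative near
`p` is the sum of the first derivatives (`fderiv_sum`, `fderiv_fun_sum`; for `newton` at all points
near `p` without collision, `b3_open`), and so is the second derivative. -/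
theorem c4_newton {n : ℕ} (p : (Fin n → ℝ) × Conf n) (hp : p ∈ dom n) :
    (∀ u, fderiv ℝ (fun z : (Fin n → ℝ) × Conf n => newton z.1 z.2) p u =
      ∑ i : Fin n, ∑ j ∈ Finset.Ioi i, fderiv ℝ (pairN i j) p u) ∧
    (∀ u w, fderiv ℝ (fderiv ℝ (fun z : (Fin n → ℝ) × Conf n => newton z.1 z.2)) p u w =
      ∑ i : Fin n, ∑ j ∈ Finset.Ioi i, fderiv ℝ (fderiv ℝ (pairN i j)) p u w) := by
  have h : ∀ i : Fin n, ∀ j ∈ Finset.Ioi i,
      ContDiffAt ℝ 2 (pairN i j : (Fin n → ℝ) × Conf n → ℝ) p := by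
    intro i j hij
    have hne : p.2 i - p.2 j ≠ 0 := sub_ne_zero.2 (hp.2 i j (Finset.mem_Ioi.1 hij).ne)
    have e1 : ContDiffAt ℝ 2 (fun z : (Fin n → ℝ) × Conf n => z.1 i * z.1 j) p :=
      ContDiff.contDiffAt (by fun_prop)
    have e2 : ContDiffAt ℝ 2 (fun z : (Fin n → ℝ) × Conf n => ‖z.2 i - z.2 j‖) p :=
      ContDiffAt.norm ℝ (ContDiff.contDiffAt (by fun_prop)) hne
    exact e1.div e2 (norm_ne_zero_iff.2 hne)
  obtain ⟨h1, h2⟩ := c4_aux2 (fun i j => (pairN i j : (Fin n → ℝ) × Conf n → ℝ)) p h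
  refine ⟨fun u => ?_, fun u w => ?_⟩
  · have h3 : fderiv ℝ (fun z : (Fin n → ℝ) × Conf n => newton z.1 z.2) p =
        ∑ i : Fin n, ∑ j ∈ Finset.Ioi i, fderiv ℝ (pairN i j) p := h1
    rw [h3]
    simp
  · have h3 : fderiv ℝ (fderiv ℝ (fun z : (Fin n → ℝ) × Conf n => newton z.1 z.2)) p =
        ∑ i : Fin n, ∑ j ∈ Finset.Ioi i, fderiv ℝ (fderiv ℝ (pairN i j)) p := h2
    rw [h3]
    simp

theorem c4_kin {n : ℕ} (p : (Fin n → ℝ) × Conf n) :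
    (∀ u, fderiv ℝ (fun z : (Fin n → ℝ) × Conf n => kin z.1 z.2) p u =
      ∑ i : Fin n, ∑ j ∈ Finset.Ioi i, fderiv ℝ (pairK i j) p u) ∧
    (∀ u w, fderiv ℝ (fderiv ℝ (fun z : (Fin n → ℝ) × Conf n => kin z.1 z.2)) p u w =
      ∑ i : Fin n, ∑ j ∈ Finset.Ioi i, fderiv ℝ (fderiv ℝ (pairK i j)) p u w) := by
  have h : ∀ i : Fin n, ∀ j ∈ Finset.Ioi i,
      ContDiffAt ℝ 2 (pairK i j : (Fin n → ℝ) × Conf n → ℝ) p := by
    intro i j _
    have e1 : ContDiffAt ℝ 2 (fun z : (Fin n → ℝ) × Conf n => z.1 i * z.1 j) p :=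
      ContDiff.contDiffAt (by fun_prop)
    have e2 : ContDiffAt ℝ 2 (fun z : (Fin n → ℝ) × Conf n => ‖z.2 i - z.2 j‖ ^ 2) p :=
      ContDiffAt.norm_sq ℝ (ContDiff.contDiffAt (by fun_prop))
    exact e1.mul e2
  obtain ⟨h1, h2⟩ := c4_aux2 (fun i j => (pairK i j : (Fin n → ℝ) × Conf n → ℝ)) p h
  refine ⟨fun u => ?_, fun u w => ?_⟩
  · have h3 : fderiv ℝ (fun z : (Fin n → ℝ) × Conf n => kin z.1 z.2) p =
        ∑ i : Fin n, ∑ j ∈ Finset.Ioi i, fderiv ℝ (pairK i j) p := h1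
    rw [h3]
    simp
  · have h3 : fderiv ℝ (fderiv ℝ (fun z : (Fin n → ℝ) × Conf n => kin z.1 z.2)) p =
        ∑ i : Fin n, ∑ j ∈ Finset.Ioi i, fderiv ℝ (fderiv ℝ (pairK i j)) p := h2
    rw [h3]
    simp

end Pool.Agent.Lib.H54E
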