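import Mathlib

set_option autoImplicit false

/-!
# H54E, chunk C5 (M, pure)
-/

namespace Pool.Agent.Lib.H54E

open Filter Topology

theorem c5_aux {E : Type*} [NormedAddCommGroup E] [NormedSpace ℝ E] (f h : E → ℝ) (p : E)
    (hf : ContDiffAt ℝ 2 f p) (hh : ContDiffAt ℝ 2 h p) :
    (∀ b : E, fderiv ℝ (fun z => f z * f z * h z) p b =
      2 * f p * h p * fderiv ℝ f p b + f p ^ 2 * fderiv ℝ h p b) ∧
    (∀ v b : E, fderiv ℝ (fderiv ℝ (fun z => f z * f z * h z)) p v b =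
      2 * fderiv ℝ f p v * h p * fderiv ℝ f p b + 2 * f p * fderiv ℝ h p v * fderiv ℝ f p b
      + 2 * f p * h p * fderiv ℝ (fderiv ℝ f) p v b
      + 2 * f p * fderiv ℝ f p v * fderiv ℝ h p b
      + f p ^ 2 * fderiv ℝ (fderiv ℝ h) p v b) := by
  have h1 : ∀ᶠ z in 𝓝 p, DifferentiableAt ℝ f z := by
    filter_upwards [hf.eventually (by simp)] with z hz
    exact hz.differentiableAt (by simp)
  have h2 : ∀ᶠ z in 𝓝 p, DifferentiableAt ℝ h z := by
    filter_upwards [hh.eventually (by simp)] with z hz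
    exact hz.differentiableAt (by simp)
  have hd : ∀ z : E, DifferentiableAt ℝ f z → DifferentiableAt ℝ h z →
      fderiv ℝ (fun z => f z * f z * h z) z =
        (2 * f z * h z) • fderiv ℝ f z + (f z ^ 2) • fderiv ℝ h z := by
    intro z hz1 hz2
    have h3 := ((hz1.hasFDerivAt.mul hz1.hasFDerivAt).mul hz2.hasFDerivAt).fderiv
    have h4 : (fun z => f z * f z * h z) = f * f * h := rfl
    rw [h4, h3]
    ext b
    simp
    ring
  have heq : fderiv ℝ (fun z => f z * f z * h z) =ᶠ[𝓝 p]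
      fun z => (2 * f z * h z) • fderiv ℝ f z + (f z ^ 2) • fderiv ℝ h z := by
    filter_upwards [h1, h2] with z hz1 hz2
    exact hd z hz1 hz2
  have hff : HasFDerivAt (fderiv ℝ f) (fderiv ℝ (fderiv ℝ f) p) p :=
    ((hf.fderiv_right (m := 1) (by norm_num)).differentiableAt (by simp)).hasFDerivAt
  have hhf : HasFDerivAt (fderiv ℝ h) (fderiv ℝ (fderiv ℝ h) p) p :=
    ((hh.fderiv_right (m := 1) (by norm_num)).differentiableAt (by simp)).hasFDerivAt
  have hf1 : HasFDerivAt f (fderiv ℝ f p) p := h1.self_of_nhds.hasFDerivAt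
  have hh1 : HasFDerivAt h (fderiv ℝ h p) p := h2.self_of_nhds.hasFDerivAt
  have hc1 : HasFDerivAt (fun z => 2 * f z * h z)
      ((2 * f p) • fderiv ℝ h p + (h p) • ((2 : ℝ) • fderiv ℝ f p)) p := by
    exact (hf1.const_mul 2).mul hh1
  have hc2 : HasFDerivAt (fun z => f z ^ 2) ((2 * f p) • fderiv ℝ f p) p := by
    have h5 := hf1.pow 2
    refine h5.congr_fderiv ?_
    ext b
    simp
  refine ⟨fun b => ?_, fun v b => ?_⟩
  · rw [hd p h1.self_of_nhds h2.self_of_nhds]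
    simp
  · rw [heq.fderiv_eq]
    have h6 := (hc1.smul hff).add (hc2.smul hhf)
    have h7 : (fun z => (2 * f z * h z) • fderiv ℝ f z + (f z ^ 2) • fderiv ℝ h z) =
        ((fun z => 2 * f z * h z) • fderiv ℝ f + (fun z => f z ^ 2) • fderiv ℝ h) := rfl
    rw [h7, h6.fderiv]
    simp
    ring

/-- **C5.** Abstract calculus. Near `p`, `V = U √(K / M)`, all `C²` and positive.
(1) If `DM(w) = 0` and `DV(w) = 0` then `DU(w) + (U/2K) DK(w) = 0`.
(2) If `DM(v) = 0`, `D²M(v) = 0`, `DU(v) = DK(v) = 0`, `D²V(v) = 0`, then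
`D²U(v)(b) + (U/2K) D²K(v)(b) = 0` for all `b`.

PROOF. Near `p`: `V² M = U² K` (`Real.sq_sqrt`). First derivative at any point near `p`:
`2 V DV(b) M + V² DM(b) = 2 U DU(b) K + U² DK(b)`. With `b = w` at `p` this is (1) after division
by `2 U K`. For (2): put `b = v` at `p`: `2 V M DV(v) = 0`, so `DV(v) = 0`. Differentiate the
identity (as functions of the point near `p`, for fixed `b`) in the direction `v`:
left side: `2 DV(v) DV(b) M + 2 V D²V(v)(b) M + 2 V DV(b) DM(v) + 2 V DV(v) DM(b) + V² D²M(v)(b)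
= 0`; right side: `2 DU(v) DU(b) K + 2 U D²U(v)(b) K + 2 U DU(b) DK(v) + 2 U DU(v) DK(b)
+ U² D²K(v)(b) = 2 U K D²U(v)(b) + U² D²K(v)(b)`. Divide by `2 U K`. -/
theorem c5 {E : Type*} [NormedAddCommGroup E] [NormedSpace ℝ E] (U K M V : E → ℝ) (p : E)
    (hU : ContDiffAt ℝ 2 U p) (hK : ContDiffAt ℝ 2 K p) (hM : ContDiffAt ℝ 2 M p)
    (hV : ContDiffAt ℝ 2 V p) (hU0 : 0 < U p) (hK0 : 0 < K p) (hM0 : 0 < M p)
    (hVe : ∀ᶠ z in 𝓝 p, V z = U z * Real.sqrt ((M z)⁻¹ * K z)) :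
    (∀ w : E, fderiv ℝ M p w = 0 → fderiv ℝ V p w = 0 →
      fderiv ℝ U p w + U p / (2 * K p) * fderiv ℝ K p w = 0) ∧
    (∀ v : E, fderiv ℝ M p v = 0 → fderiv ℝ (fderiv ℝ M) p v = 0 → fderiv ℝ U p v = 0 →
      fderiv ℝ K p v = 0 → fderiv ℝ (fderiv ℝ V) p v = 0 → ∀ b : E,
      fderiv ℝ (fderiv ℝ U) p v b + U p / (2 * K p) * fderiv ℝ (fderiv ℝ K) p v b = 0) := by
  have hKpos : ∀ᶠ z in 𝓝 p, 0 < K z := hK.continuousAt.eventually (lt_mem_nhds hK0)
  have hMpos : ∀ᶠ z in 𝓝 p, 0 < M z := hM.continuousAt.eventually (lt_mem_nhds hM0)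
  have heq : (fun z => V z * V z * M z) =ᶠ[𝓝 p] fun z => U z * U z * K z := by
    filter_upwards [hVe, hKpos, hMpos] with z hz h1 h2
    have h3 : Real.sqrt ((M z)⁻¹ * K z) * Real.sqrt ((M z)⁻¹ * K z) = (M z)⁻¹ * K z :=
      Real.mul_self_sqrt (by positivity)
    have h4 : V z * V z * M z = U z * U z *
        (Real.sqrt ((M z)⁻¹ * K z) * Real.sqrt ((M z)⁻¹ * K z)) * M z := by
      rw [hz]
      ring
    rw [h4, h3]
    field_simp
  obtain ⟨hL1, hL2⟩ := c5_aux V M p hV hM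
  obtain ⟨hR1, hR2⟩ := c5_aux U K p hU hK
  have e1 : ∀ b : E, 2 * V p * M p * fderiv ℝ V p b + V p ^ 2 * fderiv ℝ M p b =
      2 * U p * K p * fderiv ℝ U p b + U p ^ 2 * fderiv ℝ K p b := by
    intro b
    rw [← hL1 b, ← hR1 b, heq.fderiv_eq]
  have hsq : 0 < Real.sqrt ((M p)⁻¹ * K p) := Real.sqrt_pos.mpr (by positivity)
  have hV0 : 0 < V p := by
    rw [hVe.self_of_nhds]
    positivity
  refine ⟨fun w h1 h2 => ?_, fun v h1 h2 h3 h4 h5 b => ?_⟩
  · have h6 := e1 w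
    rw [h1, h2] at h6
    have h7 : U p * (2 * K p) * (fderiv ℝ U p w + U p / (2 * K p) * fderiv ℝ K p w) = 0 := by
      have h8 : U p * (2 * K p) * (fderiv ℝ U p w + U p / (2 * K p) * fderiv ℝ K p w) =
          2 * U p * K p * fderiv ℝ U p w + U p ^ 2 * fderiv ℝ K p w := by
        field_simp
      rw [h8, ← h6]
      ring
    rcases mul_eq_zero.mp h7 with h9 | h9
    · exact absurd h9 (by positivity)
    · exact h9
  · have h6 : fderiv ℝ V p v = 0 := by
      have h7 := e1 v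
      rw [h1, h3, h4] at h7
      have h8 : V p * M p * 2 * fderiv ℝ V p v = 0 := by linarith
      rcases mul_eq_zero.mp h8 with h9 | h9
      · exact absurd h9 (by positivity)
      · exact h9
    have h7 : fderiv ℝ (fderiv ℝ (fun z => V z * V z * M z)) p v b =
        fderiv ℝ (fderiv ℝ (fun z => U z * U z * K z)) p v b := by
      rw [heq.fderiv.fderiv_eq]
    rw [hL2, hR2, h1, h2, h3, h4, h5, h6] at h7
    simp at h7
    have h8 : U p * (2 * K p) * (fderiv ℝ (fderiv ℝ U) p v b +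
        U p / (2 * K p) * fderiv ℝ (fderiv ℝ K) p v b) = 0 := by
      have h9 : U p * (2 * K p) * (fderiv ℝ (fderiv ℝ U) p v b +
        U p / (2 * K p) * fderiv ℝ (fderiv ℝ K) p v b) =
          2 * U p * K p * fderiv ℝ (fderiv ℝ U) p v b + U p ^ 2 * fderiv ℝ (fderiv ℝ K) p v b := by
        field_simp
      rw [h9]
      linarith
    rcases mul_eq_zero.mp h8 with h9 | h9
    · exact absurd h9 (by positivity)
    · exact h9

end Pool.Agent.Lib.H54E
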