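import Pool.Agent.Lib.H54E.Defs2

set_option autoImplicit false

/-!
# H54E, chunk C6 (S/M, algebra)
-/

namespace Pool.Agent.Lib.H54E

open Filter Topology

theorem c6_aux {n : ℕ} (g : Fin n → Fin n → ℝ) (h0 : ∀ i, g i i = 0) :
    ∑ i : Fin n, ∑ j ∈ Finset.Ioi i, (g i j + g j i) = ∑ i : Fin n, ∑ j : Fin n, g i j := by
  have h1 := Finset.sum_sum_Ioi_add_eq_sum_sum_off_diag (fun i j : Fin n => g j i)
  rw [h1]
  refine Finset.sum_congr rfl fun i _ => ?_
  rw [← Finset.sum_compl_add_sum {i} (fun j => g i j), Finset.sum_singleton, h0, add_zero]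

/-- **C6.** Summation lemmas.

PROOF. (a): choose `w = Pi.single k z`: `w i - w j` is `z` for `i = k ≠ j`, `-z` for `j = k ≠ i`,
`0` otherwise, so the sum is `⟪∑_{j > k} b k j, z⟫ - ⟪∑_{i < k} b i k, z⟫ = ⟪∑_j b k j, z⟫` (as
`b i k = - b k i`, in particular `b k k = 0`); this for `z = ∑_j b k j` gives `0`. Alternatively first
show `∑_{i<j} ⟪b i j, w i - w j⟫ = ∑_i ⟪∑_j b i j, w i⟫`.
(b): choose `a = Pi.single k 1`. -/
theorem c6_a {n : ℕ} (b : Fin n → Fin n → Pl) (hb : ∀ i j, b j i = - b i j)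
    (h : ∀ w : Conf n, ∑ i : Fin n, ∑ j ∈ Finset.Ioi i, inner ℝ (b i j) (w i - w j) = 0) :
    ∀ i, ∑ j, b i j = 0 := by
  have h0 : ∀ i, b i i = 0 := fun i => by
    have h1 := hb i i
    have h2 : (2 : ℝ) • b i i = 0 := by
      rw [two_smul]
      nth_rewrite 1 [h1]
      exact neg_add_cancel _
    exact (smul_eq_zero.1 h2).resolve_left two_ne_zero
  have h2 := h fun i => ∑ j, b i j
  have h3 : ∑ i : Fin n, ∑ j ∈ Finset.Ioi i,
      (inner ℝ (b i j) (∑ k, b i k) + inner ℝ (b j i) (∑ k, b j k)) = 0 := by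
    rw [← h2]
    refine Finset.sum_congr rfl fun i _ => Finset.sum_congr rfl fun j _ => ?_
    rw [hb i j, inner_neg_left, inner_sub_right]
    ring
  rw [c6_aux (fun i j => inner ℝ (b i j) (∑ k, b i k)) fun i => by rw [h0, inner_zero_left]] at h3
  have h4 : ∑ i : Fin n, ‖∑ j, b i j‖ ^ 2 = 0 := by
    rw [← h3]
    refine Finset.sum_congr rfl fun i _ => ?_
    rw [← sum_inner, real_inner_self_eq_norm_sq]
  intro i
  have h5 := (Finset.sum_eq_zero_iff_of_nonneg fun i _ => sq_nonneg _).1 h4 i (Finset.mem_univ i)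
  exact norm_eq_zero.1 ((pow_eq_zero_iff two_ne_zero).1 h5)

theorem c6_b {n : ℕ} (m : Fin n → ℝ) (t : Fin n → Fin n → ℝ) (ht : ∀ i j, t j i = t i j)
    (h0 : ∀ i, t i i = 0)
    (h : ∀ a : Fin n → ℝ,
      ∑ i : Fin n, ∑ j ∈ Finset.Ioi i, (a i * m j + m i * a j) * t i j = 0) :
    ∀ i, ∑ j, m j * t i j = 0 := by
  have h2 := h fun i => ∑ j, m j * t i j
  have h3 : ∑ i : Fin n, ∑ j ∈ Finset.Ioi i,
      ((∑ k, m k * t i k) * m j * t i j + (∑ k, m k * t j k) * m i * t j i) = 0 := by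
    rw [← h2]
    refine Finset.sum_congr rfl fun i _ => Finset.sum_congr rfl fun j _ => ?_
    rw [ht i j]
    ring
  rw [c6_aux (fun i j => (∑ k, m k * t i k) * m j * t i j) fun i => by rw [h0, mul_zero]] at h3
  have h4 : ∑ i : Fin n, (∑ j, m j * t i j) ^ 2 = 0 := by
    rw [← h3]
    refine Finset.sum_congr rfl fun i _ => ?_
    rw [sq, Finset.mul_sum]
    refine Finset.sum_congr rfl fun j _ => ?_
    ring
  intro i
  have h5 := (Finset.sum_eq_zero_iff_of_nonneg fun i _ => sq_nonneg _).1 h4 i (Finset.mem_univ i)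
  exact (pow_eq_zero_iff two_ne_zero).1 h5

end Pool.Agent.Lib.H54E
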