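import Pool.Agent.Lib.H54E.B5
import Pool.Agent.Lib.H54E.C1
import Pool.Agent.Lib.H54E.C4
import Pool.Agent.Lib.H54E.C5
import Pool.Agent.Lib.H54E.C6

set_option autoImplicit false

/-!
# H54E, chunk C7 (M)
-/

namespace Pool.Agent.Lib.H54E

open Filter Topology


/-- The sum of the masses, as a continuous linear map. -/
private noncomputable def c7M (n : ℕ) : ((Fin n → ℝ) × Conf n) →L[ℝ] ℝ :=
  ∑ i : Fin n, (ContinuousLinearMap.proj (R := ℝ) (φ := fun _ : Fin n => ℝ) i).comp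
    (ContinuousLinearMap.fst ℝ (Fin n → ℝ) (Conf n))

private theorem c7M_apply (n : ℕ) (z : (Fin n → ℝ) × Conf n) : c7M n z = ∑ i, z.1 i := by
  simp [c7M]

private theorem c7_abs {n : ℕ} (hn : 2 ≤ n) (p : (Fin n → ℝ) × Conf n) (hp : p ∈ dom n) :
    (∀ w : (Fin n → ℝ) × Conf n, c7M n w = 0 → fderiv ℝ pot p w = 0 →
      fderiv ℝ (fun z : (Fin n → ℝ) × Conf n => newton z.1 z.2) p w +
        newton p.1 p.2 / (2 * kin p.1 p.2) *
          fderiv ℝ (fun z : (Fin n → ℝ) × Conf n => kin z.1 z.2) p w = 0) ∧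
    (∀ v : (Fin n → ℝ) × Conf n, c7M n v = 0 →
      fderiv ℝ (fun z : (Fin n → ℝ) × Conf n => newton z.1 z.2) p v = 0 →
      fderiv ℝ (fun z : (Fin n → ℝ) × Conf n => kin z.1 z.2) p v = 0 →
      fderiv ℝ (fderiv ℝ pot) p v = 0 → ∀ b : (Fin n → ℝ) × Conf n,
      fderiv ℝ (fderiv ℝ (fun z : (Fin n → ℝ) × Conf n => newton z.1 z.2)) p v b +
        newton p.1 p.2 / (2 * kin p.1 p.2) *
          fderiv ℝ (fderiv ℝ (fun z : (Fin n → ℝ) × Conf n => kin z.1 z.2)) p v b = 0) := by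
  have hne : Nonempty (Fin n) := ⟨⟨0, by omega⟩⟩
  have hpos : ∀ z : (Fin n → ℝ) × Conf n, z ∈ dom n → 0 < ∑ i, z.1 i := fun z hz =>
    Finset.sum_pos (fun i _ => hz.1 i) Finset.univ_nonempty
  have hM0 : 0 < (c7M n) p := by
    rw [c7M_apply]; exact hpos p hp
  have hev : ∀ᶠ z in 𝓝 p, pot z = (fun z : (Fin n → ℝ) × Conf n => newton z.1 z.2) z *
      Real.sqrt (((c7M n) z)⁻¹ * (fun z : (Fin n → ℝ) × Conf n => kin z.1 z.2) z) := by
    filter_upwards [(b3_open n).mem_nhds hp] with z hz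
    show pot z = newton z.1 z.2 * Real.sqrt (((c7M n) z)⁻¹ * kin z.1 z.2)
    rw [c7M_apply, ← c1 z.1 (hpos z hz).ne' z.2]
    rfl
  have h := c5 (fun z : (Fin n → ℝ) × Conf n => newton z.1 z.2)
    (fun z : (Fin n → ℝ) × Conf n => kin z.1 z.2) (c7M n) pot p
    ((b3_newton p hp).of_le (by norm_num)) ((b3_kin p).of_le (by norm_num))
    (c7M n).contDiff.contDiffAt ((b3_pot hn p hp).of_le (by norm_num))
    (b3_newton_pos hn p hp) (b3_kin_pos hn p hp) hM0 hev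
  have hd : ∀ q : (Fin n → ℝ) × Conf n, fderiv ℝ (c7M n) q = c7M n := fun q =>
    (c7M n).fderiv
  have hdd : fderiv ℝ (fderiv ℝ (c7M n)) p = 0 := by
    have e : fderiv ℝ (c7M n) = fun _ => c7M n := funext hd
    rw [e]
    exact fderiv_const_apply _
  refine ⟨fun w hw hv => h.1 w (by rw [hd]; exact hw) hv, fun v hv hU hK hV b =>
    h.2 v (by rw [hd]; exact hv) (by rw [hdd]; rfl) hU hK hV b⟩

private theorem c7_dN {n : ℕ} (p : (Fin n → ℝ) × Conf n) (hp : p ∈ dom n) (w : Conf n) :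
    fderiv ℝ (fun z : (Fin n → ℝ) × Conf n => newton z.1 z.2) p (0, w) =
      ∑ i : Fin n, ∑ j ∈ Finset.Ioi i, -(p.1 i * p.1 j * inner ℝ (p.2 i - p.2 j) (w i - w j) *
        (‖p.2 i - p.2 j‖ ^ 3)⁻¹) := by
  rw [(c4_newton p hp).1]
  refine Finset.sum_congr rfl fun i _ => Finset.sum_congr rfl fun j hj => ?_
  have hij : i ≠ j := (Finset.mem_Ioi.1 hj).ne
  rw [c2_first i j p (hp.2 i j hij) 0 w]
  simp

private theorem c7_dK {n : ℕ} (p : (Fin n → ℝ) × Conf n) (w : Conf n) :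
    fderiv ℝ (fun z : (Fin n → ℝ) × Conf n => kin z.1 z.2) p (0, w) =
      ∑ i : Fin n, ∑ j ∈ Finset.Ioi i, 2 * p.1 i * p.1 j *
        inner ℝ (p.2 i - p.2 j) (w i - w j) := by
  rw [(c4_kin p).1]
  refine Finset.sum_congr rfl fun i _ => Finset.sum_congr rfl fun j hj => ?_
  rw [c3_first i j p 0 w]
  simp

/-- **C7.** The critical point equations.

PROOF. `pot z = newton z.1 z.2 * √(M⁻¹ kin)` near `(m, x)`, `M z = ∑ z.1` (`c1`, `∑ m > 0` near
`(m, x)`); `M` is linear and `DM(0, w) = 0`. `c5` (1) with `w = (0, w)` gives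
`D newton (0, w) + (lam/2) D kin (0, w) = 0`, `lam = newton/kin`; by `c4` and `c2_first`, `c3_first`
(with `a = 0`) this is `∑_{i<j} m_i m_j (lam - r⁻³) ⟪x_i - x_j, w_i - w_j⟫ = 0`, for all `w`. `c6_a` with
`b i j = (m i * m j * (lam - r⁻³)) • (x i - x j)`, and division by `m i`. -/
theorem c7 {n : ℕ} (hn : 2 ≤ n) (m : Fin n → ℝ) (x : Conf n) (hx : (m, x) ∈ dom n)
    (hc : ∀ w : Conf n, fderiv ℝ pot (m, x) (0, w) = 0) (i : Fin n) :
    ∑ j, (m j * ((‖x i - x j‖ ^ 3)⁻¹ - newton m x / kin m x)) • (x i - x j) = 0 := by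
  have hK0 : kin m x ≠ 0 := (b3_kin_pos hn (m, x) hx).ne'
  have hm := hx.1
  have key : ∀ w : Conf n, ∑ i : Fin n, ∑ j ∈ Finset.Ioi i,
      inner ℝ ((m i * m j * (newton m x / kin m x - (‖x i - x j‖ ^ 3)⁻¹)) • (x i - x j))
        (w i - w j) = 0 := by
    intro w
    have h := (c7_abs hn (m, x) hx).1 (0, w) (by rw [c7M_apply]; simp) (hc w)
    rw [c7_dN (m, x) hx w, c7_dK (m, x) w, Finset.mul_sum, ← Finset.sum_add_distrib] at h
    rw [← h]
    refine Finset.sum_congr rfl fun i _ => ?_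
    rw [Finset.mul_sum, ← Finset.sum_add_distrib]
    refine Finset.sum_congr rfl fun j _ => ?_
    rw [real_inner_smul_left]
    show m i * m j * (newton m x / kin m x - (‖x i - x j‖ ^ 3)⁻¹) *
        inner ℝ (x i - x j) (w i - w j) =
      -(m i * m j * inner ℝ (x i - x j) (w i - w j) * (‖x i - x j‖ ^ 3)⁻¹) +
      newton m x / (2 * kin m x) * (2 * m i * m j * inner ℝ (x i - x j) (w i - w j))
    field_simp
    ring
  have h1 := c6_a (fun i j => (m i * m j * (newton m x / kin m x - (‖x i - x j‖ ^ 3)⁻¹)) •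
    (x i - x j)) (by
      intro i j
      show (m j * m i * (newton m x / kin m x - (‖x j - x i‖ ^ 3)⁻¹)) • (x j - x i) =
        -((m i * m j * (newton m x / kin m x - (‖x i - x j‖ ^ 3)⁻¹)) • (x i - x j))
      rw [norm_sub_rev (x j) (x i), mul_comm (m j) (m i), ← neg_sub (x i) (x j), smul_neg]) key i
  have h2 := congrArg (fun t => (-(m i)⁻¹) • t) h1
  simp only [smul_zero, Finset.smul_sum, smul_smul] at h2
  rw [← h2]
  refine Finset.sum_congr rfl fun j _ => ?_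
  have hmi : m i ≠ 0 := (hm i).ne'
  congr 1
  field_simp
  ring

end Pool.Agent.Lib.H54E
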