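import Pool.Agent.Lib.H54E.B5
import Pool.Agent.Lib.H54E.C1
import Pool.Agent.Lib.H54E.C4
import Pool.Agent.Lib.H54E.C5
import Pool.Agent.Lib.H54E.C6

set_option autoImplicit false

/-!
# H54E, chunk C8 (M)
-/

namespace Pool.Agent.Lib.H54E

open Filter Topology


/-- The sum of the masses, as a continuous linear map. -/
private noncomputable def c8M (n : ℕ) : ((Fin n → ℝ) × Conf n) →L[ℝ] ℝ :=
  ∑ i : Fin n, (ContinuousLinearMap.proj (R := ℝ) (φ := fun _ : Fin n => ℝ) i).comp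
    (ContinuousLinearMap.fst ℝ (Fin n → ℝ) (Conf n))

private theorem c8M_apply (n : ℕ) (z : (Fin n → ℝ) × Conf n) : c8M n z = ∑ i, z.1 i := by
  simp [c8M]

private theorem c8_abs {n : ℕ} (hn : 2 ≤ n) (p : (Fin n → ℝ) × Conf n) (hp : p ∈ dom n) :
    (∀ w : (Fin n → ℝ) × Conf n, c8M n w = 0 → fderiv ℝ pot p w = 0 →
      fderiv ℝ (fun z : (Fin n → ℝ) × Conf n => newton z.1 z.2) p w +
        newton p.1 p.2 / (2 * kin p.1 p.2) *
          fderiv ℝ (fun z : (Fin n → ℝ) × Conf n => kin z.1 z.2) p w = 0) ∧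
    (∀ v : (Fin n → ℝ) × Conf n, c8M n v = 0 →
      fderiv ℝ (fun z : (Fin n → ℝ) × Conf n => newton z.1 z.2) p v = 0 →
      fderiv ℝ (fun z : (Fin n → ℝ) × Conf n => kin z.1 z.2) p v = 0 →
      fderiv ℝ (fderiv ℝ pot) p v = 0 → ∀ b : (Fin n → ℝ) × Conf n,
      fderiv ℝ (fderiv ℝ (fun z : (Fin n → ℝ) × Conf n => newton z.1 z.2)) p v b +
        newton p.1 p.2 / (2 * kin p.1 p.2) *
          fderiv ℝ (fderiv ℝ (fun z : (Fin n → ℝ) × Conf n => kin z.1 z.2)) p v b = 0) := by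
  have hne : Nonempty (Fin n) := ⟨⟨0, by omega⟩⟩
  have hpos : ∀ z : (Fin n → ℝ) × Conf n, z ∈ dom n → 0 < ∑ i, z.1 i := fun z hz =>
    Finset.sum_pos (fun i _ => hz.1 i) Finset.univ_nonempty
  have hM0 : 0 < (c8M n) p := by
    rw [c8M_apply]; exact hpos p hp
  have hev : ∀ᶠ z in 𝓝 p, pot z = (fun z : (Fin n → ℝ) × Conf n => newton z.1 z.2) z *
      Real.sqrt (((c8M n) z)⁻¹ * (fun z : (Fin n → ℝ) × Conf n => kin z.1 z.2) z) := by
    filter_upwards [(b3_open n).mem_nhds hp] with z hz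
    show pot z = newton z.1 z.2 * Real.sqrt (((c8M n) z)⁻¹ * kin z.1 z.2)
    rw [c8M_apply, ← c1 z.1 (hpos z hz).ne' z.2]
    rfl
  have h := c5 (fun z : (Fin n → ℝ) × Conf n => newton z.1 z.2)
    (fun z : (Fin n → ℝ) × Conf n => kin z.1 z.2) (c8M n) pot p
    ((b3_newton p hp).of_le (by norm_num)) ((b3_kin p).of_le (by norm_num))
    (c8M n).contDiff.contDiffAt ((b3_pot hn p hp).of_le (by norm_num))
    (b3_newton_pos hn p hp) (b3_kin_pos hn p hp) hM0 hev
  have hd : ∀ q : (Fin n → ℝ) × Conf n, fderiv ℝ (c8M n) q = c8M n := fun q =>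
    (c8M n).fderiv
  have hdd : fderiv ℝ (fderiv ℝ (c8M n)) p = 0 := by
    have e : fderiv ℝ (c8M n) = fun _ => c8M n := funext hd
    rw [e]
    exact fderiv_const_apply _
  refine ⟨fun w hw hv => h.1 w (by rw [hd]; exact hw) hv, fun v hv hU hK hV b =>
    h.2 v (by rw [hd]; exact hv) (by rw [hdd]; rfl) hU hK hV b⟩

private theorem c8_dN {n : ℕ} (p : (Fin n → ℝ) × Conf n) (hp : p ∈ dom n) (w : Conf n) :
    fderiv ℝ (fun z : (Fin n → ℝ) × Conf n => newton z.1 z.2) p (0, w) =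
      ∑ i : Fin n, ∑ j ∈ Finset.Ioi i, -(p.1 i * p.1 j * inner ℝ (p.2 i - p.2 j) (w i - w j) *
        (‖p.2 i - p.2 j‖ ^ 3)⁻¹) := by
  rw [(c4_newton p hp).1]
  refine Finset.sum_congr rfl fun i _ => Finset.sum_congr rfl fun j hj => ?_
  have hij : i ≠ j := (Finset.mem_Ioi.1 hj).ne
  rw [c2_first i j p (hp.2 i j hij) 0 w]
  simp

private theorem c8_dK {n : ℕ} (p : (Fin n → ℝ) × Conf n) (w : Conf n) :
    fderiv ℝ (fun z : (Fin n → ℝ) × Conf n => kin z.1 z.2) p (0, w) =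
      ∑ i : Fin n, ∑ j ∈ Finset.Ioi i, 2 * p.1 i * p.1 j *
        inner ℝ (p.2 i - p.2 j) (w i - w j) := by
  rw [(c4_kin p).1]
  refine Finset.sum_congr rfl fun i _ => Finset.sum_congr rfl fun j hj => ?_
  rw [c3_first i j p 0 w]
  simp

/-- **C8.** The second order equations, for a normalised direction.

PROOF. As in `c7` with `c5` (2): `DM(0, v) = 0`, `D²M = 0` (`M z = ∑ z.1` is linear, its second
derivative is `0`), `D kin (0, v) = 2 ∑_{i<j} m_i m_j ⟪x_ij, v_ij⟫ = 0` by `hv` (`c3_first`, `c4`),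
`D newton (0, v) = 0` by `c5` (1) with `w = (0, v)`. So for all `(a, w)`
`D² newton (0, v)(a, w) + (lam/2) D² kin (0, v)(a, w) = 0`, `lam = newton/kin`. By `c2_second`,
`c3_second`, `c4`: with `a = 0`:
`∑_{i<j} m_i m_j (-(r⁻³ - lam) ⟪v_ij, w_ij⟫ + 3 ⟪x_ij, v_ij⟫ r⁻⁵ ⟪x_ij, w_ij⟫) = 0` for all `w`, which is
`c6_a` with `b i j = (m i * m j) • (-(r⁻³ - lam) • v_ij + (3 ⟪x_ij, v_ij⟫ r⁻⁵) • x_ij)`; divide by
`-m i`. With `w = 0`: `∑_{i<j} (a_i m_j + m_i a_j) (lam - r⁻³) ⟪x_ij, v_ij⟫ = 0` for all `a`, which is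
`c6_b`. -/
theorem c8 {n : ℕ} (hn : 2 ≤ n) (m : Fin n → ℝ) (x : Conf n) (hx : (m, x) ∈ dom n)
    (hc : ∀ w : Conf n, fderiv ℝ pot (m, x) (0, w) = 0) (v : Conf n)
    (hv : ∑ i : Fin n, ∑ j ∈ Finset.Ioi i, m i * m j * inner ℝ (x i - x j) (v i - v j) = 0)
    (h2 : fderiv ℝ (fderiv ℝ pot) (m, x) (0, v) = 0) (i : Fin n) :
    (∑ j, ((m j * ((‖x i - x j‖ ^ 3)⁻¹ - newton m x / kin m x)) • (v i - v j)
      - (3 * m j * inner ℝ (x i - x j) (v i - v j) * (‖x i - x j‖ ^ 5)⁻¹) • (x i - x j)) = 0) ∧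
    ∑ j, m j * ((‖x i - x j‖ ^ 3)⁻¹ - newton m x / kin m x)
      * inner ℝ (x i - x j) (v i - v j) = 0 := by
  have hK0 : kin m x ≠ 0 := (b3_kin_pos hn (m, x) hx).ne'
  have hm := hx.1
  have hM : ∀ w : Conf n, c8M n (0, w) = 0 := fun w => by rw [c8M_apply]; simp
  have hK1 : fderiv ℝ (fun z : (Fin n → ℝ) × Conf n => kin z.1 z.2) (m, x) (0, v) = 0 := by
    rw [c8_dK (m, x) v]
    have e : ∑ i : Fin n, ∑ j ∈ Finset.Ioi i, 2 * m i * m j * inner ℝ (x i - x j) (v i - v j) =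
        2 * ∑ i : Fin n, ∑ j ∈ Finset.Ioi i, m i * m j * inner ℝ (x i - x j) (v i - v j) := by
      simp only [Finset.mul_sum]
      refine Finset.sum_congr rfl fun i _ => Finset.sum_congr rfl fun j _ => ?_
      ring
    exact e.trans (by rw [hv, mul_zero])
  have hU1 : fderiv ℝ (fun z : (Fin n → ℝ) × Conf n => newton z.1 z.2) (m, x) (0, v) = 0 := by
    have h := (c8_abs hn (m, x) hx).1 (0, v) (hM v) (hc v)
    rw [hK1, mul_zero, add_zero] at h
    exact h
  have hmain := (c8_abs hn (m, x) hx).2 (0, v) (hM v) hU1 hK1 h2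
  have key : ∀ (a : Fin n → ℝ) (w : Conf n), ∑ i : Fin n, ∑ j ∈ Finset.Ioi i,
      ((a i * m j + m i * a j) * ((newton m x / kin m x - (‖x i - x j‖ ^ 3)⁻¹) *
        inner ℝ (x i - x j) (v i - v j)) +
      inner ℝ ((m i * m j) • ((newton m x / kin m x - (‖x i - x j‖ ^ 3)⁻¹) • (v i - v j) +
        (3 * inner ℝ (x i - x j) (v i - v j) * (‖x i - x j‖ ^ 5)⁻¹) • (x i - x j)))
        (w i - w j)) = 0 := by
    intro a w
    have h := hmain (a, w)
    rw [(c4_newton (m, x) hx).2, (c4_kin (m, x)).2, Finset.mul_sum,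
      ← Finset.sum_add_distrib] at h
    rw [← h]
    refine Finset.sum_congr rfl fun i _ => ?_
    rw [Finset.mul_sum, ← Finset.sum_add_distrib]
    refine Finset.sum_congr rfl fun j hj => ?_
    have hij : i ≠ j := (Finset.mem_Ioi.1 hj).ne
    rw [c2_second i j (m, x) (hx.2 i j hij) v a w, c3_second i j (m, x) v a w]
    rw [real_inner_smul_left, inner_add_left, real_inner_smul_left, real_inner_smul_left]
    have e2 : newton m x / (2 * kin m x) = (newton m x / kin m x) / 2 := by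
      field_simp
    show (a i * m j + m i * a j) * ((newton m x / kin m x - (‖x i - x j‖ ^ 3)⁻¹) *
        inner ℝ (x i - x j) (v i - v j)) +
      m i * m j * ((newton m x / kin m x - (‖x i - x j‖ ^ 3)⁻¹) * inner ℝ (v i - v j) (w i - w j)
        + 3 * inner ℝ (x i - x j) (v i - v j) * (‖x i - x j‖ ^ 5)⁻¹ *
          inner ℝ (x i - x j) (w i - w j)) =
      (- (a i * m j + m i * a j) * inner ℝ (x i - x j) (v i - v j)
          * (‖x i - x j‖ ^ 3)⁻¹
      - m i * m j * inner ℝ (v i - v j) (w i - w j) * (‖x i - x j‖ ^ 3)⁻¹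
      + 3 * m i * m j * inner ℝ (x i - x j) (v i - v j)
          * inner ℝ (x i - x j) (w i - w j) * (‖x i - x j‖ ^ 5)⁻¹) +
      newton m x / (2 * kin m x) * (2 * (a i * m j + m i * a j) *
        inner ℝ (x i - x j) (v i - v j) + 2 * m i * m j * inner ℝ (v i - v j) (w i - w j))
    rw [e2]
    ring
  refine ⟨?_, ?_⟩
  · have h1 := c6_a (fun i j => (m i * m j) •
      ((newton m x / kin m x - (‖x i - x j‖ ^ 3)⁻¹) • (v i - v j) +
        (3 * inner ℝ (x i - x j) (v i - v j) * (‖x i - x j‖ ^ 5)⁻¹) • (x i - x j))) (by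
      intro i j
      show (m j * m i) • ((newton m x / kin m x - (‖x j - x i‖ ^ 3)⁻¹) • (v j - v i) +
        (3 * inner ℝ (x j - x i) (v j - v i) * (‖x j - x i‖ ^ 5)⁻¹) • (x j - x i)) =
        -((m i * m j) • ((newton m x / kin m x - (‖x i - x j‖ ^ 3)⁻¹) • (v i - v j) +
        (3 * inner ℝ (x i - x j) (v i - v j) * (‖x i - x j‖ ^ 5)⁻¹) • (x i - x j)))
      rw [norm_sub_rev (x j) (x i), mul_comm (m j) (m i), ← neg_sub (x i) (x j),
        ← neg_sub (v i) (v j), inner_neg_neg]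
      module) (by
      intro w
      have h := key 0 w
      simpa using h) i
    have h3 := congrArg (fun t => (-(m i)⁻¹) • t) h1
    simp only [smul_zero, Finset.smul_sum, smul_smul, smul_add] at h3
    rw [← h3]
    refine Finset.sum_congr rfl fun j _ => ?_
    have hmi : m i ≠ 0 := (hm i).ne'
    have e3 : -(m i)⁻¹ * (m i * m j) = - m j := by
      field_simp
    have e4 : ∀ r : ℝ, -(m i)⁻¹ * (m i * m j * r) = - m j * r := by
      intro r
      rw [← e3]; ring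
    simp only [e4]
    module
  · have h1 := c6_b m (fun i j => (newton m x / kin m x - (‖x i - x j‖ ^ 3)⁻¹) *
        inner ℝ (x i - x j) (v i - v j)) (by
      intro i j
      show (newton m x / kin m x - (‖x j - x i‖ ^ 3)⁻¹) * inner ℝ (x j - x i) (v j - v i) =
        (newton m x / kin m x - (‖x i - x j‖ ^ 3)⁻¹) * inner ℝ (x i - x j) (v i - v j)
      rw [norm_sub_rev (x j) (x i), ← neg_sub (x i) (x j), ← neg_sub (v i) (v j),
        inner_neg_neg]) (by intro i; simp) (by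
      intro a
      have h := key a 0
      simpa using h) i
    have h3 := congrArg (fun t => -t) h1
    simp only [neg_zero, ← Finset.sum_neg_distrib] at h3
    rw [← h3]
    refine Finset.sum_congr rfl fun j _ => ?_
    ring

end Pool.Agent.Lib.H54E
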