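import Pool.Agent.Lib.H54E.C7
import Pool.Agent.Lib.H54E.C8
import Pool.Agent.Lib.H54E.B11

set_option autoImplicit false

/-!
# H54E, chunk C9 (S/M)
-/

namespace Pool.Agent.Lib.H54E

open Filter Topology

/-- **C9.** A strongly critical mass vector gives a solution of the explicit system.

PROOF. Take `x`, `v` from `b11b`. Let `α = - (∑_{i<j} m_i m_j ⟪x_ij, v_ij⟫) / kin m x` (`kin > 0`,
`b3_kin_pos`) and `v' = v + α • x`: then `∑_{i<j} m_i m_j ⟪x_ij, v'_ij⟫ = 0` (as
`∑_{i<j} m_i m_j ⟪x_ij, x_ij⟫ = kin m x`). `x` is an infinitesimal symmetry (`a = 1`), so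
`D²pot(m,x)(0, x) = 0` by `b5` and `D²pot(m,x)(0, v') = 0`. `v'` is not a symmetry, since `v` is not
(`IsSym` is stable under adding multiples of `x`). `lam = newton / kin > 0` (`b3_newton_pos`). The
equations are `c7`, `c8`. -/
theorem c9 {n : ℕ} (hn : 2 ≤ n) (m : Fin n → ℝ) (hm : m ∈ StronglyCritical n) :
    ∃ (x v : Conf n) (lam : ℝ), SDSys m x v lam ∧ ¬ IsSym x v := by
  classical
  obtain ⟨x, hx, hc, v, hv, h2⟩ := (b11b hn m).1 hm
  have hK : 0 < kin m x := b3_kin_pos hn (m, x) hx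
  have hN : 0 < newton m x := b3_newton_pos hn (m, x) hx
  set S : ℝ := ∑ i : Fin n, ∑ j ∈ Finset.Ioi i,
    m i * m j * inner ℝ (x i - x j) (v i - v j) with hS
  set α : ℝ := -S / kin m x with hα
  let v' : Conf n := v + α • x
  have hv' : ∑ i : Fin n, ∑ j ∈ Finset.Ioi i,
      m i * m j * inner ℝ (x i - x j) (v' i - v' j) = 0 := by
    have h3 : ∀ i j : Fin n, m i * m j * inner ℝ (x i - x j) (v' i - v' j) =
        m i * m j * inner ℝ (x i - x j) (v i - v j) +
          α * (m i * m j * ‖x i - x j‖ ^ 2) := by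
      intro i j
      have h4 : v' i - v' j = (v i - v j) + α • (x i - x j) := by
        simp only [v', Pi.add_apply, Pi.smul_apply, smul_sub]
        abel
      rw [h4, inner_add_right, inner_smul_right, real_inner_self_eq_norm_sq]
      ring
    simp only [h3, Finset.sum_add_distrib, ← Finset.mul_sum]
    have h5 : ∑ i : Fin n, ∑ j ∈ Finset.Ioi i, m i * m j * ‖x i - x j‖ ^ 2 = kin m x := rfl
    rw [h5, ← hS, hα]
    field_simp
    ring
  have h5 : fderiv ℝ (fderiv ℝ pot) (m, x) (0, x) = 0 :=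
    b5 hn (m, x) hx hc x ⟨1, 0, 0, fun i => by simp⟩
  have h2' : fderiv ℝ (fderiv ℝ pot) (m, x) (0, v') = 0 := by
    have h6 : ((0 : Fin n → ℝ), v') = (0, v) + α • ((0 : Fin n → ℝ), x) := by
      refine Prod.ext ?_ ?_
      · simp
      · simp [v']
    rw [h6, map_add, map_smul, h2, h5]
    simp
  have hns : ¬ IsSym x v' := by
    rintro ⟨a, b, c, habc⟩
    apply hv
    refine ⟨a - α, b, c, fun i => ?_⟩
    have h7 := habc i
    have h8 : v i = v' i - α • x i := by
      simp [v']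
    rw [h8, h7, sub_smul]
    abel
  exact ⟨x, v', newton m x / kin m x, ⟨hx.1, hx.2, div_pos hN hK, c7 hn m x hx hc,
    fun i => (c8 hn m x hx hc v' hv' h2' i).1, fun i => (c8 hn m x hx hc v' hv' h2' i).2⟩, hns⟩

end Pool.Agent.Lib.H54E
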