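import Mathlib

set_option autoImplicit false

/-!
# H54E, chunk D1 (M, pure)
-/

namespace Pool.Agent.Lib.H54E

open Filter Topology

theorem D1_key {n : ℕ} (ξ β : Fin n → ℝ)
    (hξ : ∀ i j, i ≠ j → ξ i ≠ ξ j) (i1 j1 : Fin n) (hij : i1 ≠ j1) :
    ∃ (i0 j0 : Fin n) (t : ℝ), ξ j0 < ξ i0 ∧ β i0 - β j0 = t * (ξ i0 - ξ j0) ∧
      ∀ k l, ξ k < ξ l → β l - β k ≤ t * (ξ l - ξ k) := by
  classical
  obtain ⟨p, hp, hmax⟩ := Finset.exists_max_image
    (Finset.univ.offDiag : Finset (Fin n × Fin n))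
    (fun p => (β p.1 - β p.2) / (ξ p.1 - ξ p.2)) ⟨(i1, j1), by simp [hij]⟩
  have hpne : p.1 ≠ p.2 := by simpa using hp
  have hle : ∀ k l, ξ k < ξ l →
      β l - β k ≤ ((β p.1 - β p.2) / (ξ p.1 - ξ p.2)) * (ξ l - ξ k) := by
    intro k l hkl
    have hne : l ≠ k := by
      rintro rfl
      exact lt_irrefl _ hkl
    have := hmax (l, k) (by simp [hne])
    simp only at this
    have h0 : 0 < ξ l - ξ k := by linarith
    rwa [div_le_iff₀ h0] at this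
  have h0 : ξ p.1 - ξ p.2 ≠ 0 := sub_ne_zero.mpr (hξ _ _ hpne)
  rcases lt_or_gt_of_ne (hξ _ _ hpne) with h | h
  · refine ⟨p.2, p.1, _, h, ?_, hle⟩
    field_simp
    ring
  · refine ⟨p.1, p.2, _, h, ?_, hle⟩
    field_simp

/-- **D1.** (Conley.) Points `ξ_i` on a line, distinct, positive masses: if `ξ` and `β` solve the
same linear system `∑_j m_j (|ξ_i - ξ_j|⁻³ - lam) (β_i - β_j) = 0`, then `β` is an affine function of
`ξ`.

PROOF. If `n ≤ 1` it is trivial (`t = 0`). Otherwise let `t` be the maximum of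
`(β_i - β_j)/(ξ_i - ξ_j)` over the finitely many pairs `i ≠ j` (`Finset.exists_max_image` on
`Finset.univ.offDiag`), attained at `(i₀, j₀)`; the quotient is symmetric, so we may assume
`ξ_{j₀} < ξ_{i₀}`. Let `γ = β - t ξ`: it solves the same system, `γ_{i₀} = γ_{j₀} =: γ₀`, and `γ` is
nonincreasing as a function of `ξ`: if `ξ_k < ξ_l` then `γ_l ≤ γ_k`. Subtract the equation of
`j₀` from the equation of `i₀`:
`0 = ∑_k m_k (|ξ_{i₀} - ξ_k|⁻³ - |ξ_{j₀} - ξ_k|⁻³) (γ₀ - γ_k)` (the `lam` terms cancel because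
`γ_{i₀} = γ_{j₀}`; in the terms `k = i₀`, `k = j₀` the last factor is `0`). Every term is `≥ 0`: if
`ξ_k > ξ_{i₀}`: `0 < ξ_k - ξ_{i₀} < ξ_k - ξ_{j₀}`, so the first factor is `> 0`, and `γ_k ≤ γ₀`. If
`ξ_k < ξ_{j₀}`: the first factor is `< 0` and `γ_k ≥ γ₀`. If `ξ_{j₀} < ξ_k < ξ_{i₀}`:
`γ₀ ≤ γ_k ≤ γ₀`. So all terms are `0` (`Finset.sum_eq_zero_iff_of_nonneg`) and `γ_k = γ₀` for all `k`
(in the first two cases the first factor is not `0`). Hence `β_k = t ξ_k + γ₀`. -/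
theorem d1 {n : ℕ} (m ξ β : Fin n → ℝ) (lam : ℝ) (hm : ∀ i, 0 < m i)
    (hξ : ∀ i j, i ≠ j → ξ i ≠ ξ j)
    (h1 : ∀ i, ∑ j, m j * ((|ξ i - ξ j| ^ 3)⁻¹ - lam) * (ξ i - ξ j) = 0)
    (h2 : ∀ i, ∑ j, m j * ((|ξ i - ξ j| ^ 3)⁻¹ - lam) * (β i - β j) = 0) :
    ∃ t c : ℝ, ∀ i, β i = t * ξ i + c := by
  classical
  by_cases hn : ∃ i j : Fin n, i ≠ j
  swap
  · push Not at hn
    by_cases hn0 : Nonempty (Fin n)
    · obtain ⟨i0⟩ := hn0
      exact ⟨0, β i0, fun i => by rw [hn i i0]; ring⟩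
    · exact ⟨0, 0, fun i => (hn0 ⟨i⟩).elim⟩
  obtain ⟨i1, j1, hij1⟩ := hn
  obtain ⟨i0, j0, t, hlt, heq, hle⟩ := D1_key ξ β hξ i1 j1 hij1
  have hγ : ∀ i, ∑ j, m j * ((|ξ i - ξ j| ^ 3)⁻¹ - lam) *
      ((β i - t * ξ i) - (β j - t * ξ j)) = 0 := by
    intro i
    have e1 := h1 i
    have e2 := h2 i
    have e3 : ∑ j, m j * ((|ξ i - ξ j| ^ 3)⁻¹ - lam) *
      ((β i - t * ξ i) - (β j - t * ξ j)) =
      ∑ j, m j * ((|ξ i - ξ j| ^ 3)⁻¹ - lam) * (β i - β j) -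
        t * ∑ j, m j * ((|ξ i - ξ j| ^ 3)⁻¹ - lam) * (ξ i - ξ j) := by
      rw [Finset.mul_sum, ← Finset.sum_sub_distrib]
      refine Finset.sum_congr rfl fun j _ => ?_
      ring
    rw [e3, e1, e2]
    ring
  set γ : Fin n → ℝ := fun i => β i - t * ξ i with hγd
  have hγ0 : γ i0 = γ j0 := by
    simp only [hγd]
    linarith
  have hmono : ∀ k l, ξ k < ξ l → γ l ≤ γ k := by
    intro k l hkl
    have := hle k l hkl
    simp only [hγd]
    linarith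
  have hdiff : ∑ k, m k * ((|ξ i0 - ξ k| ^ 3)⁻¹ - (|ξ j0 - ξ k| ^ 3)⁻¹) * (γ i0 - γ k) = 0 := by
    have e1 := hγ i0
    have e2 := hγ j0
    have e3 : ∑ k, m k * ((|ξ i0 - ξ k| ^ 3)⁻¹ - (|ξ j0 - ξ k| ^ 3)⁻¹) * (γ i0 - γ k) =
      ∑ j, m j * ((|ξ i0 - ξ j| ^ 3)⁻¹ - lam) * (γ i0 - γ j) -
      ∑ j, m j * ((|ξ j0 - ξ j| ^ 3)⁻¹ - lam) * (γ j0 - γ j) := by
      rw [← Finset.sum_sub_distrib]
      refine Finset.sum_congr rfl fun j _ => ?_
      rw [hγ0]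
      ring
    rw [e3]
    have e1' : ∑ j, m j * ((|ξ i0 - ξ j| ^ 3)⁻¹ - lam) * (γ i0 - γ j) = 0 := e1
    have e2' : ∑ j, m j * ((|ξ j0 - ξ j| ^ 3)⁻¹ - lam) * (γ j0 - γ j) = 0 := e2
    rw [e1', e2']
    ring
  have hterm : ∀ k, 0 ≤ m k * ((|ξ i0 - ξ k| ^ 3)⁻¹ - (|ξ j0 - ξ k| ^ 3)⁻¹) * (γ i0 - γ k) ∧
      (m k * ((|ξ i0 - ξ k| ^ 3)⁻¹ - (|ξ j0 - ξ k| ^ 3)⁻¹) * (γ i0 - γ k) = 0 →
        γ k = γ i0) := by
    intro k
    rcases lt_trichotomy (ξ k) (ξ j0) with hk | hk | hk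
    · -- k left of j0
      have a1 : 0 < |ξ j0 - ξ k| := abs_pos.mpr (by linarith)
      have a2 : |ξ j0 - ξ k| < |ξ i0 - ξ k| := by
        rw [abs_of_pos (by linarith), abs_of_pos (by linarith)]
        linarith
      have a3 : (|ξ i0 - ξ k| ^ 3)⁻¹ < (|ξ j0 - ξ k| ^ 3)⁻¹ := by
        apply inv_strictAnti₀ (by positivity)
        exact pow_lt_pow_left₀ a2 a1.le (by norm_num)
      have a4 : γ i0 - γ k ≤ 0 := by
        have := hmono k j0 hk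
        linarith
      have a5 : m k * ((|ξ i0 - ξ k| ^ 3)⁻¹ - (|ξ j0 - ξ k| ^ 3)⁻¹) < 0 :=
        mul_neg_of_pos_of_neg (hm k) (by linarith)
      refine ⟨mul_nonneg_of_nonpos_of_nonpos a5.le a4, fun h => ?_⟩
      rcases mul_eq_zero.mp h with h' | h'
      · exact absurd h' a5.ne
      · linarith
    · have hk' : k = j0 := by
        by_contra hne
        exact hξ k j0 hne hk
      subst hk'
      rw [hγ0]
      simp
    rcases lt_trichotomy (ξ k) (ξ i0) with hk2 | hk2 | hk2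
    · have b1 := hmono j0 k hk
      have b2 := hmono k i0 hk2
      have b3 : γ k = γ i0 := le_antisymm (by linarith) b2
      rw [b3]
      simp
    · have hk' : k = i0 := by
        by_contra hne
        exact hξ k i0 hne hk2
      subst hk'
      simp
    · have a1 : 0 < |ξ i0 - ξ k| := abs_pos.mpr (by linarith)
      have a2 : |ξ i0 - ξ k| < |ξ j0 - ξ k| := by
        rw [abs_of_neg (by linarith), abs_of_neg (by linarith)]
        linarith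
      have a3 : (|ξ j0 - ξ k| ^ 3)⁻¹ < (|ξ i0 - ξ k| ^ 3)⁻¹ := by
        apply inv_strictAnti₀ (by positivity)
        exact pow_lt_pow_left₀ a2 a1.le (by norm_num)
      have a4 : 0 ≤ γ i0 - γ k := by
        have := hmono i0 k hk2
        linarith
      have a5 : 0 < m k * ((|ξ i0 - ξ k| ^ 3)⁻¹ - (|ξ j0 - ξ k| ^ 3)⁻¹) :=
        mul_pos (hm k) (by linarith)
      refine ⟨mul_nonneg a5.le a4, fun h => ?_⟩
      rcases mul_eq_zero.mp h with h' | h'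
      · exact absurd h' a5.ne'
      · linarith
  have hall := (Finset.sum_eq_zero_iff_of_nonneg (fun k _ => (hterm k).1)).mp hdiff
  refine ⟨t, γ i0, fun k => ?_⟩
  have := (hterm k).2 (hall k (Finset.mem_univ k))
  simp only [hγd] at this ⊢
  linarith

end Pool.Agent.Lib.H54E
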