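import Pool.Agent.Lib.H54E.D6

set_option autoImplicit false

/-!
# H54E, chunk D10 (S)
-/

namespace Pool.Agent.Lib.H54E

open Filter Topology

/-- **D10.** `τ = 0`, so all `⟪x_ij, v_ij⟫` vanish.

PROOF. Put the formula into `hs.mix i`, multiply by `m i` and sum over `i`:
`0 = ∑_{i ≠ j} m_i m_j (r⁻³ - lam) τ (r² - lam r⁵) = τ ∑_{i ≠ j} m_i m_j r⁵ (r⁻³ - lam)²`. All terms of
the last sum are `≥ 0`; if it is `0` then `r_ij⁻³ = lam` for all `i ≠ j` and the four points are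
equidistant, which is impossible (`d6a`). So `τ = 0`. -/
theorem d10 (m : Fin 4 → ℝ) (x v : Conf 4) (lam : ℝ) (hs : SDSys m x v lam) (τ : ℝ)
    (hτ : ∀ i j, i ≠ j → inner ℝ (x i - x j) (v i - v j) =
      τ * (‖x i - x j‖ ^ 2 - lam * ‖x i - x j‖ ^ 5)) :
    ∀ i j, i ≠ j → inner ℝ (x i - x j) (v i - v j) = 0 := by
  by_cases h0 : τ = 0
  · intro i j hij
    rw [hτ i j hij, h0, zero_mul]
  exfalso
  have h1 : τ * ∑ i, ∑ j, m i * m j * (‖x i - x j‖ ^ 5 * ((‖x i - x j‖ ^ 3)⁻¹ - lam) ^ 2) =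
      0 := by
    have e : τ * ∑ i, ∑ j, m i * m j * (‖x i - x j‖ ^ 5 * ((‖x i - x j‖ ^ 3)⁻¹ - lam) ^ 2) =
        ∑ i, m i * ∑ j, m j * ((‖x i - x j‖ ^ 3)⁻¹ - lam) * inner ℝ (x i - x j) (v i - v j) := by
      rw [Finset.mul_sum]
      refine Finset.sum_congr rfl fun i _ => ?_
      rw [Finset.mul_sum, Finset.mul_sum]
      refine Finset.sum_congr rfl fun j _ => ?_
      by_cases hij : i = j
      · subst hij
        simp
      · rw [hτ i j hij]
        have hr : 0 < ‖x i - x j‖ := norm_pos_iff.mpr (sub_ne_zero.mpr (hs.ne i j hij))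
        generalize ‖x i - x j‖ = r at hr ⊢
        have hr' := hr.ne'
        field_simp
    rw [e]
    refine Finset.sum_eq_zero fun i _ => ?_
    rw [hs.mix i, mul_zero]
  have h2 := (mul_eq_zero.mp h1).resolve_left h0
  have hnn : ∀ i j, 0 ≤ m i * m j * (‖x i - x j‖ ^ 5 * ((‖x i - x j‖ ^ 3)⁻¹ - lam) ^ 2) := by
    intro i j
    have := hs.pos i
    have := hs.pos j
    positivity
  have h3 : ∀ i j, i ≠ j → (‖x i - x j‖ ^ 3)⁻¹ = lam := by
    intro i j hij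
    have h4 := (Finset.sum_eq_zero_iff_of_nonneg
      (fun i _ => Finset.sum_nonneg fun j _ => hnn i j)).mp h2 i (Finset.mem_univ i)
    have h5 := (Finset.sum_eq_zero_iff_of_nonneg (fun j _ => hnn i j)).mp h4
      j (Finset.mem_univ j)
    have hr : 0 < ‖x i - x j‖ := norm_pos_iff.mpr (sub_ne_zero.mpr (hs.ne i j hij))
    have h6 : m i * m j ≠ 0 := (mul_pos (hs.pos i) (hs.pos j)).ne'
    have h7 := (mul_eq_zero.mp h5).resolve_left h6
    have h8 := (mul_eq_zero.mp h7).resolve_left (pow_pos hr 5).ne'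
    have h9 := (pow_eq_zero_iff (two_ne_zero)).mp h8
    linarith
  refine d6a x ‖x 0 - x 1‖ (norm_pos_iff.mpr (sub_ne_zero.mpr (hs.ne 0 1 (by decide)))) ?_
  intro i j hij
  have h4 : ‖x i - x j‖ ^ 3 = ‖x 0 - x 1‖ ^ 3 :=
    inv_injective ((h3 i j hij).trans (h3 0 1 (by decide)).symm)
  exact (pow_left_inj₀ (norm_nonneg _) (norm_nonneg _) (by norm_num)).mp h4

end Pool.Agent.Lib.H54E
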