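import Pool.Agent.Lib.H54E.B1
import Pool.Agent.Lib.H54E.Defs2

set_option autoImplicit false

/-!
# H54E, chunk D11 (M, linear algebra)
-/

namespace Pool.Agent.Lib.H54E

open Filter Topology

private theorem d11_comb (x : Conf 4) (Δ : Fin 4 → ℝ) (hΔ : IsDep x Δ) (hΔ3 : Δ 3 ≠ 0)
    (b : Fin 4 → ℝ) (hb3 : b 3 = 0) (hs : ∑ i, b i = 0) (hx : ∑ i, b i • x i = 0) : b = 0 := by
  obtain ⟨t, ht⟩ := hΔ.uniq b hs hx
  have h3 := ht 3
  rw [hb3] at h3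
  have ht0 : t = 0 := by
    rcases mul_eq_zero.mp h3.symm with h | h
    · exact h
    · exact absurd h hΔ3
  funext i
  rw [ht i, ht0]
  simp

/-- **D11.** An infinitesimal motion preserving all distances to first order and the dependency is
a symmetry.

PROOF. Let `p = x 1 - x 0`, `q = x 2 - x 0`. They are linearly independent, i.e. `⟪q, rot p⟫ ≠ 0`:
otherwise `x 0, x 1, x 2` are on a line and there is a nonzero affine dependency `b` with `b 3 = 0`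
(e.g. if `q = s p` (`p ≠ 0`): `b = (s - 1, -s, 1, 0)`), and `hΔ.uniq` gives `b = t Δ`, `t Δ 3 = 0`, so
`t = 0` and `b = 0`, contradiction. By `h`, `v 1 - v 0` is orthogonal to `p ≠ 0`, so
`v 1 - v 0 = b₁ • rot p` (`b1_basis`), and `v 2 - v 0 = b₂ • rot q`. And `h 2 1`:
`⟪q - p, b₂ rot q - b₁ rot p⟫ = - b₁ ⟪q, rot p⟫ - b₂ ⟪p, rot q⟫ = (b₂ - b₁) ⟪q, rot p⟫` (`b1_swap`), so
`b₁ = b₂ =: b`. Let `c = v 0 - b • rot (x 0)`; then `v i = b • rot (x i) + c` for `i = 0, 1, 2`, and for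
`i = 3`: `Δ 3 • v 3 = - ∑_{i<3} Δ i • v i = - ∑_{i<3} Δ i • (b • rot (x i) + c) = Δ 3 • (b • rot (x 3) + c)`
by `hΔ.sum`, `hΔ.sumx`; cancel `Δ 3 ≠ 0`. So `IsSym x v` with `a = 0`. -/
theorem d11 (x v : Conf 4) (Δ : Fin 4 → ℝ) (hΔ : IsDep x Δ) (hΔ0 : ∀ i, Δ i ≠ 0)
    (hne : ∀ i j, i ≠ j → x i ≠ x j) (hw : ∑ i, Δ i • v i = 0)
    (h : ∀ i j, i ≠ j → inner ℝ (x i - x j) (v i - v j) = 0) : IsSym x v := by
  have hΔ3 : Δ 3 ≠ 0 := hΔ0 3
  have hp : x 1 - x 0 ≠ 0 := sub_ne_zero.mpr (hne 1 0 (by decide))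
  have hq : x 2 - x 0 ≠ 0 := sub_ne_zero.mpr (hne 2 0 (by decide))
  have hpq : inner ℝ (rot (x 1 - x 0)) (x 2 - x 0) ≠ 0 := by
    intro h0
    have hb := b1_basis (x 1 - x 0) (x 2 - x 0) hp
    rw [h0, zero_div, zero_smul, add_zero] at hb
    obtain ⟨s, hs⟩ : ∃ s : ℝ, s = inner ℝ (x 1 - x 0) (x 2 - x 0) / ‖x 1 - x 0‖ ^ 2 := ⟨_, rfl⟩
    rw [← hs] at hb
    have hz := d11_comb x Δ hΔ hΔ3 ![s - 1, -s, 1, 0] (by simp) (by
      simp [Fin.sum_univ_four]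
      ring) (by
      simp only [Fin.sum_univ_four, Matrix.cons_val_zero, Matrix.cons_val_one, Matrix.cons_val,
        zero_smul, one_smul, add_zero]
      have h2 : x 2 = s • (x 1 - x 0) + x 0 := by rw [← hb]; abel
      rw [h2]
      module)
    have h1 := congrFun hz 2
    simp at h1
  have hb1 := b1_basis (x 1 - x 0) (v 1 - v 0) hp
  rw [h 1 0 (by decide), zero_div, zero_smul, zero_add] at hb1
  obtain ⟨b₁, hb₁⟩ : ∃ b₁ : ℝ, b₁ = inner ℝ (rot (x 1 - x 0)) (v 1 - v 0) / ‖x 1 - x 0‖ ^ 2 :=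
    ⟨_, rfl⟩
  rw [← hb₁] at hb1
  have hb2 := b1_basis (x 2 - x 0) (v 2 - v 0) hq
  rw [h 2 0 (by decide), zero_div, zero_smul, zero_add] at hb2
  obtain ⟨b₂, hb₂⟩ : ∃ b₂ : ℝ, b₂ = inner ℝ (rot (x 2 - x 0)) (v 2 - v 0) / ‖x 2 - x 0‖ ^ 2 :=
    ⟨_, rfl⟩
  rw [← hb₂] at hb2
  have h21 := h 2 1 (by decide)
  have e1' : x 2 - x 1 = (x 2 - x 0) - (x 1 - x 0) := by abel
  have e2' : v 2 - v 1 = (v 2 - v 0) - (v 1 - v 0) := by abel
  rw [e1', e2', hb1, hb2] at h21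
  have hzq := (b1_inner (x 2 - x 0)).1
  have hzp := (b1_inner (x 1 - x 0)).1
  have hsw := b1_swap (x 1 - x 0) (x 2 - x 0)
  have hcomm : inner ℝ (x 2 - x 0) (rot (x 1 - x 0)) = inner ℝ (rot (x 1 - x 0)) (x 2 - x 0) :=
    real_inner_comm _ _
  have hbb : b₁ = b₂ := by
    have key : (b₂ - b₁) * inner ℝ (rot (x 1 - x 0)) (x 2 - x 0) = 0 := by
      have expand : inner ℝ ((x 2 - x 0) - (x 1 - x 0)) (b₂ • rot (x 2 - x 0) -
          b₁ • rot (x 1 - x 0)) = b₂ * inner ℝ (x 2 - x 0) (rot (x 2 - x 0))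
          - b₁ * inner ℝ (x 2 - x 0) (rot (x 1 - x 0))
          - b₂ * inner ℝ (x 1 - x 0) (rot (x 2 - x 0))
          + b₁ * inner ℝ (x 1 - x 0) (rot (x 1 - x 0)) := by
        rw [inner_sub_left, inner_sub_right, inner_sub_right, inner_smul_right, inner_smul_right,
          inner_smul_right, inner_smul_right]
        ring
      have h21' : inner ℝ ((x 2 - x 0) - (x 1 - x 0)) (b₂ • rot (x 2 - x 0) -
          b₁ • rot (x 1 - x 0)) = 0 := by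
        rw [← hb1, ← hb2]
        rw [← e1', ← e2']
        exact h 2 1 (by decide)
      rw [expand, hzq, hzp, hcomm, hsw] at h21'
      linarith
    rcases mul_eq_zero.mp key with h' | h'
    · linarith
    · exact absurd h' hpq
  have g0 : v 0 = b₁ • rot (x 0) + (v 0 - b₁ • rot (x 0)) := by abel
  have g1 : v 1 = b₁ • rot (x 1) + (v 0 - b₁ • rot (x 0)) := by
    have : v 1 = (v 1 - v 0) + v 0 := by abel
    rw [this, hb1, map_sub, smul_sub]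
    abel
  have g2 : v 2 = b₁ • rot (x 2) + (v 0 - b₁ • rot (x 0)) := by
    have : v 2 = (v 2 - v 0) + v 0 := by abel
    rw [this, hb2, map_sub, smul_sub, hbb]
    abel
  have g3 : v 3 = b₁ • rot (x 3) + (v 0 - b₁ • rot (x 0)) := by
    have hs := hΔ.sum
    have hx := hΔ.sumx
    rw [Fin.sum_univ_four] at hs hx hw
    have hr : Δ 0 • rot (x 0) + Δ 1 • rot (x 1) + Δ 2 • rot (x 2) + Δ 3 • rot (x 3) = 0 := by
      have := congrArg rot hx
      simpa [map_add, map_smul] using this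
    have e3 : Δ 3 • v 3 = Δ 3 • (b₁ • rot (x 3) + (v 0 - b₁ • rot (x 0))) := by
      have w3 : Δ 3 • v 3 = -(Δ 0 • v 0 + Δ 1 • v 1 + Δ 2 • v 2) := by
        rw [eq_neg_iff_add_eq_zero, ← hw]; abel
      have r3 : Δ 3 • rot (x 3) = -(Δ 0 • rot (x 0) + Δ 1 • rot (x 1) + Δ 2 • rot (x 2)) := by
        rw [eq_neg_iff_add_eq_zero, ← hr]; abel
      have d3 : Δ 3 = -(Δ 0 + Δ 1 + Δ 2) := by linarith
      have lhs : Δ 3 • v 3 = -(Δ 0 • (b₁ • rot (x 0) + (v 0 - b₁ • rot (x 0))) +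
          Δ 1 • (b₁ • rot (x 1) + (v 0 - b₁ • rot (x 0))) +
          Δ 2 • (b₁ • rot (x 2) + (v 0 - b₁ • rot (x 0)))) := by
        rw [← g0, ← g1, ← g2]; exact w3
      have rhs : Δ 3 • (b₁ • rot (x 3) + (v 0 - b₁ • rot (x 0))) =
          b₁ • (Δ 3 • rot (x 3)) + Δ 3 • (v 0 - b₁ • rot (x 0)) := by
        module
      rw [lhs, rhs, r3, d3]
      module
    exact smul_right_injective _ hΔ3 e3
  refine ⟨0, b₁, v 0 - b₁ • rot (x 0), ?_⟩
  intro i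
  rw [zero_smul, zero_add]
  fin_cases i
  · exact g0
  · exact g1
  · exact g2
  · exact g3

end Pool.Agent.Lib.H54E
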