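import Mathlib

set_option autoImplicit false

/-!
# H54E, chunk D2 (S, pure)
-/

namespace Pool.Agent.Lib.H54E

open Filter Topology

/-- **D2.** PROOF. Multiply the `i`-th equation by `m i * α i` and sum:
`0 = ∑_{i,j} m_i m_j c_ij (α_i - α_j) α_i = (1/2) ∑_{i,j} m_i m_j c_ij (α_i - α_j)²` (exchange `i` and
`j`, `Finset.sum_comm`, and add). All terms are `≥ 0`, so each is `0`, and `α_i = α_j`. -/
theorem d2 {n : ℕ} (m α : Fin n → ℝ) (c : Fin n → Fin n → ℝ) (hm : ∀ i, 0 < m i)
    (hc : ∀ i j, 0 < c i j) (hs : ∀ i j, c i j = c j i)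
    (h : ∀ i, ∑ j, m j * c i j * (α i - α j) = 0) : ∀ i j, α i = α j := by
  have e1 : ∑ i, ∑ j, m i * m j * c i j * (α i - α j) * α i = 0 := by
    refine Finset.sum_eq_zero fun i _ => ?_
    have := h i
    have e : ∑ j, m i * m j * c i j * (α i - α j) * α i =
        (m i * α i) * ∑ j, m j * c i j * (α i - α j) := by
      rw [Finset.mul_sum]
      refine Finset.sum_congr rfl fun j _ => ?_
      ring
    rw [e, this, mul_zero]
  have e2 : ∑ i, ∑ j, m i * m j * c i j * (α i - α j) * α j = -0 := by
    rw [← e1, Finset.sum_comm, ← Finset.sum_neg_distrib]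
    refine Finset.sum_congr rfl fun i _ => ?_
    rw [← Finset.sum_neg_distrib]
    refine Finset.sum_congr rfl fun j _ => ?_
    rw [hs j i]
    ring
  have e3 : ∑ i, ∑ j, m i * m j * c i j * (α i - α j) ^ 2 = 0 := by
    have : ∑ i, ∑ j, m i * m j * c i j * (α i - α j) ^ 2 =
        ∑ i, ∑ j, m i * m j * c i j * (α i - α j) * α i -
        ∑ i, ∑ j, m i * m j * c i j * (α i - α j) * α j := by
      rw [← Finset.sum_sub_distrib]
      refine Finset.sum_congr rfl fun i _ => ?_
      rw [← Finset.sum_sub_distrib]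
      refine Finset.sum_congr rfl fun j _ => ?_
      ring
    rw [this, e1, e2]
    norm_num
  have hnn : ∀ i j, 0 ≤ m i * m j * c i j * (α i - α j) ^ 2 := by
    intro i j
    have := hm i
    have := hm j
    have := hc i j
    positivity
  have h3 := (Finset.sum_eq_zero_iff_of_nonneg
    (fun i _ => Finset.sum_nonneg fun j _ => hnn i j)).mp e3
  intro i j
  have h4 := (Finset.sum_eq_zero_iff_of_nonneg (fun j _ => hnn i j)).mp (h3 i (Finset.mem_univ i))
    j (Finset.mem_univ j)
  have h5 : m i * m j * c i j ≠ 0 := by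
    have := hm i
    have := hm j
    have := hc i j
    positivity
  have h6 : (α i - α j) ^ 2 = 0 := by
    rcases mul_eq_zero.mp h4 with h' | h'
    · exact absurd h' h5
    · exact h'
  have h7 : α i - α j = 0 := by
    exact pow_eq_zero_iff (two_ne_zero) |>.mp h6
  linarith

end Pool.Agent.Lib.H54E
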