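import Pool.Agent.Lib.H54E.B1
import Pool.Agent.Lib.H54E.Defs2
import Pool.Agent.Lib.H54E.D1
import Pool.Agent.Lib.H54E.D2

set_option autoImplicit false

/-!
# H54E, chunk D3 (M)
-/

namespace Pool.Agent.Lib.H54E

open Filter Topology

theorem D3_aux {n : ℕ} (m : Fin n → ℝ) (x v : Conf n) (lam : ℝ) (hs : SDSys m x v lam)
    (z e : Pl) (ξ : Fin n → ℝ) (he : ‖e‖ = 1) (hx : ∀ i, x i = z + ξ i • e) : IsSym x v := by
  have hd : ∀ i j, x i - x j = (ξ i - ξ j) • e := by
    intro i j
    rw [hx i, hx j, sub_smul]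
    abel
  have hnorm : ∀ i j, ‖x i - x j‖ = |ξ i - ξ j| := by
    intro i j
    rw [hd i j, norm_smul, he, mul_one, Real.norm_eq_abs]
  have hee : inner ℝ e e = (1 : ℝ) := by
    rw [real_inner_self_eq_norm_sq, he]
    norm_num
  have hre : inner ℝ (rot e) e = (0 : ℝ) := (b1_inner e).2.1
  have hξ : ∀ i j, i ≠ j → ξ i ≠ ξ j := by
    intro i j hij h
    apply hs.ne i j hij
    rw [hx i, hx j, h]
  set α : Fin n → ℝ := fun i => inner ℝ e (v i) with hα
  set β : Fin n → ℝ := fun i => inner ℝ (rot e) (v i) with hβ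
  have hv : ∀ i, v i = α i • e + β i • rot e := by
    intro i
    have he0 : e ≠ 0 := by
      intro h0
      rw [h0, norm_zero] at he
      exact zero_ne_one he
    have := b1_basis e (v i) he0
    rw [he] at this
    simpa using this
  have hin : ∀ i j, inner ℝ (x i - x j) (v i - v j) = (ξ i - ξ j) * (α i - α j) := by
    intro i j
    rw [hd i j, real_inner_smul_left, inner_sub_right]
  have h1 : ∀ i, ∑ j, m j * ((|ξ i - ξ j| ^ 3)⁻¹ - lam) * (ξ i - ξ j) = 0 := by
    intro i
    have := congrArg (fun w => inner ℝ e w) (hs.cc i)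
    simp only [inner_sum, inner_zero_right] at this
    rw [← this]
    refine Finset.sum_congr rfl fun j _ => ?_
    rw [hnorm i j, hd i j, real_inner_smul_right, real_inner_smul_right, hee, mul_one]
  have h2 : ∀ i, ∑ j, m j * ((|ξ i - ξ j| ^ 3)⁻¹ - lam) * (β i - β j) = 0 := by
    intro i
    have := congrArg (fun w => inner ℝ (rot e) w) (hs.lin i)
    simp only [inner_sum, inner_zero_right] at this
    rw [← this]
    refine Finset.sum_congr rfl fun j _ => ?_
    rw [inner_sub_right, real_inner_smul_right, real_inner_smul_right, hnorm i j, hd i j,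
      real_inner_smul_right, hre, inner_sub_right]
    ring
  have h3 : ∀ i, ∑ j, m j * (2 * (|ξ i - ξ j| ^ 3)⁻¹ + lam) * (α i - α j) = 0 := by
    intro i
    have := congrArg (fun w => inner ℝ e w) (hs.lin i)
    simp only [inner_sum, inner_zero_right] at this
    have h4 : ∑ j, m j * (2 * (|ξ i - ξ j| ^ 3)⁻¹ + lam) * (α i - α j) = -0 := by
      rw [← this, ← Finset.sum_neg_distrib]
      refine Finset.sum_congr rfl fun j _ => ?_
      rw [inner_sub_right, real_inner_smul_right, real_inner_smul_right, hin i j, hnorm i j,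
        hd i j, real_inner_smul_right, hee, inner_sub_right]
      by_cases hij : ξ i - ξ j = 0
      · have : i = j := by
          by_contra hne
          exact hξ i j hne (sub_eq_zero.mp hij)
        subst this
        simp
      · have ha : |ξ i - ξ j| ≠ 0 := abs_ne_zero.mpr hij
        have hsq : (ξ i - ξ j) * (ξ i - ξ j) = |ξ i - ξ j| ^ 2 := by
          rw [sq_abs]
          ring
        have hr : (ξ i - ξ j) * (ξ i - ξ j) * (|ξ i - ξ j| ^ 5)⁻¹ = (|ξ i - ξ j| ^ 3)⁻¹ := by
          rw [hsq]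
          field_simp
        have e5 : 3 * m j * ((ξ i - ξ j) * (α i - α j)) * (|ξ i - ξ j| ^ 5)⁻¹ *
            ((ξ i - ξ j) * 1) = 3 * m j * (α i - α j) *
            ((ξ i - ξ j) * (ξ i - ξ j) * (|ξ i - ξ j| ^ 5)⁻¹) := by ring
        rw [e5, hr]
        simp only [hα]
        ring
    rw [h4, neg_zero]
  obtain ⟨t, c, htc⟩ := d1 m ξ β lam hs.pos hξ h1 h2
  have hconst := d2 m α (fun i j => 2 * (|ξ i - ξ j| ^ 3)⁻¹ + lam) hs.pos
    (fun i j => by
      have := hs.lam_pos
      positivity)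
    (fun i j => by rw [abs_sub_comm]) h3
  by_cases hne : Nonempty (Fin n)
  · obtain ⟨i0⟩ := hne
    refine ⟨0, t, α i0 • e + c • rot e - t • rot z, fun i => ?_⟩
    rw [hv i, hconst i i0, htc i, hx i, map_add, map_smul]
    module
  · exact ⟨0, 0, 0, fun i => (hne ⟨i⟩).elim⟩

/-- **D3.** On a line there is no strongly degenerate pair (any number of points).

PROOF. `x i = z + ξ i • e`. If `n = 0` trivial (`Fin 0`); if `e = 0` or `n = 1` then by `hs.ne` there
is at most one index and `v` is constant (`a = b = 0`, `c = v i`). Otherwise normalise: `‖e‖ = 1`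
(replace `e` by `e/‖e‖`, `ξ` by `‖e‖ ξ`). `ξ` is injective. Let `α i = ⟪e, v i⟫`,
`β i = ⟪rot e, v i⟫`, so `v i = α i • e + β i • rot e` (`b1_basis`), `‖x i - x j‖ = |ξ i - ξ j|`,
`⟪x i - x j, v i - v j⟫ = (ξ i - ξ j)(α i - α j)`. Inner product of `hs.cc i` with `e`: hypothesis `h1`
of `d1`. Inner product of `hs.lin i` with `rot e` (the second part of each term is a multiple of
`x i - x j`, orthogonal to `rot e`): hypothesis `h2` of `d1` for `β`. So `β i = t ξ i + c`. Inner
product of `hs.lin i` with `e`: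
`∑_j m_j ((r⁻³ - lam)(α_i - α_j) - 3 (ξ_i-ξ_j)² (α_i - α_j) r⁻⁵) = - ∑_j m_j (2 r⁻³ + lam) (α_i - α_j) = 0`
for `r = |ξ_i - ξ_j|` (for `j = i` both sides are `0`); `d2` with `c i j = 2 (|ξ i - ξ j| ^ 3)⁻¹ + lam`
(positive as `lam > 0`): `α` is constant `= α₀`. So
`v i = t • rot (x i) + (α₀ • e + c • rot e - t • rot z)`. -/
theorem d3 {n : ℕ} (m : Fin n → ℝ) (x v : Conf n) (lam : ℝ) (hs : SDSys m x v lam)
    (hl : OnLine x) : IsSym x v := by
  obtain ⟨z, e, ξ, hx⟩ := hl
  by_cases he : e = 0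
  · by_cases hne : Nonempty (Fin n)
    · obtain ⟨i0⟩ := hne
      refine ⟨0, 0, v i0, fun i => ?_⟩
      have : i = i0 := by
        by_contra hne
        apply hs.ne i i0 hne
        rw [hx i, hx i0, he]
        simp
      rw [this]
      simp
    · exact ⟨0, 0, 0, fun i => (hne ⟨i⟩).elim⟩
  · have hn : ‖e‖ ≠ 0 := norm_ne_zero_iff.mpr he
    refine D3_aux m x v lam hs z (‖e‖⁻¹ • e) (fun i => ξ i * ‖e‖) ?_ ?_
    · rw [norm_smul, norm_inv, norm_norm, inv_mul_cancel₀ hn]
    · intro i
      rw [hx i, smul_smul, mul_assoc, mul_inv_cancel₀ hn, mul_one]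

end Pool.Agent.Lib.H54E
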