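import Pool.Agent.Lib.H54E.Defs2

set_option autoImplicit false

/-!
# H54E, chunk D4 (M, linear algebra)
-/

namespace Pool.Agent.Lib.H54E

open Filter Topology

/-- **D4.** Four points of the plane, not on a line, have a one-dimensional space of affine
dependencies.

PROOF. The linear map `T b = (∑ b i, ∑ b i • x i)` from `Fin 4 → ℝ` (dimension 4) to `ℝ × Pl`
(dimension 3) has a nonzero kernel (`LinearMap.exists_ne_zero_of_...`, `finrank` inequality);
let `Δ ≠ 0` be in it. If the kernel had dimension `≥ 2` then the range would have dimension `≤ 2`, so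
some nonzero functional `(s, w) ↦ λ s + ⟪u, w⟫` on `ℝ × Pl` would vanish on the range; evaluated at
`T (Pi.single i 1) = (1, x i)`: `λ + ⟪u, x i⟫ = 0` for all `i`. `u ≠ 0` (otherwise `λ = 0` too); then
all `x i` are on the line `{z | ⟪u, z⟫ = -λ}`: `OnLine x`, with `e = rot u`, base point `x 0` and
`ξ i = ⟪rot u, x i - x 0⟫/‖u‖²`. Contradiction. (Or a direct proof: three of the points are affinely
independent, etc.) -/
theorem d4 (x : Conf 4) (hx : ¬ OnLine x) : ∃ Δ : Fin 4 → ℝ, IsDep x Δ := by
  classical
  let T : (Fin 4 → ℝ) →ₗ[ℝ] (ℝ × Pl) :=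
    { toFun := fun b => (∑ i, b i, ∑ i, b i • x i)
      map_add' := by
        intro b c
        refine Prod.ext ?_ ?_
        · simp [Finset.sum_add_distrib]
        · simp [add_smul, Finset.sum_add_distrib]
      map_smul' := by
        intro r b
        refine Prod.ext ?_ ?_
        · simp [Finset.mul_sum]
        · simp [Finset.smul_sum, mul_smul] }
  have hT : ∀ b, T b = (∑ i, b i, ∑ i, b i • x i) := fun b => rfl
  have hsurj : LinearMap.range T = ⊤ := by
    by_contra hns
    obtain ⟨φ, hφ0, hφ⟩ := Submodule.exists_le_ker_of_lt_top _ (lt_top_iff_ne_top.2 hns)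
    have h1 : ∀ i, φ (1, x i) = 0 := by
      intro i
      have h2 : T (Pi.single i 1) = (1, x i) := by
        rw [hT]
        refine Prod.ext ?_ ?_
        · simp
        · show ∑ j, (Pi.single i (1 : ℝ) : Fin 4 → ℝ) j • x j = x i
          rw [Finset.sum_eq_single i]
          · simp
          · intro j _ hj
            simp [hj]
          · intro h
            exact absurd (Finset.mem_univ i) h
      rw [← h2]
      exact hφ ⟨_, rfl⟩
    have h3 : ∀ (t : ℝ) (w : Pl), φ (t, w) = t * φ (1, 0) + w 0 * φ (0, !₂[1, 0]) +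
        w 1 * φ (0, !₂[0, 1]) := by
      intro t w
      have h4 : ((t, w) : ℝ × Pl) = t • ((1, 0) : ℝ × Pl) + w 0 • ((0, !₂[1, 0]) : ℝ × Pl) +
          w 1 • ((0, !₂[0, 1]) : ℝ × Pl) := by
        refine Prod.ext ?_ ?_
        · simp
        · ext k
          fin_cases k <;> simp
      rw [h4]
      simp only [map_add, map_smul, smul_eq_mul]
    set l := φ (1, 0) with hl
    set a := φ (0, !₂[1, 0]) with ha
    set b := φ (0, !₂[0, 1]) with hb
    have h5 : ∀ i, l + x i 0 * a + x i 1 * b = 0 := by
      intro i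
      have := h1 i
      rw [h3] at this
      linarith
    by_cases hab : a ^ 2 + b ^ 2 = 0
    · have ha0 : a = 0 := by nlinarith [sq_nonneg a, sq_nonneg b]
      have hb0 : b = 0 := by nlinarith [sq_nonneg a, sq_nonneg b]
      have hl0 : l = 0 := by
        have := h5 0
        rw [ha0, hb0] at this
        linarith
      apply hφ0
      apply LinearMap.ext
      rintro ⟨t, w⟩
      rw [h3, hl0, ha0, hb0]
      simp
    · apply hx
      refine ⟨x 0, !₂[-b, a], fun i => (-b * (x i 0 - x 0 0) + a * (x i 1 - x 0 1)) /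
        (a ^ 2 + b ^ 2), fun i => ?_⟩
      have h6 : a * (x i 0 - x 0 0) + b * (x i 1 - x 0 1) = 0 := by
        have h7 := h5 i
        have h8 := h5 0
        linarith
      ext k
      fin_cases k
      · simp
        field_simp
        linear_combination a * h6
      · simp
        field_simp
        linear_combination b * h6
  have hker : Module.finrank ℝ (LinearMap.ker T) = 1 := by
    have h1 := LinearMap.finrank_range_add_finrank_ker T
    rw [hsurj, finrank_top, Module.finrank_prod, finrank_euclideanSpace_fin,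
      Module.finrank_fin_fun, Module.finrank_self] at h1
    omega
  obtain ⟨⟨Δ, hΔ⟩, hΔ0, hΔ1⟩ := finrank_eq_one_iff'.1 hker
  have hΔT : T Δ = 0 := hΔ
  refine ⟨Δ, ⟨?_, congrArg Prod.fst hΔT, congrArg Prod.snd hΔT, ?_⟩⟩
  · intro h
    apply hΔ0
    exact Subtype.ext h
  · intro b hb1 hb2
    have hbT : b ∈ LinearMap.ker T := by
      rw [LinearMap.mem_ker, hT, hb1, hb2]
      rfl
    obtain ⟨t, ht⟩ := hΔ1 ⟨b, hbT⟩
    refine ⟨t, fun i => ?_⟩
    have h2 := congrArg (fun z : LinearMap.ker T => (z : Fin 4 → ℝ) i) ht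
    simp only [SetLike.val_smul, Pi.smul_apply, smul_eq_mul] at h2
    exact h2.symm

end Pool.Agent.Lib.H54E
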