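import Pool.Agent.Lib.H54E.Defs2

set_option autoImplicit false

/-!
# H54E, chunk D5 (S/M, linear algebra)
-/

namespace Pool.Agent.Lib.H54E

open Filter Topology

/-- **D5.** Symmetric stresses have rank one.

PROOF. For each `i` let `b_i(j) = - S i j` for `j ≠ i` and `b_i(i) = ∑_{j ≠ i} S i j`. Then
`∑_j b_i(j) = 0` and `∑_j b_i(j) • x j = ∑_{j ≠ i} S i j • (x i - x j) = 0`, so `b_i = c_i Δ`
(`hΔ.uniq`). So `S i j = - c_i Δ_j` for `j ≠ i`, and by symmetry `c_i Δ_j = c_j Δ_i` for all `i, j`
(for `i = j` trivial). As `Δ_k ≠ 0` for some `k` (`hΔ.ne`): `c_i = (c_k/Δ_k) Δ_i` for all `i`.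
`κ = - c_k/Δ_k`. -/
theorem d5 {n : ℕ} (x : Conf n) (Δ : Fin n → ℝ) (hΔ : IsDep x Δ) (S : Fin n → Fin n → ℝ)
    (hS : ∀ i j, S i j = S j i) (h : ∀ i, ∑ j, S i j • (x i - x j) = 0) :
    ∃ κ : ℝ, ∀ i j, i ≠ j → S i j = κ * (Δ i * Δ j) := by
  classical
  -- the dependency attached to each row
  have key : ∀ i, ∃ t : ℝ, ∀ j, (if j = i then ∑ k ∈ Finset.univ.erase i, S i k else - S i j)
      = t * Δ j := by
    intro i
    refine hΔ.uniq (fun j => if j = i then ∑ k ∈ Finset.univ.erase i, S i k else - S i j) ?_ ?_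
    · rw [← Finset.add_sum_erase Finset.univ _ (Finset.mem_univ i)]
      rw [if_pos rfl]
      have : ∑ j ∈ Finset.univ.erase i,
          (if j = i then ∑ k ∈ Finset.univ.erase i, S i k else - S i j)
          = ∑ j ∈ Finset.univ.erase i, - S i j := by
        refine Finset.sum_congr rfl fun j hj => ?_
        rw [if_neg (Finset.ne_of_mem_erase hj)]
      rw [this, Finset.sum_neg_distrib]
      ring
    · rw [← Finset.add_sum_erase Finset.univ _ (Finset.mem_univ i)]
      rw [if_pos rfl]
      have : ∑ j ∈ Finset.univ.erase i,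
          (if j = i then ∑ k ∈ Finset.univ.erase i, S i k else - S i j) • x j
          = ∑ j ∈ Finset.univ.erase i, - (S i j • x j) := by
        refine Finset.sum_congr rfl fun j hj => ?_
        rw [if_neg (Finset.ne_of_mem_erase hj), neg_smul]
      rw [this, Finset.sum_smul, Finset.sum_neg_distrib, ← sub_eq_add_neg,
        ← Finset.sum_sub_distrib]
      have h1 := h i
      rw [← Finset.add_sum_erase Finset.univ _ (Finset.mem_univ i)] at h1
      rw [sub_self, smul_zero, zero_add] at h1
      rw [← h1]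
      refine Finset.sum_congr rfl fun j _ => ?_
      rw [smul_sub]
  choose c hc using key
  have hS' : ∀ i j, i ≠ j → S i j = - (c i * Δ j) := by
    intro i j hij
    have := hc i j
    rw [if_neg (Ne.symm hij)] at this
    linarith
  have hsym : ∀ i j, c i * Δ j = c j * Δ i := by
    intro i j
    by_cases hij : i = j
    · rw [hij]
    · have h1 := hS' i j hij
      have h2 := hS' j i (Ne.symm hij)
      have h3 := hS i j
      linarith
  obtain ⟨k, hk⟩ : ∃ k, Δ k ≠ 0 := by
    by_contra hcon
    push Not at hcon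
    exact hΔ.ne (funext hcon)
  refine ⟨- (c k / Δ k), fun i j hij => ?_⟩
  rw [hS' i j hij]
  have h1 := hsym i k
  have h2 : c i = c k / Δ k * Δ i := by
    field_simp
    linarith
  rw [h2]
  ring

end Pool.Agent.Lib.H54E
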