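import Pool.Agent.Lib.H54E.Defs2

set_option autoImplicit false

/-!
# H54E, chunk D6 (S/M, geometry)
-/

namespace Pool.Agent.Lib.H54E

open Filter Topology

/-- **D6a.** There are no four equidistant points in the plane.

PROOF. Let `u = x 1 - x 0`, `v = x 2 - x 0`, `w = x 3 - x 0`: `|u|² = |v|² = |w|² = ρ²` and
`⟪u,v⟫ = ⟪u,w⟫ = ⟪v,w⟫ = ρ²/2` (from `|u - v|² = ρ²`, ...). Then `v - w` is orthogonal to `u`, and
`⟪v - w, v⟫ = ρ²/2`, `⟪v - w, v + w - u⟫ = 0`; in coordinates: the Gram determinant of `u, v, w` is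
`ρ⁶/2 ≠ 0` but vanishes for three vectors of the plane. (`nlinarith`/`polyrith` style or: `u` and
`v + w - u` are both orthogonal to `v - w ≠ 0`, so parallel: `v + w - u = s u`; inner product with
`u`: `ρ²/2 + ρ²/2 - ρ² = s ρ²`, so `s = 0` and `v + w = u`; norm: `3 ρ² = ρ²`.) -/
theorem d6a (x : Conf 4) (ρ : ℝ) (hρ : 0 < ρ) (h : ∀ i j, i ≠ j → ‖x i - x j‖ = ρ) : False := by
  have key : ∀ i j, i ≠ j → (x i 0 - x j 0) ^ 2 + (x i 1 - x j 1) ^ 2 = ρ ^ 2 := by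
    intro i j hij
    have h1 := h i j hij
    rw [← h1, EuclideanSpace.norm_sq_eq, Fin.sum_univ_two]
    simp [sq_abs]
  have h01 := key 1 0 (by decide)
  have h02 := key 2 0 (by decide)
  have h03 := key 3 0 (by decide)
  have h12 := key 1 2 (by decide)
  have h13 := key 1 3 (by decide)
  have h23 := key 2 3 (by decide)
  obtain ⟨u0, hu0⟩ : ∃ u, u = x 1 0 - x 0 0 := ⟨_, rfl⟩
  obtain ⟨u1, hu1⟩ : ∃ u, u = x 1 1 - x 0 1 := ⟨_, rfl⟩
  obtain ⟨v0, hv0⟩ : ∃ u, u = x 2 0 - x 0 0 := ⟨_, rfl⟩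
  obtain ⟨v1, hv1⟩ : ∃ u, u = x 2 1 - x 0 1 := ⟨_, rfl⟩
  obtain ⟨w0, hw0⟩ : ∃ u, u = x 3 0 - x 0 0 := ⟨_, rfl⟩
  obtain ⟨w1, hw1⟩ : ∃ u, u = x 3 1 - x 0 1 := ⟨_, rfl⟩
  have e1 : u0 * u0 + u1 * u1 = ρ ^ 2 := by rw [hu0, hu1]; linarith
  have e2 : v0 * v0 + v1 * v1 = ρ ^ 2 := by rw [hv0, hv1]; linarith
  have e3 : w0 * w0 + w1 * w1 = ρ ^ 2 := by rw [hw0, hw1]; linarith
  have e4 : (u0 - v0) ^ 2 + (u1 - v1) ^ 2 = ρ ^ 2 := by
    rw [hu0, hu1, hv0, hv1, ← h12]; ring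
  have e5 : (u0 - w0) ^ 2 + (u1 - w1) ^ 2 = ρ ^ 2 := by
    rw [hu0, hu1, hw0, hw1, ← h13]; ring
  have e6 : (v0 - w0) ^ 2 + (v1 - w1) ^ 2 = ρ ^ 2 := by
    rw [hv0, hv1, hw0, hw1, ← h23]; ring
  have f1 : u0 * v0 + u1 * v1 = ρ ^ 2 / 2 := by linarith
  have f2 : u0 * w0 + u1 * w1 = ρ ^ 2 / 2 := by linarith
  have f3 : v0 * w0 + v1 * w1 = ρ ^ 2 / 2 := by linarith
  have g : (u0 * u0 + u1 * u1) * (v0 * v0 + v1 * v1) * (w0 * w0 + w1 * w1)
      + 2 * (u0 * v0 + u1 * v1) * (u0 * w0 + u1 * w1) * (v0 * w0 + v1 * w1)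
      - (u0 * u0 + u1 * u1) * (v0 * w0 + v1 * w1) ^ 2
      - (v0 * v0 + v1 * v1) * (u0 * w0 + u1 * w1) ^ 2
      - (w0 * w0 + w1 * w1) * (u0 * v0 + u1 * v1) ^ 2 = 0 := by ring
  rw [e1, e2, e3, f1, f2, f3] at g
  have : 0 < ρ ^ 6 := by positivity
  nlinarith

/-- **D6b.** A line contains at most two points at distance `ρ` of a given point.

PROOF. `a, b, c` distinct with `α a + β b + γ c = 0`, `α + β + γ = 0`, not all coefficients `0`, are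
on a line: if `α ≠ 0`, `a = -(β/α) b - (γ/α) c = b + s (c - b)` with `s = -γ/α`, `b ≠ c`; the function
`s ↦ |b + s (c - b) - z|²` is a quadratic polynomial in `s` with leading coefficient `|c - b|² ≠ 0` and
takes the value `ρ²` at `0`, `1` and `s`; so `s = 0` or `s = 1`, i.e. `a = b` or `a = c`:
contradiction. If `α = 0` then `β (b - c) = 0` and `β = 0 = γ`. -/
theorem d6b (z a b c : Pl) (ρ α β γ : ℝ) (hab : a ≠ b) (hac : a ≠ c) (hbc : b ≠ c)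
    (ha : ‖z - a‖ = ρ) (hb : ‖z - b‖ = ρ) (hc : ‖z - c‖ = ρ)
    (h0 : α + β + γ = 0) (h1 : α • a + β • b + γ • c = 0) : α = 0 ∧ β = 0 ∧ γ = 0 := by
  have hP : 2 * inner ℝ (z - a) (b - a) = ‖b - a‖ ^ 2 := by
    have h2 := norm_sub_sq_real (z - a) (b - a)
    rw [sub_sub_sub_cancel_right, ha, hb] at h2
    linarith
  have hR : 2 * inner ℝ (z - a) (c - a) = ‖c - a‖ ^ 2 := by
    have h2 := norm_sub_sq_real (z - a) (c - a)
    rw [sub_sub_sub_cancel_right, ha, hc] at h2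
    linarith
  have hlin : β • (b - a) + γ • (c - a) = 0 := by
    have hα : α = -(β + γ) := by linarith
    rw [hα] at h1
    rw [← h1]
    module
  have hQ : 0 < ‖b - a‖ ^ 2 := by
    have : 0 < ‖b - a‖ := norm_pos_iff.mpr (sub_ne_zero.mpr (Ne.symm hab))
    positivity
  have hR0 : 0 < ‖c - a‖ ^ 2 := by
    have : 0 < ‖c - a‖ := norm_pos_iff.mpr (sub_ne_zero.mpr (Ne.symm hac))
    positivity
  have h3 : β * ‖b - a‖ ^ 2 + γ * ‖c - a‖ ^ 2 = 0 := by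
    have h4 : inner ℝ (z - a) (β • (b - a) + γ • (c - a)) = 0 := by
      rw [hlin, inner_zero_right]
    rw [inner_add_right, inner_smul_right, inner_smul_right] at h4
    rw [← hP, ← hR]
    linarith
  have h5 : β ^ 2 * ‖b - a‖ ^ 2 = γ ^ 2 * ‖c - a‖ ^ 2 := by
    have h6 : β • (b - a) = -(γ • (c - a)) := eq_neg_of_add_eq_zero_left hlin
    have h7 := congrArg (fun v : Pl => ‖v‖ ^ 2) h6
    simp only [norm_neg, norm_smul, mul_pow, Real.norm_eq_abs, sq_abs] at h7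
    exact h7
  have hβ : β = 0 := by
    by_contra hβ
    have h8 : β ^ 2 * ‖b - a‖ ^ 2 * (‖b - a‖ ^ 2 - ‖c - a‖ ^ 2) = 0 := by
      have h9 : β * ‖b - a‖ ^ 2 = - (γ * ‖c - a‖ ^ 2) := by linarith
      have h10 : (β * ‖b - a‖ ^ 2) ^ 2 = (γ * ‖c - a‖ ^ 2) ^ 2 := by rw [h9]; ring
      have h11 : β ^ 2 * ‖b - a‖ ^ 2 * ‖c - a‖ ^ 2 = γ ^ 2 * ‖c - a‖ ^ 2 * ‖c - a‖ ^ 2 := by
        rw [h5]
      linarith [h10, h11]
    have h12 : ‖b - a‖ ^ 2 - ‖c - a‖ ^ 2 = 0 := by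
      rcases mul_eq_zero.mp h8 with h | h
      · exfalso
        have : 0 < β ^ 2 * ‖b - a‖ ^ 2 := by positivity
        linarith
      · exact h
    have h13 : ‖b - a‖ ^ 2 = ‖c - a‖ ^ 2 := by linarith
    have h14 : (β + γ) * ‖c - a‖ ^ 2 = 0 := by
      rw [h13] at h3
      linarith
    have h15 : β + γ = 0 := by
      rcases mul_eq_zero.mp h14 with h | h
      · exact h
      · exact absurd h hR0.ne'
    have h16 : γ = -β := by linarith
    rw [h16] at hlin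
    have h17 : β • (b - c) = 0 := by
      rw [← hlin]
      module
    rcases smul_eq_zero.mp h17 with h | h
    · exact hβ h
    · exact hbc (sub_eq_zero.mp h)
  have hγ : γ = 0 := by
    rw [hβ] at h3
    have : γ * ‖c - a‖ ^ 2 = 0 := by linarith
    rcases mul_eq_zero.mp this with h | h
    · exact h
    · exact absurd h hR0.ne'
  exact ⟨by linarith, hβ, hγ⟩

end Pool.Agent.Lib.H54E
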