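import Pool.Agent.Lib.H54E.D5
import Pool.Agent.Lib.H54E.D6

set_option autoImplicit false

/-!
# H54E, chunk D7 (S/M)
-/

namespace Pool.Agent.Lib.H54E

open Filter Topology

theorem D7_dist (x : Conf 4) (lam : ℝ) (i a j b : Fin 4)
    (h1 : (‖x i - x a‖ ^ 3)⁻¹ = lam) (h2 : (‖x j - x b‖ ^ 3)⁻¹ = lam) :
    ‖x i - x a‖ = ‖x j - x b‖ := by
  have h3 : ‖x i - x a‖ ^ 3 = ‖x j - x b‖ ^ 3 := inv_injective (h1.trans h2.symm)
  exact (pow_left_inj₀ (norm_nonneg _) (norm_nonneg _) (by norm_num)).mp h3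

theorem D7_aux (x : Conf 4) (lam : ℝ) (Δ : Fin 4 → ℝ) (hΔ : IsDep x Δ)
    (hne : ∀ i j, i ≠ j → x i ≠ x j) (i a b c : Fin 4)
    (hab : a ≠ b) (hac : a ≠ c) (hbc : b ≠ c)
    (hcov : ∀ j, j = i ∨ j = a ∨ j = b ∨ j = c)
    (hR : ∀ f : Fin 4 → ℝ, ∑ j, f j = f i + f a + f b + f c)
    (hP : ∀ f : Fin 4 → Pl, ∑ j, f j = f i + f a + f b + f c)
    (ha : (‖x i - x a‖ ^ 3)⁻¹ = lam) (hb : (‖x i - x b‖ ^ 3)⁻¹ = lam)
    (hc : (‖x i - x c‖ ^ 3)⁻¹ = lam) (hi : Δ i = 0) : False := by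
  have h0 : Δ a + Δ b + Δ c = 0 := by
    have := hΔ.sum
    rw [hR, hi] at this
    linarith
  have h1 : Δ a • x a + Δ b • x b + Δ c • x c = 0 := by
    have := hΔ.sumx
    rw [hP, hi, zero_smul, zero_add] at this
    exact this
  obtain ⟨h2, h3, h4⟩ := d6b (x i) (x a) (x b) (x c) (‖x i - x a‖) (Δ a) (Δ b) (Δ c)
    (hne _ _ hab) (hne _ _ hac) (hne _ _ hbc) rfl (D7_dist x lam i b i a hb ha)
    (D7_dist x lam i c i a hc ha) h0 h1
  apply hΔ.ne
  funext j
  rcases hcov j with h | h | h | h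
  · rw [h, hi]
    rfl
  · rw [h, h2]
    rfl
  · rw [h, h3]
    rfl
  · rw [h, h4]
    rfl

/-- **D7.** For four points not on a line (`IsDep`), the stress of the central configuration is
`κ Δ_i Δ_j` with `κ ≠ 0` and no `Δ_i` is `0`.

PROOF. `S i j = m i * m j * (r⁻³ - lam)` for `i ≠ j` is symmetric, and `∑_j S i j • (x i - x j) = 0` is
`m i` times `hs.cc i` (the term `j = i` is `0`; use `d5` with this `S`). So `κ` exists.
`κ ≠ 0`: otherwise `(r_ij ^ 3)⁻¹ = lam` for all `i ≠ j`, all distances are equal to the same positive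
number `ρ` (`x ↦ x ^ 3` is injective): contradiction with `d6a`.
`Δ i ≠ 0`: if `Δ i = 0` then `(‖x i - x j‖ ^ 3)⁻¹ = lam` for the three `j ≠ i`, so the distances of
`x i` from the other three points are equal, and `Δ` is an affine dependency between these three
points (`hΔ.sum`, `hΔ.sumx`, sums over `Fin 4` with `Fin.sum_univ_four`), so by `d6b` `Δ = 0`:
contradiction with `hΔ.ne`. (Do the four cases `i = 0, 1, 2, 3` by `fin_cases`, or one lemma.) -/
theorem d7 (m : Fin 4 → ℝ) (x v : Conf 4) (lam : ℝ) (hs : SDSys m x v lam) (Δ : Fin 4 → ℝ)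
    (hΔ : IsDep x Δ) :
    ∃ κ : ℝ, κ ≠ 0 ∧ (∀ i, Δ i ≠ 0) ∧
      ∀ i j, i ≠ j → m i * m j * ((‖x i - x j‖ ^ 3)⁻¹ - lam) = κ * (Δ i * Δ j) := by
  classical
  obtain ⟨κ, hκ⟩ := d5 x Δ hΔ (fun i j => m i * m j * ((‖x i - x j‖ ^ 3)⁻¹ - lam))
    (by
      intro i j
      rw [norm_sub_rev]
      ring)
    (by
      intro i
      have e : ∑ j, (m i * m j * ((‖x i - x j‖ ^ 3)⁻¹ - lam)) • (x i - x j) =
          m i • ∑ j, (m j * ((‖x i - x j‖ ^ 3)⁻¹ - lam)) • (x i - x j) := by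
        rw [Finset.smul_sum]
        refine Finset.sum_congr rfl fun j _ => ?_
        rw [smul_smul, mul_assoc]
      rw [e, hs.cc i, smul_zero])
  have hz : ∀ i j, i ≠ j → κ * (Δ i * Δ j) = 0 → (‖x i - x j‖ ^ 3)⁻¹ = lam := by
    intro i j hij h0
    have h1 := hκ i j hij
    rw [h0] at h1
    have h2 : m i * m j ≠ 0 := (mul_pos (hs.pos i) (hs.pos j)).ne'
    rcases mul_eq_zero.mp h1 with h | h
    · exact absurd h h2
    · linarith
  refine ⟨κ, ?_, ?_, fun i j hij => hκ i j hij⟩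
  · intro h0
    have hall : ∀ i j, i ≠ j → (‖x i - x j‖ ^ 3)⁻¹ = lam := by
      intro i j hij
      exact hz i j hij (by rw [h0, zero_mul])
    exact d6a x ‖x 0 - x 1‖ (norm_pos_iff.mpr (sub_ne_zero.mpr (hs.ne 0 1 (by decide))))
      (fun i j hij => D7_dist x lam i j 0 1 (hall i j hij) (hall 0 1 (by decide)))
  · intro i hi
    have hi' : ∀ j, i ≠ j → (‖x i - x j‖ ^ 3)⁻¹ = lam := by
      intro j hij
      exact hz i j hij (by rw [hi, zero_mul, mul_zero])
    fin_cases i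
    · exact D7_aux x lam Δ hΔ hs.ne 0 1 2 3 (by decide) (by decide) (by decide) (by decide)
        (fun f => by rw [Fin.sum_univ_four]) (fun f => by rw [Fin.sum_univ_four])
        (hi' 1 (by decide)) (hi' 2 (by decide)) (hi' 3 (by decide)) hi
    · exact D7_aux x lam Δ hΔ hs.ne 1 0 2 3 (by decide) (by decide) (by decide) (by decide)
        (fun f => by rw [Fin.sum_univ_four]; ring) (fun f => by rw [Fin.sum_univ_four]; abel)
        (hi' 0 (by decide)) (hi' 2 (by decide)) (hi' 3 (by decide)) hi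
    · exact D7_aux x lam Δ hΔ hs.ne 2 0 1 3 (by decide) (by decide) (by decide) (by decide)
        (fun f => by rw [Fin.sum_univ_four]; ring) (fun f => by rw [Fin.sum_univ_four]; abel)
        (hi' 0 (by decide)) (hi' 1 (by decide)) (hi' 3 (by decide)) hi
    · exact D7_aux x lam Δ hΔ hs.ne 3 0 1 2 (by decide) (by decide) (by decide) (by decide)
        (fun f => by rw [Fin.sum_univ_four]; ring) (fun f => by rw [Fin.sum_univ_four]; abel)
        (hi' 0 (by decide)) (hi' 1 (by decide)) (hi' 2 (by decide)) hi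

end Pool.Agent.Lib.H54E
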