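import Pool.Agent.Lib.H54E.B1
import Pool.Agent.Lib.H54E.Defs2

set_option autoImplicit false

/-!
# H54E, chunk D8 (S/M)
-/

namespace Pool.Agent.Lib.H54E

open Filter Topology

/-- **D8.** The mixed equations force `∑ Δ_j v_j = 0`.

PROOF. `m i` times `hs.mix i` is `κ Δ_i ∑_j Δ_j ⟪x i - x j, v i - v j⟫ = 0` (the term `j = i` is `0`), so
`∑_j Δ_j ⟪x i - x j, v i - v j⟫ = 0`. Expand, with `∑ Δ_j = 0`, `∑ Δ_j x_j = 0`, `w = ∑ Δ_j v_j`,
`Q = ∑ Δ_j ⟪x_j, v_j⟫`: `⟪x i, v i⟫ · 0 - ⟪x i, w⟫ - ⟪0, v i⟫ + Q = 0`, so `⟪x i, w⟫ = Q` for all `i`. If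
`w ≠ 0` then all `x i` are on one line: `x i = x 0 + ξ i • rot w` with
`ξ i = ⟪rot w, x i - x 0⟫/‖w‖²` (`b1_basis` style, coordinates): contradiction with `hx`. -/
theorem d8 (m : Fin 4 → ℝ) (x v : Conf 4) (lam : ℝ) (hs : SDSys m x v lam) (Δ : Fin 4 → ℝ)
    (hΔ : IsDep x Δ) (hx : ¬ OnLine x) (κ : ℝ) (hκ : κ ≠ 0) (hΔ0 : ∀ i, Δ i ≠ 0)
    (hS : ∀ i j, i ≠ j → m i * m j * ((‖x i - x j‖ ^ 3)⁻¹ - lam) = κ * (Δ i * Δ j)) :
    ∑ i, Δ i • v i = 0 := by
  have hA : ∀ i, ∑ j, Δ j * inner ℝ (x i - x j) (v i - v j) = 0 := by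
    intro i
    have h1 := hs.mix i
    have e : (κ * Δ i) * ∑ j, Δ j * inner ℝ (x i - x j) (v i - v j) =
        m i * ∑ j, m j * ((‖x i - x j‖ ^ 3)⁻¹ - lam) * inner ℝ (x i - x j) (v i - v j) := by
      rw [Finset.mul_sum, Finset.mul_sum]
      refine Finset.sum_congr rfl fun j _ => ?_
      by_cases hij : i = j
      · subst hij
        simp
      · have := hS i j hij
        linear_combination (-(inner ℝ (x i - x j) (v i - v j))) * this
    rw [h1, mul_zero] at e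
    exact (mul_eq_zero.mp e).resolve_left (mul_ne_zero hκ (hΔ0 i))
  have hB : ∀ i, inner ℝ (∑ j, Δ j • v j) (x i) = ∑ j, Δ j * inner ℝ (x j) (v j) := by
    intro i
    have h := hA i
    have e : ∑ j, Δ j * inner ℝ (x i - x j) (v i - v j) =
        (∑ j, Δ j) * inner ℝ (x i) (v i) - inner ℝ (x i) (∑ j, Δ j • v j) -
        inner ℝ (∑ j, Δ j • x j) (v i) + ∑ j, Δ j * inner ℝ (x j) (v j) := by
      simp only [inner_sum, sum_inner, real_inner_smul_right, real_inner_smul_left,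
        Finset.sum_mul]
      rw [← Finset.sum_sub_distrib, ← Finset.sum_sub_distrib, ← Finset.sum_add_distrib]
      refine Finset.sum_congr rfl fun j _ => ?_
      rw [inner_sub_left, inner_sub_right, inner_sub_right]
      ring
    rw [e, hΔ.sum, hΔ.sumx, inner_zero_left, zero_mul] at h
    rw [real_inner_comm]
    linarith
  by_contra hne
  apply hx
  refine ⟨x 0, rot (∑ i, Δ i • v i),
    fun i => inner ℝ (rot (∑ i, Δ i • v i)) (x i - x 0) / ‖∑ i, Δ i • v i‖ ^ 2, fun i => ?_⟩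
  have h1 := b1_basis (∑ i, Δ i • v i) (x i - x 0) hne
  have h2 : inner ℝ (∑ i, Δ i • v i) (x i - x 0) = (0 : ℝ) := by
    rw [inner_sub_right, hB i, hB 0, sub_self]
  rw [h2, zero_div, zero_smul, zero_add] at h1
  rw [← h1]
  abel

end Pool.Agent.Lib.H54E
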