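import Pool.Agent.Lib.H54E.D5

set_option autoImplicit false

/-!
# H54E, chunk D9 (S/M)
-/

namespace Pool.Agent.Lib.H54E

open Filter Topology

/-- **D9.** The linear equations force `⟪x_ij, v_ij⟫ = τ (r² - lam r⁵)`.

PROOF. Let `T i j = m i * m j * ⟪x i - x j, v i - v j⟫ * (‖x i - x j‖ ^ 5)⁻¹`, symmetric. `m i` times
`hs.lin i`: `3 ∑_j T i j • (x i - x j) = ∑_j (m_i m_j (r⁻³ - lam)) • (v i - v j) =
κ Δ_i ∑_j Δ_j • (v i - v j) = κ Δ_i (0 • v i - ∑ Δ_j v_j) = 0` (term `j = i` is `0`). By `d5`: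
`T i j = τ₀ Δ_i Δ_j` for `i ≠ j`, `= (τ₀/κ) m_i m_j (r⁻³ - lam)`. Divide by `m_i m_j` and multiply by
`r⁵` (`r > 0`): `⟪x_ij, v_ij⟫ = (τ₀/κ) (r² - lam r⁵)`. -/
theorem d9 (m : Fin 4 → ℝ) (x v : Conf 4) (lam : ℝ) (hs : SDSys m x v lam) (Δ : Fin 4 → ℝ)
    (hΔ : IsDep x Δ) (κ : ℝ) (hκ : κ ≠ 0)
    (hS : ∀ i j, i ≠ j → m i * m j * ((‖x i - x j‖ ^ 3)⁻¹ - lam) = κ * (Δ i * Δ j))
    (hw : ∑ i, Δ i • v i = 0) :
    ∃ τ : ℝ, ∀ i j, i ≠ j → inner ℝ (x i - x j) (v i - v j) =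
      τ * (‖x i - x j‖ ^ 2 - lam * ‖x i - x j‖ ^ 5) := by
  have hsum : ∀ i, ∑ j, (m i * m j * ((‖x i - x j‖ ^ 3)⁻¹ - lam)) • (v i - v j) = 0 := by
    intro i
    have e : ∑ j, (m i * m j * ((‖x i - x j‖ ^ 3)⁻¹ - lam)) • (v i - v j) =
        ∑ j, (κ * (Δ i * Δ j)) • (v i - v j) := by
      refine Finset.sum_congr rfl fun j _ => ?_
      by_cases hij : i = j
      · subst hij
        simp
      · rw [hS i j hij]
    have e2 : ∑ j, (κ * (Δ i * Δ j)) • (v i - v j) =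
        (κ * Δ i) • ((∑ j, Δ j) • v i - ∑ j, Δ j • v j) := by
      rw [Finset.sum_smul, ← Finset.sum_sub_distrib, Finset.smul_sum]
      refine Finset.sum_congr rfl fun j _ => ?_
      module
    rw [e, e2, hΔ.sum, hw]
    simp
  obtain ⟨τ₀, hτ⟩ := d5 x Δ hΔ
    (fun i j => m i * m j * inner ℝ (x i - x j) (v i - v j) * (‖x i - x j‖ ^ 5)⁻¹)
    (by
      intro i j
      rw [norm_sub_rev, ← neg_sub (x j) (x i), ← neg_sub (v j) (v i), inner_neg_neg]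
      ring)
    (by
      intro i
      have h1 := hs.lin i
      have e : (3 : ℝ) • ∑ j, (m i * m j * inner ℝ (x i - x j) (v i - v j) *
          (‖x i - x j‖ ^ 5)⁻¹) • (x i - x j) =
          ∑ j, (m i * m j * ((‖x i - x j‖ ^ 3)⁻¹ - lam)) • (v i - v j) -
          m i • ∑ j, ((m j * ((‖x i - x j‖ ^ 3)⁻¹ - lam)) • (v i - v j) -
            (3 * m j * inner ℝ (x i - x j) (v i - v j) * (‖x i - x j‖ ^ 5)⁻¹) •
              (x i - x j)) := by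
        rw [Finset.smul_sum, Finset.smul_sum, ← Finset.sum_sub_distrib]
        refine Finset.sum_congr rfl fun j _ => ?_
        module
      rw [h1, hsum i, smul_zero, sub_zero] at e
      exact (smul_eq_zero.mp e).resolve_left (by norm_num))
  refine ⟨τ₀ / κ, fun i j hij => ?_⟩
  have h1 := hτ i j hij
  have h2 := hS i j hij
  have hr : 0 < ‖x i - x j‖ := norm_pos_iff.mpr (sub_ne_zero.mpr (hs.ne i j hij))
  have hmi := (hs.pos i).ne'
  have hmj := (hs.pos j).ne'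
  have h3 : Δ i * Δ j = m i * m j * ((‖x i - x j‖ ^ 3)⁻¹ - lam) / κ := by
    rw [h2]
    field_simp
  rw [h3] at h1
  generalize inner ℝ (x i - x j) (v i - v j) = q at h1 ⊢
  generalize ‖x i - x j‖ = r at h1 hr ⊢
  have hr' := hr.ne'
  have h4 : m i * m j * q * (r ^ 5)⁻¹ * r ^ 5 =
      τ₀ * (m i * m j * ((r ^ 3)⁻¹ - lam) / κ) * r ^ 5 := by rw [h1]
  have h5 : m i * m j * q * (r ^ 5)⁻¹ * r ^ 5 = m i * m j * q := by
    field_simp
  have h6 : τ₀ * (m i * m j * ((r ^ 3)⁻¹ - lam) / κ) * r ^ 5 =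
      m i * m j * (τ₀ / κ * (r ^ 2 - lam * r ^ 5)) := by
    field_simp
  rw [h5, h6] at h4
  exact mul_left_cancel₀ (mul_ne_zero hmi hmj) h4

end Pool.Agent.Lib.H54E
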