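import Mathlib

set_option autoImplicit false

/-!
# H54E: definitions (MP_eec89f_mp, critical masses of the planar n-body problem)
-/

namespace Pool.Agent.Lib.H54E

/-- The Euclidean plane. -/
abbrev Pl := EuclideanSpace ℝ (Fin 2)

/-- Configurations of `n` points of the plane. -/
abbrev Conf (n : ℕ) := Fin n → Pl

/-- The Newtonian potential `U = ∑_{i<j} m_i m_j / |y_i - y_j|`. -/
noncomputable def newton {n : ℕ} (m : Fin n → ℝ) (y : Conf n) : ℝ :=
  ∑ i : Fin n, ∑ j ∈ Finset.Ioi i, m i * m j / ‖y i - y j‖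

/-- The moment of inertia with respect to the centre of mass. -/
noncomputable def inertia {n : ℕ} (m : Fin n → ℝ) (y : Conf n) : ℝ :=
  ∑ i : Fin n, m i * ‖y i - (∑ k : Fin n, m k)⁻¹ • ∑ k : Fin n, m k • y k‖ ^ 2

/-- The scale invariant potential `U √I`, as a function of the masses and the positions. -/
noncomputable def pot {n : ℕ} (p : (Fin n → ℝ) × Conf n) : ℝ :=
  newton p.1 p.2 * Real.sqrt (inertia p.1 p.2)

/-- Positive masses and no collision. -/
def dom (n : ℕ) : Set ((Fin n → ℝ) × Conf n) :=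
  {p | (∀ i, 0 < p.1 i) ∧ ∀ i j, i ≠ j → p.2 i ≠ p.2 j}

/-- Rotation of the plane by a right angle. -/
noncomputable def rot : Pl →L[ℝ] Pl :=
  LinearMap.toContinuousLinearMap
    { toFun := fun z => !₂[-(z 1), z 0]
      map_add' := by
        intro x y
        ext i
        fin_cases i
        · simp
          ring
        · simp
      map_smul' := by
        intro r x
        ext i
        fin_cases i <;> simp }

theorem rot_zero (z : Pl) : rot z 0 = -(z 1) := by
  simp [rot]

theorem rot_one (z : Pl) : rot z 1 = z 0 := by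
  simp [rot]

/-- The infinitesimal symmetries of a configuration `x`: scaling, rotation, translations. -/
def IsSym {n : ℕ} (x v : Conf n) : Prop :=
  ∃ (a b : ℝ) (c : Pl), ∀ i, v i = a • x i + b • rot (x i) + c

/-- The critical mass vectors (the set of the frozen statement S15821). -/
def Critical (n : ℕ) : Set (Fin n → ℝ) :=
  {m : Fin n → ℝ | (∀ i, 0 < m i) ∧
    ∃ F : (Fin n → EuclideanSpace ℝ (Fin 2)) → ℝ,
      (∀ y : Fin n → EuclideanSpace ℝ (Fin 2),
        F y = (∑ i : Fin n, ∑ j ∈ Finset.Ioi i, m i * m j / ‖y i - y j‖) *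
          Real.sqrt (∑ i : Fin n,
            m i * ‖y i - (∑ k : Fin n, m k)⁻¹ • ∑ k : Fin n, m k • y k‖ ^ 2)) ∧
      ∃ x : Fin n → EuclideanSpace ℝ (Fin 2),
        (∀ i j, i ≠ j → x i ≠ x j) ∧
        fderiv ℝ F x = 0 ∧
        ∃ v : Fin 5 → (Fin n → EuclideanSpace ℝ (Fin 2)),
          LinearIndependent ℝ v ∧
          ∀ k : Fin 5, (fderiv ℝ (fderiv ℝ F) x) (v k) = 0}

/-- The mass vectors with a strongly degenerate relative equilibrium: a critical point `x` and a
direction `v`, not an infinitesimal symmetry, such that `(0, v)` is in the kernel of the Hessian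
of the potential as a function of the masses AND the positions. -/
def StronglyCritical (n : ℕ) : Set (Fin n → ℝ) :=
  {m : Fin n → ℝ | (∀ i, 0 < m i) ∧ ∃ x : Conf n, (∀ i j, i ≠ j → x i ≠ x j) ∧
    fderiv ℝ (fun y : Conf n => pot (m, y)) x = 0 ∧
    ∃ v : Conf n, ¬ IsSym x v ∧ fderiv ℝ (fderiv ℝ pot) (m, x) (0, v) = 0}

end Pool.Agent.Lib.H54E
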