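import Pool.Agent.Lib.H54E.B14
import Pool.Agent.Lib.H54E.C9
import Pool.Agent.Lib.H54E.D3
import Pool.Agent.Lib.H54E.D4
import Pool.Agent.Lib.H54E.D7
import Pool.Agent.Lib.H54E.D8
import Pool.Agent.Lib.H54E.D9
import Pool.Agent.Lib.H54E.D10
import Pool.Agent.Lib.H54E.D11

set_option autoImplicit false

/-!
# H54E: assembly
-/

namespace Pool.Agent.Lib.H54E

theorem sdsys_four (m : Fin 4 → ℝ) (x v : Conf 4) (lam : ℝ) (hs : SDSys m x v lam) :
    IsSym x v := by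
  by_cases hx : OnLine x
  · exact d3 m x v lam hs hx
  · obtain ⟨Δ, hΔ⟩ := d4 x hx
    obtain ⟨κ, hκ, hΔ0, hS⟩ := d7 m x v lam hs Δ hΔ
    have hw := d8 m x v lam hs Δ hΔ hx κ hκ hΔ0 hS
    obtain ⟨τ, hτ⟩ := d9 m x v lam hs Δ hΔ κ hκ hS hw
    have h := d10 m x v lam hs τ hτ
    exact d11 x v Δ hΔ hΔ0 hs.ne hw h

theorem stronglyCritical_four : StronglyCritical 4 = ∅ := by
  apply Set.eq_empty_of_forall_notMem
  intro m hm
  obtain ⟨x, v, lam, hs, hv⟩ := c9 (by norm_num) m hm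
  exact hv (sdsys_four m x v lam hs)

theorem reduction (n : ℕ) (hn : 2 ≤ n) :
    MeasureTheory.volume (Critical n \ {m : Fin n → ℝ | ∃ (x v : Conf n) (lam : ℝ),
      SDSys m x v lam ∧ ¬ OnLine x ∧ ¬ IsSym x v}) = 0 := by
  refine MeasureTheory.measure_mono_null ?_ (b14 n hn)
  rintro m ⟨hm, hs⟩
  refine ⟨hm, fun hsc => hs ?_⟩
  obtain ⟨x, v, lam, h1, h2⟩ := c9 hn m hsc
  exact ⟨x, v, lam, h1, fun hl => h2 (d3 m x v lam h1 hl), h2⟩

theorem critical_four : MeasureTheory.volume (Critical 4) = 0 := by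
  have h := b14 4 (by norm_num)
  rw [stronglyCritical_four, Set.sdiff_empty] at h
  exact h

end Pool.Agent.Lib.H54E
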